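import Pool.Agent.T2H18.PO.Main3
import Pool.Agent.W114.VT.Main

/-!
# Singer difference sets along the values of polynomials
-/

set_option autoImplicit false

namespace Pool.Agent.T2H18.PO

open Filter Topology Polynomial Pool.Agent.H771R2.Dens Pool.Agent.H771R2.SingerDS

lemma tendsto_exists {ι : Type} (F : Finset ι) (S : ι → ℕ → Prop)
    (h : ∀ i ∈ F, Tendsto (fun N : ℕ => (cnt (S i) N : ℝ) / N) atTop (𝓝 0)) :
    Tendsto (fun N : ℕ => (cnt (fun t => ∃ i ∈ F, S i t) N : ℝ) / N) atTop (𝓝 0) := by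
  classical
  induction F using Finset.induction_on with
  | empty =>
    have h0 : ∀ N, cnt (fun t => ∃ i ∈ (∅ : Finset ι), S i t) N = 0 := by
      intro N
      apply Nat.le_zero.1
      refine (cnt_le_card (s := ∅) ?_).trans (by simp)
      rintro t - ⟨i, hi, -⟩
      simp at hi
    simp only [h0]
    simp
  | insert a F ha ih =>
    have h1 := (h a (Finset.mem_insert_self a F)).add
      (ih fun i hi => h i (Finset.mem_insert_of_mem hi))
    rw [add_zero] at h1
    refine squeeze_zero (fun N => by positivity) (fun N => ?_) h1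
    rw [← add_div]
    apply div_le_div_of_nonneg_right _ (Nat.cast_nonneg _)
    have h2 : cnt (fun t => ∃ i ∈ insert a F, S i t) N ≤
        cnt (S a) N + cnt (fun t => ∃ i ∈ F, S i t) N := by
      refine (cnt_mono (fun t => ?_) N).trans (cnt_or _ _ N)
      rintro ⟨i, hi, h'⟩
      rcases Finset.mem_insert.1 hi with rfl | hi
      · exact Or.inl h'
      · exact Or.inr ⟨i, hi, h'⟩
    exact_mod_cast h2

/-- `f(t)` is an order in a dimension divisible by `l` -/
def SL (f : ℤ[X]) (l t : ℕ) : Prop :=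
  ∃ n : ℕ, 2 ≤ n ∧ f.eval (t : ℤ) = n ∧ ∃ m : ℕ, Odd m ∧ 3 ≤ m ∧ l ∣ m ∧ HasSinger n m

lemma sl_test {f : ℤ[X]} {l t : ℕ} (hl : l.Prime) (h : SL f l t) :
    0 < f.eval (t : ℤ) ∧ ¬ Test f ((cyclotomic l ℤ).comp f) l t := by
  obtain ⟨n, hn, hfn, m, hmo, hm3, hlm, hS⟩ := h
  refine ⟨by rw [hfn]; omega, ?_⟩
  rintro ⟨q, p, e, u, hq, hKq, hqF, hp, he, hpe, hpu, j, hj⟩
  have hqF' : Fact q.Prime := ⟨hq⟩
  have hroot : (cyclotomic l (ZMod q)).eval (n : ZMod q) = 0 := by
    rw [eval_comp, hfn, ← ZMod.intCast_zmod_eq_zero_iff_dvd] at hqF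
    have h8 : (((cyclotomic l ℤ).eval (n : ℤ) : ℤ) : ZMod q) =
        ((cyclotomic l ℤ).map (Int.castRingHom (ZMod q))).eval (((n : ℕ) : ℤ) : ZMod q) := by
      rw [Polynomial.eval_intCast_map]
      rfl
    rw [h8, map_cyclotomic] at hqF
    push_cast at hqF
    exact hqF
  have hnl : (n : ZMod q) ^ l = 1 := by
    obtain ⟨Q, hQ⟩ := cyclotomic.dvd_X_pow_sub_one l (ZMod q)
    have h1 := congrArg (Polynomial.eval (n : ZMod q)) hQ
    rw [eval_mul, hroot, zero_mul] at h1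
    simpa [sub_eq_zero] using h1
  have hn1 : (n : ZMod q) ≠ 1 := by
    intro h1
    have hlF : Fact l.Prime := ⟨hl⟩
    rw [h1, eval_one_cyclotomic_prime, ZMod.natCast_eq_zero_iff] at hroot
    have := Nat.le_of_dvd hl.pos hroot
    omega
  have hnm : (n : ZMod q) ^ m = 1 := by
    obtain ⟨c, rfl⟩ := hlm
    rw [pow_mul, hnl, one_pow]
  -- the natural number `u`
  have hu0 : 0 ≤ u := by
    by_contra hcon
    push Not at hcon
    have h1 : (0 : ℤ) < (p : ℤ) ^ e := by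
      have := hp.pos
      positivity
    rw [hfn] at hpe
    nlinarith
  obtain ⟨w, rfl⟩ := Int.eq_ofNat_of_zero_le hu0
  refine Pool.Agent.W114.VT.excluded' hmo hm3 hn hS hq hnm hn1 hp (a := e) (u := w) ?_ ?_ he hj
  · rw [hfn] at hpe
    exact_mod_cast hpe
  · exact_mod_cast hpu

lemma cyc_deg {l : ℕ} (hl : l.Prime) {f : ℤ[X]} (hf : 0 < f.natDegree) :
    0 < ((cyclotomic l ℤ).comp f).natDegree := by
  rw [natDegree_comp, natDegree_cyclotomic, Nat.totient_prime hl]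
  have := hl.two_le
  exact Nat.mul_pos (by omega) hf

lemma cyc_zero {l : ℕ} (hl : l.Prime) (hl2 : l ≠ 2) (f : ℤ[X]) :
    ((cyclotomic l ℤ).comp f).eval 0 ≠ 0 := by
  rw [eval_comp]
  have h3 : 2 < l := lt_of_le_of_ne hl.two_le (Ne.symm hl2)
  have := cyclotomic_pos h3 (f.eval 0)
  omega

theorem singer_all {f : ℤ[X]} (hf : 0 < f.natDegree) (hns : ¬ IsSq f) {l : ℕ} (hl : l.Prime) :
    Tendsto (fun N : ℕ => (cnt (SL f l) N : ℝ) / N) atTop (𝓝 0) := by
  have hf0 : f ≠ 0 := by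
    rintro rfl
    simp at hf
  refine squeeze_zero (fun N => by positivity) (fun N => ?_)
    (dens_main hf0 hns (cyc_deg hl hf) l)
  apply div_le_div_of_nonneg_right _ (Nat.cast_nonneg _)
  exact_mod_cast cnt_mono (fun t ht => sl_test hl ht) N

theorem singer_primes {f : ℤ[X]} (hf : 0 < f.natDegree) (hns : ¬ IsSq f) (hne : ∀ k : ℕ, f ≠ X ^ k)
    {l : ℕ} (hl : l.Prime) (hl2 : l ≠ 2) : PZ (SL f l) := by
  have hf0 : f ≠ 0 := by
    rintro rfl
    simp at hf
  exact PZ.mono (fun t _ ht => sl_test hl ht) (prime_final hf0 hns (cyc_deg hl hf)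
    (cyc_zero hl hl2 f) (fun hx => root_cyc hl hl2 hf0 hne hx) l)

/-- all bounded least prime factors -/
theorem singer_main {f : ℤ[X]} (hf : 0 < f.natDegree) (hns : ¬ IsSq f) (K : ℕ) (S : ℕ → Prop)
    (hS : ∀ t, S t → ∃ n : ℕ, 2 ≤ n ∧ f.eval (t : ℤ) = n ∧
      ∃ m : ℕ, Odd m ∧ 3 ≤ m ∧ m.minFac ≤ K ∧ HasSinger n m) :
    Tendsto (fun N : ℕ => (cnt S N : ℝ) / N) atTop (𝓝 0) ∧
    ((∀ k : ℕ, f ≠ X ^ k) → PZ S) := by
  classical
  set F : Finset ℕ := (Finset.range (K + 1)).filter (fun l => l.Prime ∧ l ≠ 2) with hF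
  have key : ∀ t, S t → ∃ l ∈ F, SL f l t := by
    intro t ht
    obtain ⟨n, hn, hfn, m, hmo, hm3, hmK, h⟩ := hS t ht
    refine ⟨m.minFac, ?_, n, hn, hfn, m, hmo, hm3, Nat.minFac_dvd m, h⟩
    rw [hF, Finset.mem_filter, Finset.mem_range]
    refine ⟨by omega, Nat.minFac_prime (by omega), fun h2 => ?_⟩
    have h3 := Nat.minFac_dvd m
    rw [h2] at h3
    obtain ⟨a, ha⟩ := hmo
    omega
  constructor
  · refine squeeze_zero (fun N => by positivity) (fun N => ?_)
      (tendsto_exists F (fun l => SL f l) fun l hl => by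
        rw [hF, Finset.mem_filter] at hl
        exact singer_all hf hns hl.2.1)
    apply div_le_div_of_nonneg_right _ (Nat.cast_nonneg _)
    exact_mod_cast cnt_mono key N
  · intro hne
    refine PZ.mono (fun t _ ht => key t ht) (PZ.exists F fun l hl => ?_)
    rw [hF, Finset.mem_filter] at hl
    exact singer_primes hf hns hne hl.2.1 hl.2.2

end Pool.Agent.T2H18.PO
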