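import Pool.Agent.T2H18.PO.Main3
import Pool.Agent.R116.HallFew

/-!
# Symmetric designs with few orbits: orders which are values of a polynomial
-/

set_option autoImplicit false

namespace Pool.Agent.T2H18.PO

open Finset Filter Topology MulAction
open Pool.Agent.H951R4.OD Pool.Agent.H634R3.PPC Pool.Agent.H634R3.WG Pool.Agent.H634R3.WG.Lam
open Pool.Agent.W854.FA Pool.Agent.R116.Hall

/-- **The test**, general odd exponents. -/
theorem fix_test_odd {v k lam : ℕ} {B : Fin v → Finset (Fin v)} (hv : 2 ≤ v) (hlam : 1 ≤ lam)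
    (hkv : k < v) (hk : ∀ i, (B i).card = k)
    (hpair : ∀ x y : Fin v, x ≠ y →
      (Finset.univ.filter (fun i => x ∈ B i ∧ y ∈ B i)).card = lam) (hodd : Odd v)
    {σ : Equiv.Perm (Fin v)} (haut : ∀ i, ∃ j, (B i).image σ = B j) {q a : ℕ} (hq : q.Prime)
    (hq2 : q ≠ 2) (hσ : σ ^ (q ^ a) = 1)
    (heven : Even (univ.filter (fun x : Fin v => σ x = x)).card) {p : ℕ} (hp : p.Prime)
    {e u : ℕ} (he : Odd e) (hu : k - lam = p ^ e * u) (hpu : ¬ p ∣ u) {j : ℕ}
    (hj : (p : ZMod q) ^ j = -1) : False := by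
  classical
  have hinj := blocks_inj hv hlam hkv hk hpair
  choose τ hτ using haut
  have hτi : Function.Injective τ := by
    intro i j hij
    apply hinj
    have h1 := hτ i
    rw [hij, ← hτ j] at h1
    exact Finset.image_injective σ.injective h1
  obtain ⟨τe, hτe⟩ : ∃ τe : Equiv.Perm (Fin v), ∀ i, τe i = τ i :=
    ⟨Equiv.ofBijective τ (Finite.injective_iff_bijective.1 hτi), fun i => rfl⟩
  have hmem : (σ, τe) ∈ pairs B ⊤ := by
    refine ⟨Subgroup.mem_top _, ?_⟩
    intro z i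
    show σ z ∈ B (τe i) ↔ z ∈ B i
    rw [hτe, ← hτ i, Finset.mem_image]
    constructor
    · rintro ⟨w, hw, hwz⟩
      rwa [← σ.injective hwz]
    · intro hz
      exact ⟨z, hz, rfl⟩
  obtain ⟨γ, hγ⟩ : ∃ γ : pairs B ⊤, γ = ⟨(σ, τe), hmem⟩ := ⟨_, rfl⟩
  have : Fintype (pairs B ⊤) := Fintype.ofFinite _
  -- the order
  have hγq : γ ^ (q ^ a) = 1 := by
    have h1 : (γ ^ (q ^ a)).1.1 = 1 := by
      have : (γ ^ (q ^ a)).1.1 = σ ^ (q ^ a) := by
        rw [Subgroup.coe_pow, Prod.pow_fst, hγ]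
      rw [this, hσ]
    apply Subtype.ext
    refine Prod.ext h1 ?_
    ext1 i
    apply hinj
    ext x
    have h2 := (γ ^ (q ^ a)).2.2 x i
    rw [h1] at h2
    exact h2
  have hγx : ∀ x : Fin v, γ • x = σ x := by
    intro x
    rw [hγ]
    rfl
  have hq3 : 2 < q := lt_of_le_of_ne hq.two_le (Ne.symm hq2)
  have hsz : ∀ {X : Type} [Fintype X] [MulAction (pairs B ⊤) X]
      (α : orbitRel.Quotient (Subgroup.zpowers (γ ^ q)) X),
      ¬ p ∣ sz (Subgroup.zpowers (γ ^ q)) α := by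
    intro X _ _ α h
    obtain ⟨i, hi⟩ := sz_pow hq hγq α
    rw [hi] at h
    have h1 := (Nat.prime_dvd_prime_iff_eq hp hq).1 (hp.dvd_of_dvd_pow h)
    subst h1
    have hF : Fact p.Prime := ⟨hp⟩
    have : Fact (2 < p) := ⟨hq3⟩
    rw [ZMod.natCast_self] at hj
    rcases Nat.eq_zero_or_pos j with h0 | h0
    · rw [h0, pow_zero] at hj
      exact ZMod.neg_one_ne_one hj.symm
    · rw [zero_pow (by omega)] at hj
      have h3 : (1 : ZMod p) = 0 := by
        have := congrArg Neg.neg hj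
        rw [neg_neg, neg_zero] at this
        exact this.symm
      exact one_ne_zero h3
  refine orb_testw (des_blk hv hlam hkv hk hpair) ?_ (Subgroup.zpowers (γ ^ q))
    (nrm_zpowers γ q) hq hq3
    (Subgroup.mem_zpowers (γ ^ q)) hp (fun α _ => hsz α) (fun β _ => hsz β) ?_
    (j := j) hj he (u := u) hpu hu
  · intro g x b
    exact g.2.2 x b.i
  · have h1 : Odd (Fintype.card (Fin v)) := by
      rw [Fintype.card_fin]
      exact hodd
    have h2 : Even (univ.filter (fun x : Fin v => γ • x = x)).card := by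
      simp only [hγx]
      exact heven
    have h3 := odd_moved hq hq2 hγq h1 (by convert h2)
    convert h3

lemma not_sq_of_odd {n p e u : ℕ} (hp : p.Prime) (he : Odd e) (hn : n = p ^ e * u)
    (hu : ¬ p ∣ u) : ¬ IsSquare n := by
  rintro ⟨s, hs⟩
  have hpF : Fact p.Prime := ⟨hp⟩
  have hu0 : u ≠ 0 := by
    rintro rfl
    exact hu (dvd_zero _)
  have h1 : padicValNat p n = e := by
    rw [hn, padicValNat.mul (pow_ne_zero _ hp.ne_zero) hu0, padicValNat.prime_pow,
      padicValNat.eq_zero_of_not_dvd hu, add_zero]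
  have hs0 : s ≠ 0 := by
    rintro rfl
    have h2 : p ^ e * u ≠ 0 := mul_ne_zero (pow_ne_zero _ hp.ne_zero) hu0
    rw [← hn, hs] at h2
    simp at h2
  rw [hs, padicValNat.mul hs0 hs0] at h1
  obtain ⟨c, hc⟩ := he
  omega

/-- the value of the polynomial `HP` -/
lemma HP_eval {v k lam : ℕ} {B : Fin v → Finset (Fin v)} (h : SD v k lam B) (hlam : 1 ≤ lam)
    {n : ℕ} (hn : k = n + lam) : (HP lam).eval (n : ℤ) = ((lam * v : ℕ) : ℤ) := by
  have hv := two_le_v h
  obtain ⟨-, hcount⟩ := repl v k lam hv hlam B h.size h.pair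
  unfold HP
  simp only [Polynomial.eval_add, Polynomial.eval_pow, Polynomial.eval_X, Polynomial.eval_mul,
    Polynomial.eval_C]
  have h1 : (k : ℤ) * k = lam * ((v - 1 : ℕ) : ℤ) + k := by exact_mod_cast hcount
  rw [Nat.cast_sub (by omega)] at h1
  rw [hn] at h1
  push_cast at h1 ⊢
  nlinarith

/-- the design has a prime `q > K` -/
theorem des_test {f : Polynomial ℤ} {lam s K t : ℕ} (hlam : 1 ≤ lam) (hK : s + lam + 2 ≤ K)
    (h : ∃ n : ℕ, f.eval (t : ℤ) = n ∧ n + lam ∈ blk s lam) :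
    0 < f.eval (t : ℤ) ∧ ¬ Test f ((HP lam).comp f) K t := by
  obtain ⟨n, hfn, v, B, hd, hev⟩ := h
  have hv := two_le_v hd
  obtain ⟨hlk, -, -⟩ := design_facts hv hlam hd.lt hd.size hd.pair
  refine ⟨by rw [hfn]; omega, ?_⟩
  rintro ⟨q, p, e, u, hq, hKq, hqF, hp, he, hpe, hpu, j, hj⟩
  have hu0 : 0 ≤ u := by
    by_contra hcon
    push Not at hcon
    have h1 : (0 : ℤ) < (p : ℤ) ^ e := by
      have := hp.pos
      positivity
    rw [hfn] at hpe
    nlinarith
  obtain ⟨w, rfl⟩ := Int.eq_ofNat_of_zero_le hu0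
  have hnw : n = p ^ e * w := by
    rw [hfn] at hpe
    exact_mod_cast hpe
  have hpw : ¬ p ∣ w := by exact_mod_cast hpu
  have hkl : n + lam - lam = n := by omega
  have hoddv : Odd v := by
    by_contra he'
    rw [Nat.not_odd_iff_even] at he'
    have h1 := schutz_design hv hlam hd.lt hd.size hd.pair he'
    rw [hkl] at h1
    exact not_sq_of_odd hp he hnw hpw h1
  rw [Polynomial.eval_comp, hfn, HP_eval hd hlam rfl] at hqF
  have hqv : q ∣ v := by
    have h1 : q ∣ lam * v := by exact_mod_cast hqF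
    rcases hq.dvd_mul.1 h1 with h2 | h2
    · have := Nat.le_of_dvd (by omega) h2
      omega
    · exact h2
  obtain ⟨σ, a, haut, hσ, heven⟩ := hev q hq (by omega) hqv
  exact fix_test_odd hv hlam hd.lt hd.size hd.pair hoddv haut hq (by omega) hσ heven hp he
    (by rw [hkl]; exact hnw) hpw hj

theorem HP_zero (lam : ℕ) (hlam : 1 ≤ lam) (x : ℤ) : (HP lam).eval x ≠ 0 := by
  unfold HP
  simp only [Polynomial.eval_add, Polynomial.eval_pow, Polynomial.eval_X, Polynomial.eval_mul,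
    Polynomial.eval_C]
  intro h
  have h1 : (1 : ℤ) ≤ lam := by exact_mod_cast hlam
  have h2 : (2 * x + (2 * lam - 1)) ^ 2 + (4 * (lam : ℤ) - 1) = 0 := by
    linear_combination 4 * h
  nlinarith [sq_nonneg (2 * x + (2 * (lam : ℤ) - 1))]

/-- the density theorem -/
theorem hall_main {f : Polynomial ℤ} (hf : 0 < f.natDegree) (hns : ¬ IsSq f) {lam : ℕ}
    (hlam : 1 ≤ lam) (s : ℕ) (S : ℕ → Prop)
    (hS : ∀ t, S t → ∃ n : ℕ, f.eval (t : ℤ) = n ∧ n + lam ∈ blk s lam) :
    Tendsto (fun N : ℕ => (Pool.Agent.H771R2.Dens.cnt S N : ℝ) / N) atTop (𝓝 0) ∧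
    ((lam = 1 → ∀ k : ℕ, f ≠ Polynomial.X ^ k) → PZ S) := by
  have hf0 : f ≠ 0 := by
    rintro rfl
    simp at hf
  have hdeg : 0 < ((HP lam).comp f).natDegree := by
    rw [Polynomial.natDegree_comp, HP_natDegree]
    omega
  constructor
  · refine squeeze_zero (fun N => by positivity) (fun N => ?_)
      (dens_main hf0 hns hdeg (s + lam + 2))
    apply div_le_div_of_nonneg_right _ (Nat.cast_nonneg _)
    exact_mod_cast Pool.Agent.H771R2.Dens.cnt_mono (fun t ht => des_test hlam le_rfl (hS t ht)) N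
  · intro hne
    refine PZ.mono (fun t _ ht => des_test hlam le_rfl (hS t ht)) (prime_final hf0 hns hdeg ?_
      (fun hx => root_HP hlam hf0 hne hx) _)
    rw [Polynomial.eval_comp]
    exact HP_zero lam hlam _

end Pool.Agent.T2H18.PO
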