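import Pool.Agent.Y942.LY.BR
import Pool.Agent.T2H18.PO.Hall

/-!
# The Bruck-Ryser-Chowla theorem, all odd exponents
-/

set_option autoImplicit false

namespace Pool.Agent.T2H18.PO

open Finset Pool.Agent.Y942.LY

/-- the quadratic identity of a symmetric design -/
theorem quad_lam {v : ℕ} {n lam : ℚ} (N : Fin v → Fin v → ℚ)
    (S2 : ∀ x y, x ≠ y → ∑ i, N x i * N y i = lam)
    (S3 : ∀ x, ∑ i, N x i * N x i = n + lam) (z : Fin v → ℚ) :
    ∑ i, (∑ x, N x i * z x) ^ 2 = n * ∑ x, (z x) ^ 2 + lam * (∑ x, z x) ^ 2 := by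
  have h1 : ∀ i, (∑ x, N x i * z x) ^ 2 = ∑ x, ∑ y, (z x * z y) * (N x i * N y i) := by
    intro i
    rw [pow_two, Finset.sum_mul_sum]
    refine Finset.sum_congr rfl fun x _ => Finset.sum_congr rfl fun y _ => ?_
    ring
  simp only [h1]
  rw [Finset.sum_comm]
  have h2 : ∀ x, ∑ i, ∑ y, (z x * z y) * (N x i * N y i) =
      n * (z x) ^ 2 + lam * (z x * ∑ y, z y) := by
    intro x
    rw [Finset.sum_comm]
    have h3 : ∀ y, ∑ i, (z x * z y) * (N x i * N y i) =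
        lam * (z x * z y) + if x = y then n * (z x) ^ 2 else 0 := by
      intro y
      rw [← Finset.mul_sum]
      by_cases hxy : x = y
      · subst hxy
        rw [S3, if_pos rfl]
        ring
      · rw [S2 x y hxy, if_neg hxy]
        ring
    simp only [h3, Finset.sum_add_distrib, Finset.sum_ite_eq, Finset.mem_univ, if_true]
    rw [← Finset.mul_sum, ← Finset.mul_sum]
    ring
  simp only [h2, Finset.sum_add_distrib]
  rw [← Finset.mul_sum, ← Finset.mul_sum, ← Finset.sum_mul]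
  ring

/-- the substitution on `4 t` variables -/
theorem subst4 {m w : ℕ} (hm : 1 ≤ m) (hw : 4 ∣ w) : ∃ zz : (Fin w → ℚ) →ₗ[ℚ] (Fin w → ℚ),
    ∀ y, (m : ℚ) * ∑ i, (zz y i) ^ 2 = ∑ i, (y i) ^ 2 := by
  classical
  obtain ⟨a, b, c, d, habcd⟩ := Nat.sum_four_squares m
  obtain ⟨t, ht⟩ : ∃ t, w = t * 4 := ⟨w / 4, by omega⟩
  let e : Fin w ≃ Fin t × Fin 4 := (finCongr ht).trans finProdFinEquiv.symm
  have hm0 : (m : ℚ) ≠ 0 := by
    have : m ≠ 0 := by omega
    exact_mod_cast this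
  let zz : (Fin w → ℚ) → Fin w → ℚ := fun y i =>
    (∑ r, eu a b c d (e i).2 r * y (e.symm ((e i).1, r))) / m
  have hzz : ∀ y, (m : ℚ) * ∑ i, (zz y i) ^ 2 = ∑ i, (y i) ^ 2 := by
    intro y
    have h1 : ∑ i, (zz y i) ^ 2 = ∑ p : Fin t × Fin 4,
        ((∑ r, eu a b c d p.2 r * y (e.symm (p.1, r))) / m) ^ 2 :=
      Equiv.sum_comp e (fun p => ((∑ r, eu a b c d p.2 r * y (e.symm (p.1, r))) / m) ^ 2)
    have h2 : ∑ i, (y i) ^ 2 = ∑ p : Fin t × Fin 4, (y (e.symm p)) ^ 2 :=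
      (Equiv.sum_comp e.symm (fun i => (y i) ^ 2)).symm
    rw [h1, h2, Fintype.sum_prod_type, Fintype.sum_prod_type, Finset.mul_sum]
    refine Finset.sum_congr rfl fun p _ => ?_
    have h3 := euler4 a b c d (fun r => y (e.symm (p, r)))
    simp only [div_pow]
    rw [← Finset.sum_div, h3]
    have h4 : ((a : ℚ) ^ 2 + b ^ 2 + c ^ 2 + d ^ 2) = m := by exact_mod_cast habcd
    rw [h4]
    field_simp
  refine ⟨{ toFun := zz, map_add' := ?_, map_smul' := ?_ }, hzz⟩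
  · intro y y'
    funext i
    simp only [zz, Pi.add_apply, mul_add, Finset.sum_add_distrib, add_div]
  · intro s y
    funext i
    simp only [zz, Pi.smul_apply, smul_eq_mul, RingHom.id_apply]
    rw [← mul_div_assoc, Finset.mul_sum]
    congr 1
    exact Finset.sum_congr rfl fun r _ => by ring

/-- `v ≡ 3 (mod 4)` -/
theorem brc3 {v m : ℕ} {lam : ℚ} (hm : 1 ≤ m) (hv : 4 ∣ v + 1) (N : Fin v → Fin v → ℚ)
    (S2 : ∀ x y, x ≠ y → ∑ i, N x i * N y i = lam)
    (S3 : ∀ x, ∑ i, N x i * N x i = m + lam) :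
    ∃ z w : ℚ, (m : ℚ) * z ^ 2 = 1 + lam * w ^ 2 := by
  obtain ⟨zz, hzz⟩ := subst4 hm hv
  let Λ : Fin v → ((Fin (v + 1) → ℚ) →ₗ[ℚ] ℚ) := fun i =>
    ∑ x : Fin v, N x i • ((LinearMap.proj x.castSucc).comp zz)
  have hΛ : ∀ i y, Λ i y = ∑ x : Fin v, N x i * zz y x.castSucc := by
    intro i y
    simp only [Λ, LinearMap.coe_sum, Finset.sum_apply, LinearMap.smul_apply, smul_eq_mul,
      LinearMap.comp_apply, LinearMap.proj_apply]
  obtain ⟨y, hy1, hy2⟩ := lin v Λ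
  have h1 := quad_lam N S2 S3 (fun x => zz y x.castSucc)
  have h2 : ∑ i : Fin v, (y i.castSucc) ^ 2 = ∑ i, (∑ x, N x i * zz y x.castSucc) ^ 2 :=
    Finset.sum_congr rfl fun i _ => by rw [← hy2 i, hΛ]
  have h3 := hzz y
  rw [Fin.sum_univ_castSucc, Fin.sum_univ_castSucc, hy1, h2, h1] at h3
  refine ⟨zz y (Fin.last v), ∑ x : Fin v, zz y x.castSucc, ?_⟩
  linear_combination h3

/-- `v ≡ 1 (mod 4)` -/
theorem brc1 {v m : ℕ} {lam : ℚ} (hm : 1 ≤ m) (hv : 4 ∣ v) (N : Fin (v + 1) → Fin (v + 1) → ℚ)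
    (S2 : ∀ x y, x ≠ y → ∑ i, N x i * N y i = lam)
    (S3 : ∀ x, ∑ i, N x i * N x i = m + lam) :
    ∃ z w : ℚ, z ^ 2 = m + lam * w ^ 2 := by
  obtain ⟨zz, hzz⟩ := subst4 hm hv
  -- extend by the last variable
  let ini : (Fin (v + 1) → ℚ) →ₗ[ℚ] (Fin v → ℚ) := LinearMap.funLeft ℚ ℚ Fin.castSucc
  let X : (Fin (v + 1) → ℚ) → Fin (v + 1) → ℚ := fun y =>
    Fin.snoc (zz (ini y)) (y (Fin.last v))
  let Λ : Fin v → ((Fin (v + 1) → ℚ) →ₗ[ℚ] ℚ) := fun i =>
    (∑ x : Fin v, N x.castSucc i.castSucc • ((LinearMap.proj x).comp (zz.comp ini))) +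
      N (Fin.last v) i.castSucc • LinearMap.proj (Fin.last v)
  have hΛ : ∀ i y, Λ i y = ∑ x, N x i.castSucc * X y x := by
    intro i y
    simp only [Λ, LinearMap.add_apply, LinearMap.coe_sum, Finset.sum_apply, LinearMap.smul_apply,
      smul_eq_mul, LinearMap.comp_apply, LinearMap.proj_apply]
    rw [Fin.sum_univ_castSucc]
    simp only [X, Fin.snoc_castSucc, Fin.snoc_last]
  obtain ⟨y, hy1, hy2⟩ := lin v Λ
  have h1 := quad_lam N S2 S3 (X y)
  have h2 : ∑ i : Fin v, (∑ x, N x i.castSucc * X y x) ^ 2 = ∑ i : Fin v, (ini y i) ^ 2 :=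
    Finset.sum_congr rfl fun i _ => by
      rw [← hΛ, hy2 i]
      rfl
  have h3 := hzz (ini y)
  have h4 : ∑ x, (X y x) ^ 2 = ∑ x : Fin v, (zz (ini y) x) ^ 2 + 1 := by
    rw [Fin.sum_univ_castSucc]
    simp only [X, Fin.snoc_castSucc, Fin.snoc_last]
    rw [hy1]
    ring
  rw [Fin.sum_univ_castSucc, h2, ← h3, h4] at h1
  refine ⟨∑ x, N x (Fin.last v) * X y x, ∑ x, X y x, ?_⟩
  linear_combination h1

/-- norm forms have even valuation -/
theorem norm_form {p : ℕ} (hp : p.Prime) {d : ℤ} (hd : ¬ IsSquare (d : ZMod p)) {u : ℤ}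
    (hu : ¬ (p : ℤ) ∣ u) (m : ℕ) : ∀ (k : ℕ) (a b c : ℤ), c.natAbs ≤ k → c ≠ 0 →
      a ^ 2 - d * b ^ 2 ≠ (p : ℤ) ^ (2 * m + 1) * u * c ^ 2 := by
  have hpF : Fact p.Prime := ⟨hp⟩
  have hpp : Prime (p : ℤ) := Nat.prime_iff_prime_int.1 hp
  have hp0 : (p : ℤ) ≠ 0 := hpp.ne_zero
  have hdiv : ∀ a b : ℤ, (p : ℤ) ∣ a ^ 2 - d * b ^ 2 → (p : ℤ) ∣ a ∧ (p : ℤ) ∣ b := by
    intro a b h
    have h1 : ((a : ZMod p)) ^ 2 = d * (b : ZMod p) ^ 2 := by
      rw [← ZMod.intCast_zmod_eq_zero_iff_dvd] at h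
      push_cast at h
      linear_combination h
    have hb : (b : ZMod p) = 0 := by
      by_contra hb
      apply hd
      refine ⟨(a : ZMod p) / b, ?_⟩
      field_simp
      linear_combination -h1
    rw [hb] at h1
    have ha : (a : ZMod p) = 0 := by
      have : (a : ZMod p) ^ 2 = 0 := by rw [h1]; ring
      exact pow_eq_zero_iff two_ne_zero |>.1 this
    exact ⟨(ZMod.intCast_zmod_eq_zero_iff_dvd _ _).1 ha,
      (ZMod.intCast_zmod_eq_zero_iff_dvd _ _).1 hb⟩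
  induction m with
  | zero =>
    intro k
    induction k with
    | zero =>
      intro a b c hc hc0
      exfalso
      apply hc0
      have : c.natAbs = 0 := by omega
      exact Int.natAbs_eq_zero.1 this
    | succ k ih =>
      intro a b c hc hc0 h
      have h1 : (p : ℤ) ∣ a ^ 2 - d * b ^ 2 := by
        rw [h]
        exact ⟨u * c ^ 2, by ring⟩
      obtain ⟨⟨a', rfl⟩, ⟨b', rfl⟩⟩ := hdiv a b h1
      have h2 : (p : ℤ) * (a' ^ 2 - d * b' ^ 2) = u * c ^ 2 := by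
        apply mul_left_cancel₀ hp0
        linear_combination h
      have h3 : (p : ℤ) ∣ u * c ^ 2 := ⟨_, h2.symm⟩
      have h4 : (p : ℤ) ∣ c := by
        rcases hpp.dvd_or_dvd h3 with h5 | h5
        · exact absurd h5 hu
        · exact hpp.dvd_of_dvd_pow h5
      obtain ⟨c', rfl⟩ := h4
      have hc'0 : c' ≠ 0 := by
        rintro rfl
        simp at hc0
      refine ih a' b' c' ?_ hc'0 ?_
      · rw [Int.natAbs_mul, Int.natAbs_natCast] at hc
        have h6 : 1 ≤ c'.natAbs := Int.natAbs_pos.2 hc'0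
        have h7 := hp.two_le
        nlinarith
      · apply mul_left_cancel₀ hp0
        linear_combination h2
  | succ m ihm =>
    intro k a b c hc hc0 h
    have h1 : (p : ℤ) ∣ a ^ 2 - d * b ^ 2 := by
      rw [h]
      exact ⟨(p : ℤ) ^ (2 * m + 2) * u * c ^ 2, by ring⟩
    obtain ⟨⟨a', rfl⟩, ⟨b', rfl⟩⟩ := hdiv a b h1
    refine ihm k a' b' c hc hc0 ?_
    have hp2 : (p : ℤ) ^ 2 ≠ 0 := pow_ne_zero _ hp0
    apply mul_left_cancel₀ hp2
    linear_combination h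

/-- the rational version -/
theorem norm_form_rat {p : ℕ} (hp : p.Prime) {d : ℤ} (hd : ¬ IsSquare (d : ZMod p)) {u : ℤ}
    (hu : ¬ (p : ℤ) ∣ u) {e : ℕ} (he : Odd e) {a b c : ℚ} (hc : c ≠ 0) :
    a ^ 2 - d * b ^ 2 ≠ (p : ℚ) ^ e * u * c ^ 2 := by
  intro h
  obtain ⟨m, rfl⟩ := he
  set D : ℚ := (a.den : ℚ) * b.den * c.den with hD
  have ha : (a.den : ℚ) ≠ 0 := by exact_mod_cast a.den_nz
  have hb : (b.den : ℚ) ≠ 0 := by exact_mod_cast b.den_nz
  have hcd : (c.den : ℚ) ≠ 0 := by exact_mod_cast c.den_nz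
  have ea : a * a.den = a.num := Rat.mul_den_eq_num a
  have eb : b * b.den = b.num := Rat.mul_den_eq_num b
  have ec : c * c.den = c.num := Rat.mul_den_eq_num c
  refine norm_form hp hd hu m _ (a.num * b.den * c.den) (b.num * a.den * c.den)
    (c.num * a.den * b.den) le_rfl ?_ ?_
  · have h1 : c.num ≠ 0 := Rat.num_ne_zero.2 hc
    have h2 : (a.den : ℤ) ≠ 0 := by exact_mod_cast a.den_nz
    have h3 : (b.den : ℤ) ≠ 0 := by exact_mod_cast b.den_nz
    exact mul_ne_zero (mul_ne_zero h1 h2) h3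
  · have h1 : (((a.num * b.den * c.den) ^ 2 - d * (b.num * a.den * c.den) ^ 2 : ℤ) : ℚ) =
        (((p : ℤ) ^ (2 * m + 1) * u * (c.num * a.den * b.den) ^ 2 : ℤ) : ℚ) := by
      push_cast
      rw [← ea, ← eb, ← ec]
      linear_combination ((a.den : ℚ) * b.den * c.den) ^ 2 * h
    exact_mod_cast h1

/-- **Bruck-Ryser-Chowla**, for odd exponents -/
theorem brc_odd {v k lam : ℕ} {B : Fin v → Finset (Fin v)} (h : Pool.Agent.R116.Hall.SD v k lam B)
    (hlam : 1 ≤ lam) {p e u : ℕ} (hp : p.Prime) (he : Odd e)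
    (hn : k - lam = p ^ e * u) (hpu : ¬ p ∣ u) :
    (v % 4 = 1 → IsSquare (((lam : ℤ)) : ZMod p)) ∧
      (v % 4 = 3 → IsSquare (((-(lam : ℤ) : ℤ)) : ZMod p)) := by
  classical
  have hv := Pool.Agent.R116.Hall.two_le_v h
  obtain ⟨hlk, -, -⟩ := Pool.Agent.H951R4.OD.design_facts hv hlam h.lt h.size h.pair
  obtain ⟨hrep, -⟩ := Pool.Agent.H951R4.OD.repl v k lam hv hlam B h.size h.pair
  obtain ⟨m, hm⟩ : ∃ m, k = m + lam := ⟨k - lam, by omega⟩
  have hm1 : 1 ≤ m := by omega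
  have hmn : m = p ^ e * u := by rw [← hn]; omega
  have hmQ : (m : ℚ) = (p : ℚ) ^ e * ((u : ℤ) : ℚ) := by
    rw [hmn]
    push_cast
    ring
  have hpu' : ¬ (p : ℤ) ∣ (u : ℤ) := by exact_mod_cast hpu
  set N : Fin v → Fin v → ℚ := fun x i => if x ∈ B i then 1 else 0 with hN
  have S2 : ∀ x y, x ≠ y → ∑ i, N x i * N y i = (lam : ℚ) := by
    intro x y hxy
    have h1 : ∀ i, N x i * N y i = if x ∈ B i ∧ y ∈ B i then 1 else 0 := by
      intro i
      simp only [hN]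
      split_ifs <;> simp_all
    simp only [h1, Finset.sum_boole, h.pair x y hxy]
  have S3 : ∀ x, ∑ i, N x i * N x i = (m : ℚ) + lam := by
    intro x
    have h1 : ∀ i, N x i * N x i = if x ∈ B i then 1 else 0 := by
      intro i
      simp only [hN]
      split_ifs <;> simp
    simp only [h1, Finset.sum_boole]
    have h2 := hrep x
    rw [hm] at h2
    exact_mod_cast h2
  constructor
  · intro h1
    by_contra hsq
    obtain ⟨w, rfl⟩ : ∃ w, v = w + 1 := ⟨v - 1, by omega⟩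
    obtain ⟨z, y, hzy⟩ := brc1 hm1 (by omega) N S2 S3
    refine norm_form_rat hp hsq hpu' he (a := z) (b := y) (c := 1) one_ne_zero ?_
    rw [hzy, hmQ]
    push_cast
    ring
  · intro h1
    by_contra hsq
    obtain ⟨z, y, hzy⟩ := brc3 hm1 (by omega) N S2 S3
    have hz : z ≠ 0 := by
      rintro rfl
      have h2 : (0 : ℚ) ≤ (lam : ℚ) * y ^ 2 := by positivity
      have h3 : (m : ℚ) * 0 ^ 2 = 0 := by ring
      rw [h3] at hzy
      linarith
    refine norm_form_rat hp hsq hpu' he (a := 1) (b := y) (c := z) hz ?_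
    rw [← hmQ, hzy]
    push_cast
    ring

end Pool.Agent.T2H18.PO
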