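import Pool.Agent.T2H18.PO.Gal4
import Pool.Agent.T2H18.PO.Brc

/-!
# The theorem of Bruck, Ryser and Chowla along the values of polynomials
-/

set_option autoImplicit false

namespace Pool.Agent.T2H18.PO

open Filter Topology Polynomial Pool.Agent.H771R2.Dens

/-- `P` is an irreducible factor of `f` over the rationals, of odd multiplicity -/
def OddFactor (f : ℤ[X]) (P : ℚ[X]) : Prop :=
  Irreducible P ∧ ∃ (H : ℚ[X]) (e : ℕ), Odd e ∧ f.map (Int.castRingHom ℚ) = P ^ e * H ∧ ¬ P ∣ H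

theorem factor_of {f : ℤ[X]} {P H : ℚ[X]} {e : ℕ} (hP : Irreducible P)
    (hPH : f.map (Int.castRingHom ℚ) = P ^ e * H) (hnd : ¬ P ∣ H) :
    ∃ (g h : ℤ[X]) (b : ℚ) (c D E : ℤ) (A₁ B₁ A₂ B₂ : ℤ[X]), b ≠ 0 ∧
      g.map (Int.castRingHom ℚ) = C b * P ∧ c ≠ 0 ∧ D ≠ 0 ∧ E ≠ 0 ∧ C c * f = g ^ e * h ∧
      A₁ * g + B₁ * derivative g = C D ∧ A₂ * g + B₂ * h = C E := by
  obtain ⟨b, g, hb, hg⟩ := clear P
  obtain ⟨d, h, hd, hh⟩ := clear H
  have hbQ : (b : ℚ) ≠ 0 := by exact_mod_cast hb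
  have hdQ : (d : ℚ) ≠ 0 := by exact_mod_cast hd
  have hbu : IsUnit (C (b : ℚ)) := Polynomial.isUnit_C.2 hbQ.isUnit
  have hdu : IsUnit (C (d : ℚ)) := Polynomial.isUnit_C.2 hdQ.isUnit
  have c1 : IsCoprime (g.map (Int.castRingHom ℚ)) ((derivative g).map (Int.castRingHom ℚ)) := by
    rw [← Polynomial.derivative_map, hg, derivative_C_mul]
    have h1 : IsCoprime P (derivative P) := hP.separable
    exact (isCoprime_mul_unit_left_left hbu _ _).2 ((isCoprime_mul_unit_left_right hbu _ _).2 h1)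
  have c2 : IsCoprime (g.map (Int.castRingHom ℚ)) (h.map (Int.castRingHom ℚ)) := by
    rw [hg, hh]
    have h1 : IsCoprime P H := (hP.coprime_iff_not_dvd).2 hnd
    exact (isCoprime_mul_unit_left_left hbu _ _).2 ((isCoprime_mul_unit_left_right hdu _ _).2 h1)
  obtain ⟨D, A₁, B₁, hD, h1⟩ := bezout c1
  obtain ⟨E, A₂, B₂, hE, h2⟩ := bezout c2
  refine ⟨g, h, b, b ^ e * d, D, E, A₁, B₁, A₂, B₂, hbQ, hg, mul_ne_zero (pow_ne_zero _ hb) hd, hD,
    hE, ?_, h1, h2⟩
  apply Polynomial.map_injective (Int.castRingHom ℚ) (RingHom.injective_int _)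
  simp only [Polynomial.map_mul, Polynomial.map_pow, map_C, hg, hh, hPH, Int.coe_castRingHom,
    Int.cast_mul, Int.cast_pow, map_mul, map_pow]
  ring

/-- **The density theorem**, one quadratic condition. -/
theorem brc_all {f : ℤ[X]} {P : ℚ[X]} (hP : OddFactor f P) {d : ℤ}
    (hd : ¬ IsSquare ((d : ℤ) : AdjoinRoot P)) (S : ℕ → Prop)
    (hS : ∀ t, S t → ∀ (p e : ℕ) (u : ℤ), p.Prime → Odd e → f.eval (t : ℤ) = (p : ℤ) ^ e * u →
      ¬ (p : ℤ) ∣ u → IsSquare ((d : ℤ) : ZMod p)) :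
    Tendsto (fun N : ℕ => (cnt S N : ℝ) / N) atTop (𝓝 0) ∧ (P.eval 0 ≠ 0 → PZ S) := by
  classical
  obtain ⟨hirr, H, e, he, hPH, hnd⟩ := hP
  obtain ⟨g, h, b, c, D, E, A₁, B₁, A₂, B₂, hb, hg, hc, hD, hE, hfac, hsep, hgh⟩ :=
    factor_of hirr hPH hnd
  have he0 : e ≠ 0 := by
    rintro rfl
    exact (Nat.not_odd_iff_even.2 (by simp)) he
  have hdiv := div_sq hirr hd hb hg
  set B : ℕ := c.natAbs + D.natAbs + E.natAbs + (g.eval 0).natAbs + 2 with hB
  have hdivB := Pool.Agent.TH888.B1.diverges_diff (Set.finite_Iic B) hdiv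
  set R : Set ℕ := NS g d \ Set.Iic B with hR
  have hRB : ∀ r ∈ R, B < r := by
    intro r hr
    have := hr.2
    rw [Set.mem_Iic, not_le] at this
    exact this
  have key : ∀ t, S t → ∀ r ∈ R, ¬ Ex g r t := by
    intro t ht r hr hex
    have h1 := hRB r hr
    obtain ⟨u, hu1, hu2⟩ := val_of_ex hfac hgh hr.1.1 (not_dvd_of_lt hc (by omega))
      (not_dvd_of_lt hE (by omega)) he0 hex
    exact hr.1.2.1 (hS t ht r e u hr.1.1 he hu1 hu2)
  constructor
  · have hbig : Big (fun r => r ∈ R) :=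
      big_of_not_summable hdivB (fun r hr => ⟨hr.1.1, hr⟩)
    refine tendsto_zero' S (fun q => q ∈ R) (fun _ => 0) (fun _ r => r ∈ R) (Ex g) hbig
      (fun _ _ _ => hbig) ?_ ?_
    · rintro q r hr hrR
      obtain ⟨x, hx⟩ := hrR.1.2.2
      refine per_ex hr hx ?_
      intro h1
      have h3 := hRB r hrR
      apply not_dvd_of_lt hD (show D.natAbs < r by omega)
      have h2 := congrArg (Polynomial.eval (x : ℤ)) hsep
      simp only [eval_add, eval_mul, eval_C] at h2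
      rw [← h2]
      exact dvd_add (Dvd.dvd.mul_left hx _) (Dvd.dvd.mul_left h1 _)
    · intro t ht q _ _ _ r _ hrR hex
      exact key t ht r hrR hex
  · intro hP0
    have hg0 : g.eval 0 ≠ 0 := by
      intro h0
      have h1 : (g.map (Int.castRingHom ℚ)).eval ((0 : ℤ) : ℚ) = ((g.eval 0 : ℤ) : ℚ) := by
        rw [Polynomial.eval_intCast_map]
        rfl
      rw [hg, h0, Int.cast_zero, eval_mul, eval_C] at h1
      exact mul_ne_zero hb hP0 h1
    have hrg : ∀ r : ℕ, ∃ x : ZMod r, (∃ b : ℕ, (r : ℤ) ∣ g.eval (b : ℤ)) →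
        (g.map (Int.castRingHom (ZMod r))).eval x = 0 := by
      intro r
      by_cases hr : ∃ b : ℕ, (r : ℤ) ∣ g.eval (b : ℤ)
      · obtain ⟨b, hb⟩ := hr
        refine ⟨(b : ZMod r), fun _ => ?_⟩
        rw [← ZMod.intCast_zmod_eq_zero_iff_dvd] at hb
        have h8 : ((g.eval (b : ℤ) : ℤ) : ZMod r) =
            (g.map (Int.castRingHom (ZMod r))).eval (((b : ℕ) : ℤ) : ZMod r) := by
          rw [Polynomial.eval_intCast_map]
          rfl
        rw [h8] at hb
        push_cast at hb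
        exact hb
      · exact ⟨0, fun h' => absurd h' hr⟩
    choose x hx using hrg
    refine PZ.mono (fun t _ ht => key t ht) (PZ.exact g R ?_ hdivB x ?_ ?_ ?_)
    · intro r hr
      exact ⟨hr.1.1, by have := hRB r hr; omega⟩
    · intro r hr h0
      have h1 := hx r hr.1.2.2
      rw [h0] at h1
      have h2 : (r : ℤ) ∣ g.eval ((0 : ℕ) : ℤ) := dvd_of_class h1 (by simp)
      have h3 := hRB r hr
      exact not_dvd_of_lt hg0 (by omega : (g.eval 0).natAbs < r) (by simpa using h2)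
    · intro r hr
      exact hx r hr.1.2.2
    · intro r hr h0
      have h3 := hRB r hr
      apply not_dvd_of_lt hD (by omega : D.natAbs < r)
      have h1 := congrArg (fun P => (P.map (Int.castRingHom (ZMod r))).eval (x r)) hsep
      simp only [Polynomial.map_add, Polynomial.map_mul, map_C, eval_add, eval_mul, eval_C] at h1
      rw [hx r hr.1.2.2, h0, mul_zero, mul_zero, add_zero] at h1
      rw [← ZMod.intCast_zmod_eq_zero_iff_dvd]
      exact h1.symm

/-- a positive value which passes the test is not a square -/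
lemma not_sq_of_test {f F : ℤ[X]} {K t : ℕ} (h : Test f F K t) {n : ℕ} (hn : f.eval (t : ℤ) = n) :
    ¬ IsSquare n := by
  obtain ⟨q, p, e, u, hq, hKq, hqF, hp, he, hpe, hpu, j, hj⟩ := h
  have hu0 : 0 ≤ u := by
    by_contra hcon
    push Not at hcon
    have h1 : (0 : ℤ) < (p : ℤ) ^ e := by
      have := hp.pos
      positivity
    rw [hn] at hpe
    nlinarith
  obtain ⟨w, rfl⟩ := Int.eq_ofNat_of_zero_le hu0
  refine not_sq_of_odd hp he (u := w) ?_ (by exact_mod_cast hpu)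
  rw [hn] at hpe
  exact_mod_cast hpe

/-- the values are squares for almost no `t` -/
theorem sq_all {f : ℤ[X]} (hf0 : f ≠ 0) (hns : ¬ IsSq f) (S : ℕ → Prop)
    (hS : ∀ t, S t → ∃ n : ℕ, f.eval (t : ℤ) = n ∧ n ≠ 0 ∧ IsSquare n) :
    Tendsto (fun N : ℕ => (cnt S N : ℝ) / N) atTop (𝓝 0) ∧ PZ S := by
  set F : ℤ[X] := X - C 2 with hF
  have hdeg : 0 < F.natDegree := by
    rw [hF, natDegree_X_sub_C]
    exact one_pos
  have key : ∀ t, S t → 0 < f.eval (t : ℤ) ∧ ¬ Test f F 0 t := by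
    intro t ht
    obtain ⟨n, hn, hn0, hsq⟩ := hS t ht
    exact ⟨by rw [hn]; omega, fun h => not_sq_of_test h hn hsq⟩
  constructor
  · refine squeeze_zero (fun N => by positivity) (fun N => ?_) (dens_main hf0 hns hdeg 0)
    apply div_le_div_of_nonneg_right _ (Nat.cast_nonneg _)
    exact_mod_cast cnt_mono key N
  · refine PZ.mono (fun t _ ht => key t ht) (prime_final hf0 hns hdeg ?_ (fun _ => ?_) 0)
    · rw [hF]
      simp
    · refine ⟨2, ?_, fun n hn h => ?_⟩
      · rw [hF, map_sub, aeval_X, aeval_C]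
        simp
      · have h1 : ((2 ^ n : ℕ) : AlgebraicClosure ℚ) = ((1 : ℕ) : AlgebraicClosure ℚ) := by
          push_cast
          exact h
        have h2 : (2 ^ n : ℕ) = 1 := by exact_mod_cast h1
        have h3 : 2 ^ 0 < 2 ^ n := Nat.pow_lt_pow_right (by norm_num) hn
        omega

/-- **BRC along the values of a polynomial.** -/
theorem brc_main {f : ℤ[X]} (hf0 : f ≠ 0) (hns : ¬ IsSq f) {lam : ℕ} (hlam : 1 ≤ lam) (r : ℕ)
    (hr : r < 4) (S : ℕ → Prop)
    (hS : ∀ t, S t → ∃ n : ℕ, f.eval (t : ℤ) = n ∧ ∃ (v : ℕ) (B : Fin v → Finset (Fin v)),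
      Pool.Agent.R116.Hall.SD v (n + lam) lam B ∧ v % 4 = r) :
    (((r = 1 → ∃ P, OddFactor f P ∧ ¬ IsSquare (((lam : ℤ) : ℤ) : AdjoinRoot P)) →
      (r = 3 → ∃ P, OddFactor f P ∧ ¬ IsSquare (((-(lam : ℤ)) : ℤ) : AdjoinRoot P)) →
      Tendsto (fun N : ℕ => (cnt S N : ℝ) / N) atTop (𝓝 0))) ∧
    (((r = 1 → ∃ P, OddFactor f P ∧ P.eval 0 ≠ 0 ∧ ¬ IsSquare (((lam : ℤ) : ℤ) : AdjoinRoot P)) →
      (r = 3 → ∃ P, OddFactor f P ∧ P.eval 0 ≠ 0 ∧
        ¬ IsSquare (((-(lam : ℤ)) : ℤ) : AdjoinRoot P)) → PZ S)) := by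
  have hpos : ∀ t, S t → ∀ n : ℕ, f.eval (t : ℤ) = n → n ≠ 0 := by
    intro t ht n hn
    obtain ⟨m, hm, v, B, hd, -⟩ := hS t ht
    have hmn : m = n := by
      rw [hn] at hm
      exact_mod_cast hm.symm
    obtain ⟨hlk, -, -⟩ := Pool.Agent.H951R4.OD.design_facts (Pool.Agent.R116.Hall.two_le_v hd) hlam
      hd.lt hd.size hd.pair
    omega
  have hodd : ∀ t, S t → ∀ (p e : ℕ) (u : ℤ), p.Prime → Odd e →
      f.eval (t : ℤ) = (p : ℤ) ^ e * u → ¬ (p : ℤ) ∣ u →
        (r = 1 → IsSquare (((lam : ℤ) : ℤ) : ZMod p)) ∧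
        (r = 3 → IsSquare (((-(lam : ℤ)) : ℤ) : ZMod p)) := by
    intro t ht p e u hp he hpe hpu
    obtain ⟨n, hn, v, B, hd, hvr⟩ := hS t ht
    have hu0 : 0 ≤ u := by
      by_contra hcon
      push Not at hcon
      have h1 : (0 : ℤ) < (p : ℤ) ^ e := by
        have := hp.pos
        positivity
      rw [hn] at hpe
      nlinarith
    obtain ⟨w, rfl⟩ := Int.eq_ofNat_of_zero_le hu0
    have hnw : n = p ^ e * w := by
      rw [hn] at hpe
      exact_mod_cast hpe
    have h2 := brc_odd hd hlam hp he (u := w) (by rw [← hnw]; omega) (by exact_mod_cast hpu)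
    exact ⟨fun h => h2.1 (by omega), fun h => h2.2 (by omega)⟩
  by_cases h13 : r = 1 ∨ r = 3
  · rcases h13 with h1 | h3
    · constructor
      · intro hA _
        obtain ⟨P, hP, hd⟩ := hA h1
        exact (brc_all hP hd S (fun t ht p e u hp he h2 h4 =>
          (hodd t ht p e u hp he h2 h4).1 h1)).1
      · intro hA _
        obtain ⟨P, hP, hP0, hd⟩ := hA h1
        exact (brc_all hP hd S (fun t ht p e u hp he h2 h4 =>
          (hodd t ht p e u hp he h2 h4).1 h1)).2 hP0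
    · constructor
      · intro _ hA
        obtain ⟨P, hP, hd⟩ := hA h3
        exact (brc_all hP hd S (fun t ht p e u hp he h2 h4 =>
          (hodd t ht p e u hp he h2 h4).2 h3)).1
      · intro _ hA
        obtain ⟨P, hP, hP0, hd⟩ := hA h3
        exact (brc_all hP hd S (fun t ht p e u hp he h2 h4 =>
          (hodd t ht p e u hp he h2 h4).2 h3)).2 hP0
  · have hsq : ∀ t, S t → ∃ n : ℕ, f.eval (t : ℤ) = n ∧ n ≠ 0 ∧ IsSquare n := by
      intro t ht
      obtain ⟨n, hn, v, B, hd, hvr⟩ := hS t ht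
      refine ⟨n, hn, hpos t ht n hn, ?_⟩
      have h1 := Pool.Agent.H634R3.WG.Lam.schutz_design (Pool.Agent.R116.Hall.two_le_v hd) hlam
        hd.lt hd.size hd.pair (by rw [Nat.even_iff]; omega)
      rwa [Nat.add_sub_cancel] at h1
    obtain ⟨h1, h2⟩ := sq_all hf0 hns S hsq
    exact ⟨fun _ _ => h1, fun _ _ => h2⟩

/-! ## odd degree -/

lemma odd_deg_factor (n : ℕ) : ∀ F : ℚ[X], F ≠ 0 → F.natDegree ≤ n → Odd F.natDegree →
    ∃ (P H : ℚ[X]) (e : ℕ), Irreducible P ∧ Odd P.natDegree ∧ Odd e ∧ F = P ^ e * H ∧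
      ¬ P ∣ H := by
  induction n using Nat.strong_induction_on with
  | _ n ih =>
    intro F hF hn hodd
    have hu : ¬ IsUnit F := by
      intro hu
      rw [natDegree_eq_zero_of_isUnit hu] at hodd
      exact (Nat.not_odd_iff_even.2 (by simp)) hodd
    obtain ⟨P, hP, hPF⟩ := WfDvdMonoid.exists_irreducible_factor hu hF
    obtain ⟨e, H, hPH, hFe⟩ := WfDvdMonoid.max_power_factor hF hP
    have he : e ≠ 0 := by
      rintro rfl
      rw [pow_zero, one_mul] at hFe
      exact hPH (hFe ▸ hPF)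
    have hH0 : H ≠ 0 := by
      rintro rfl
      exact hF (by rw [hFe, mul_zero])
    have hPd : 0 < P.natDegree := hP.natDegree_pos
    have hdeg : F.natDegree = e * P.natDegree + H.natDegree := by
      rw [hFe, natDegree_mul (pow_ne_zero _ hP.ne_zero) hH0, natDegree_pow]
    by_cases hgood : Odd (e * P.natDegree)
    · rw [Nat.odd_mul] at hgood
      exact ⟨P, H, e, hP, hgood.2, hgood.1, hFe, hPH⟩
    · have hlt : H.natDegree < n := by
        have h1 : 0 < e * P.natDegree := Nat.mul_pos (Nat.pos_of_ne_zero he) hPd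
        omega
      have hHodd : Odd H.natDegree := by
        rw [Nat.not_odd_iff_even] at hgood
        rw [hdeg, Nat.odd_add'] at hodd
        exact hodd.2 hgood
      obtain ⟨P', H', e', h1, h1', h2, h3, h4⟩ := ih H.natDegree hlt H hH0 le_rfl hHodd
      have he' : e' ≠ 0 := by
        rintro rfl
        exact (Nat.not_odd_iff_even.2 (by simp)) h2
      refine ⟨P', P ^ e * H', e', h1, h1', h2, ?_, ?_⟩
      · rw [hFe, h3]
        ring
      · intro h5
        rcases h1.prime.dvd_or_dvd h5 with h6 | h6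
        · have h7 : P' ∣ P := h1.prime.dvd_of_dvd_pow h6
          have h8 : Associated P' P := h1.associated_of_dvd hP h7
          apply hPH
          rw [h3]
          exact (h8.symm.dvd.trans (dvd_pow_self P' he')).mul_right _
        · exact h4 h6

lemma nonsq_odd {P : ℚ[X]} (hP : Irreducible P) (hodd : Odd P.natDegree) {d : ℤ}
    (hd : ¬ IsSquare d) : ¬ IsSquare ((d : ℤ) : AdjoinRoot P) := by
  rintro ⟨x, hx⟩
  have hF : Fact (Irreducible P) := ⟨hP⟩
  have hd0 : (d : ℚ) ≠ 0 := by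
    have : d ≠ 0 := by
      rintro rfl
      exact hd ⟨0, by simp⟩
    exact_mod_cast this
  have hfr : Module.finrank ℚ (AdjoinRoot P) = P.natDegree := by
    have h1 := (AdjoinRoot.powerBasis hP.ne_zero).finrank
    rw [h1, AdjoinRoot.powerBasis_dim]
  have h1 := congrArg (Algebra.norm ℚ) hx
  have h2 : ((d : ℤ) : AdjoinRoot P) = algebraMap ℚ (AdjoinRoot P) (d : ℚ) := by
    rw [map_intCast]
  rw [h2, Algebra.norm_algebraMap, hfr, map_mul] at h1
  obtain ⟨m, hm⟩ := hodd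
  have h3 : IsSquare (d : ℚ) := by
    refine ⟨Algebra.norm ℚ x / (d : ℚ) ^ m, ?_⟩
    rw [div_mul_div_comm, ← h1, hm, eq_div_iff (by positivity)]
    ring
  rw [Rat.isSquare_intCast_iff] at h3
  exact hd h3

theorem odd_factor_of_degree {f : ℤ[X]} (hodd : Odd f.natDegree) :
    ∃ P, OddFactor f P ∧ (f.eval 0 ≠ 0 → P.eval 0 ≠ 0) ∧
      ∀ d : ℤ, ¬ IsSquare d → ¬ IsSquare ((d : ℤ) : AdjoinRoot P) := by
  have hinj : Function.Injective (Int.castRingHom ℚ) := RingHom.injective_int _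
  have hf0 : f ≠ 0 := by
    rintro rfl
    rw [natDegree_zero] at hodd
    exact (Nat.not_odd_iff_even.2 (by simp)) hodd
  have hF0 : f.map (Int.castRingHom ℚ) ≠ 0 := by
    rwa [Ne, Polynomial.map_eq_zero_iff hinj]
  have hdeg : (f.map (Int.castRingHom ℚ)).natDegree = f.natDegree :=
    natDegree_map_eq_of_injective hinj f
  obtain ⟨P, H, e, h1, h2, h3, h4, h5⟩ := odd_deg_factor _ _ hF0 le_rfl (by rw [hdeg]; exact hodd)
  refine ⟨P, ⟨h1, H, e, h3, h4, h5⟩, fun hf hP => ?_, fun d hd => nonsq_odd h1 h2 hd⟩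
  have he0 : e ≠ 0 := by
    rintro rfl
    exact (Nat.not_odd_iff_even.2 (by simp)) h3
  apply hf
  have h6 : (f.map (Int.castRingHom ℚ)).eval ((0 : ℤ) : ℚ) = ((f.eval 0 : ℤ) : ℚ) := by
    rw [Polynomial.eval_intCast_map]
    rfl
  rw [h4, Int.cast_zero, eval_mul, eval_pow, hP, zero_pow he0, zero_mul] at h6
  exact_mod_cast h6.symm

lemma not_isSq_of_odd {f : ℤ[X]} (hodd : Odd f.natDegree) : ¬ IsSq f := by
  rintro ⟨g, hg⟩
  have hinj : Function.Injective (Int.castRingHom ℚ) := RingHom.injective_int _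
  have hdeg : (f.map (Int.castRingHom ℚ)).natDegree = f.natDegree :=
    natDegree_map_eq_of_injective hinj f
  rw [hg, natDegree_pow] at hdeg
  rw [← hdeg] at hodd
  exact (Nat.not_odd_iff_even.2 (by simp)) hodd

end Pool.Agent.T2H18.PO
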