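import Mathlib

/-!
# Factorisation of integer polynomials: an irreducible factor of odd multiplicity
-/

set_option autoImplicit false

namespace Pool.Agent.T2H18.PO

open Polynomial

/-- `f` is a constant times a square over the rationals -/
def ConstSq (f : ℤ[X]) : Prop := ∃ (c : ℚ) (g : ℚ[X]), f.map (Int.castRingHom ℚ) = C c * g ^ 2

lemma odd_factor (n : ℕ) : ∀ F : ℚ[X], F ≠ 0 → F.natDegree ≤ n →
    (∃ (c : ℚ) (g : ℚ[X]), F = C c * g ^ 2) ∨
    ∃ (P H : ℚ[X]) (e : ℕ), Irreducible P ∧ Odd e ∧ F = P ^ e * H ∧ ¬ P ∣ H := by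
  induction n using Nat.strong_induction_on with
  | _ n ih =>
    intro F hF hn
    by_cases hu : IsUnit F
    · obtain ⟨c, -, hc⟩ := Polynomial.isUnit_iff.1 hu
      exact Or.inl ⟨c, 1, by rw [one_pow, mul_one, hc]⟩
    obtain ⟨P, hP, hPF⟩ := WfDvdMonoid.exists_irreducible_factor hu hF
    obtain ⟨e, H, hPH, hFe⟩ := WfDvdMonoid.max_power_factor hF hP
    have he : e ≠ 0 := by
      rintro rfl
      rw [pow_zero, one_mul] at hFe
      exact hPH (hFe ▸ hPF)
    rcases Nat.even_or_odd e with hev | hodd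
    · have hH0 : H ≠ 0 := by
        rintro rfl
        exact hF (by rw [hFe, mul_zero])
      have hPd : 0 < P.natDegree := hP.natDegree_pos
      have hdeg : F.natDegree = e * P.natDegree + H.natDegree := by
        rw [hFe, natDegree_mul (pow_ne_zero _ hP.ne_zero) hH0, natDegree_pow]
      have hlt : H.natDegree < n := by
        have h1 : 0 < e * P.natDegree := Nat.mul_pos (Nat.pos_of_ne_zero he) hPd
        omega
      obtain ⟨d, hd⟩ := hev
      rcases ih H.natDegree hlt H hH0 le_rfl with ⟨c, g, hg⟩ | ⟨P', H', e', h1, h2, h3, h4⟩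
      · left
        refine ⟨c, P ^ d * g, ?_⟩
        rw [hFe, hg, hd]
        ring
      · right
        have he' : e' ≠ 0 := by
          rintro rfl
          exact (Nat.not_odd_iff_even.2 (by simp)) h2
        refine ⟨P', P ^ e * H', e', h1, h2, ?_, ?_⟩
        · rw [hFe, h3]
          ring
        · intro h5
          rcases h1.prime.dvd_or_dvd h5 with h6 | h6
          · have h7 : P' ∣ P := h1.prime.dvd_of_dvd_pow h6
            have h8 : Associated P' P := h1.associated_of_dvd hP h7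
            apply hPH
            rw [h3]
            exact (h8.symm.dvd.trans (dvd_pow_self P' he')).mul_right _
          · exact h4 h6
    · exact Or.inr ⟨P, H, e, hP, hodd, hFe, hPH⟩

/-- clearing denominators -/
lemma clear (P : ℚ[X]) : ∃ (b : ℤ) (p : ℤ[X]), b ≠ 0 ∧ p.map (Int.castRingHom ℚ) = C (b : ℚ) * P := by
  obtain ⟨b, hb⟩ := IsLocalization.integerNormalization_map_to_map (nonZeroDivisors ℤ) P
  refine ⟨b, IsLocalization.integerNormalization (nonZeroDivisors ℤ) P,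
    nonZeroDivisors.ne_zero b.2, ?_⟩
  have h1 : (algebraMap ℤ ℚ) = Int.castRingHom ℚ := rfl
  rw [h1] at hb
  rw [hb]
  ext n
  simp [Algebra.smul_def]

lemma bezout {u w : ℤ[X]} (h : IsCoprime (u.map (Int.castRingHom ℚ)) (w.map (Int.castRingHom ℚ))) :
    ∃ (D : ℤ) (a b : ℤ[X]), D ≠ 0 ∧ a * u + b * w = C D := by
  obtain ⟨A, B, hAB⟩ := h
  obtain ⟨c, a, hc, ha⟩ := clear A
  obtain ⟨d, b, hd, hb⟩ := clear B
  refine ⟨c * d, C d * a, C c * b, mul_ne_zero hc hd, ?_⟩
  apply Polynomial.map_injective (Int.castRingHom ℚ) (RingHom.injective_int _)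
  simp only [Polynomial.map_add, Polynomial.map_mul, map_C, ha, hb, Int.coe_castRingHom,
    Int.cast_mul, map_mul]
  linear_combination (C (c : ℚ) * C (d : ℚ)) * hAB

/-- **The factor.** -/
theorem factor {f : ℤ[X]} (hf : f ≠ 0) (hns : ¬ ConstSq f) :
    ∃ (g h : ℤ[X]) (c D E : ℤ) (e : ℕ) (A₁ B₁ A₂ B₂ : ℤ[X]), c ≠ 0 ∧ D ≠ 0 ∧ E ≠ 0 ∧ Odd e ∧
      0 < g.natDegree ∧ C c * f = g ^ e * h ∧ A₁ * g + B₁ * derivative g = C D ∧
      A₂ * g + B₂ * h = C E := by
  have hF : f.map (Int.castRingHom ℚ) ≠ 0 := by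
    rwa [Ne, Polynomial.map_eq_zero_iff (RingHom.injective_int _)]
  rcases odd_factor _ _ hF le_rfl with ⟨c, g, hg⟩ | ⟨P, H, e, hP, he, hPH, hnd⟩
  · exact absurd ⟨c, g, hg⟩ hns
  obtain ⟨b, g, hb, hg⟩ := clear P
  obtain ⟨d, h, hd, hh⟩ := clear H
  have hbQ : (b : ℚ) ≠ 0 := by exact_mod_cast hb
  have hdQ : (d : ℚ) ≠ 0 := by exact_mod_cast hd
  have hbu : IsUnit (C (b : ℚ)) := Polynomial.isUnit_C.2 hbQ.isUnit
  have hdu : IsUnit (C (d : ℚ)) := Polynomial.isUnit_C.2 hdQ.isUnit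
  have c1 : IsCoprime (g.map (Int.castRingHom ℚ)) ((derivative g).map (Int.castRingHom ℚ)) := by
    rw [← Polynomial.derivative_map, hg, derivative_C_mul]
    have h1 : IsCoprime P (derivative P) := hP.separable
    exact (isCoprime_mul_unit_left_left hbu _ _).2 ((isCoprime_mul_unit_left_right hbu _ _).2 h1)
  have c2 : IsCoprime (g.map (Int.castRingHom ℚ)) (h.map (Int.castRingHom ℚ)) := by
    rw [hg, hh]
    have h1 : IsCoprime P H := (hP.coprime_iff_not_dvd).2 hnd
    exact (isCoprime_mul_unit_left_left hbu _ _).2 ((isCoprime_mul_unit_left_right hdu _ _).2 h1)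
  obtain ⟨D, A₁, B₁, hD, h1⟩ := bezout c1
  obtain ⟨E, A₂, B₂, hE, h2⟩ := bezout c2
  refine ⟨g, h, b ^ e * d, D, E, e, A₁, B₁, A₂, B₂, mul_ne_zero (pow_ne_zero _ hb) hd, hD, hE, he,
    ?_, ?_, h1, h2⟩
  · have h3 : (g.map (Int.castRingHom ℚ)).natDegree = g.natDegree :=
      natDegree_map_eq_of_injective (RingHom.injective_int _) g
    rw [← h3, hg, natDegree_C_mul hbQ]
    exact hP.natDegree_pos
  · apply Polynomial.map_injective (Int.castRingHom ℚ) (RingHom.injective_int _)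
    simp only [Polynomial.map_mul, Polynomial.map_pow, map_C, hg, hh, hPH, Int.coe_castRingHom,
      Int.cast_mul, Int.cast_pow, map_mul, map_pow]
    ring

end Pool.Agent.T2H18.PO
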