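import Pool.Agent.H771R2.Dens
import Pool.Agent.T2H18.PO.Fac

/-!
# Local densities and the density theorem for polynomials
-/

set_option autoImplicit false

namespace Pool.Agent.T2H18.PO

open Filter Topology Finset Classical Pool.Agent.H771R2.Dens Polynomial

/-- `r` divides `g(t)` exactly once -/
def Ex (g : ℤ[X]) (r t : ℕ) : Prop := (r : ℤ) ∣ g.eval (t : ℤ) ∧ ¬ ((r : ℤ) ^ 2 ∣ g.eval (t : ℤ))

lemma eval_tay (g : ℤ[X]) (x y : ℤ) :
    ∃ k : ℤ, g.eval (x + y) = g.eval x + (derivative g).eval x * y + k * y ^ 2 := by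
  obtain ⟨k, hk⟩ := Polynomial.binomExpansion g x y
  exact ⟨k, hk⟩

lemma eval_mod (g : ℤ[X]) {m : ℤ} {x y : ℤ} (h : m ∣ x - y) : m ∣ g.eval x - g.eval y :=
  h.trans (Polynomial.sub_dvd_eval_sub x y g)

lemma ex_per (g : ℤ[X]) (r t : ℕ) : Ex g r (t + r ^ 2) ↔ Ex g r t := by
  have h1 : ((r : ℤ) ^ 2) ∣ ((t + r ^ 2 : ℕ) : ℤ) - t := ⟨1, by push_cast; ring⟩
  have h2 := eval_mod g h1
  have h3 : (r : ℤ) ∣ g.eval ((t + r ^ 2 : ℕ) : ℤ) - g.eval (t : ℤ) :=
    (dvd_pow_self (r : ℤ) two_ne_zero).trans h2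
  unfold Ex
  have h4 : g.eval ((t + r ^ 2 : ℕ) : ℤ) =
    (g.eval ((t + r ^ 2 : ℕ) : ℤ) - g.eval (t : ℤ)) + g.eval (t : ℤ) := by ring
  rw [h4, Int.dvd_add_right h3, Int.dvd_add_right h2]

/-- at most one lift is bad -/
lemma lift_unique {g : ℤ[X]} {r : ℕ} (hr : r.Prime) {b i j : ℕ}
    (hb' : ¬ (r : ℤ) ∣ (derivative g).eval (b : ℤ)) (hi : i < r) (hj : j < r)
    (hi2 : (r : ℤ) ^ 2 ∣ g.eval ((b + r * i : ℕ) : ℤ))
    (hj2 : (r : ℤ) ^ 2 ∣ g.eval ((b + r * j : ℕ) : ℤ)) : i = j := by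
  have hr0 : 0 < r := hr.pos
  have hrp : Prime (r : ℤ) := Nat.prime_iff_prime_int.1 hr
  obtain ⟨k, hk⟩ := eval_tay g (b : ℤ) (r * i)
  obtain ⟨l, hl⟩ := eval_tay g (b : ℤ) (r * j)
  have ei : ((b + r * i : ℕ) : ℤ) = (b : ℤ) + r * i := by push_cast; ring
  have ej : ((b + r * j : ℕ) : ℤ) = (b : ℤ) + r * j := by push_cast; ring
  rw [ei, hk] at hi2
  rw [ej, hl] at hj2
  have h4 := dvd_sub hi2 hj2
  have h5 : (r : ℤ) * r ∣ (r : ℤ) * ((derivative g).eval (b : ℤ) * ((i : ℤ) - j)) := by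
    have h6 : (r : ℤ) * ((derivative g).eval (b : ℤ) * ((i : ℤ) - j)) =
        (eval (b : ℤ) g + eval (b : ℤ) (derivative g) * (r * i) + k * (r * i) ^ 2 -
          (eval (b : ℤ) g + eval (b : ℤ) (derivative g) * (r * j) + l * (r * j) ^ 2)) -
          (r : ℤ) ^ 2 * (k * i ^ 2 - l * j ^ 2) := by ring
    rw [h6, ← sq]
    exact dvd_sub h4 (dvd_mul_right _ _)
  have h7 : (r : ℤ) ∣ (derivative g).eval (b : ℤ) * ((i : ℤ) - j) :=
    (mul_dvd_mul_iff_left (by exact_mod_cast hr0.ne')).1 h5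
  rcases hrp.dvd_or_dvd h7 with h8 | h8
  · exact absurd h8 hb'
  · by_contra hij
    have h9 : (i : ℤ) - j ≠ 0 := by
      intro h
      apply hij
      have : (i : ℤ) = j := by linarith
      exact_mod_cast this
    have h10 := Int.le_of_dvd (abs_pos.2 h9) ((dvd_abs _ _).2 h8)
    have h11 : |(i : ℤ) - j| < r := by
      rw [abs_lt]
      constructor <;> omega
    omega

/-- the density of the `t` for which `r` divides `g(t)` exactly once -/
theorem per_ex {g : ℤ[X]} {r : ℕ} (hr : r.Prime) {a : ℕ} (ha : (r : ℤ) ∣ g.eval (a : ℤ))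
    (ha' : ¬ (r : ℤ) ∣ (derivative g).eval (a : ℤ)) :
    Per (fun t => ¬ Ex g r t) (r ^ 2) (Real.exp (-(1 / (2 * (r : ℝ))))) := by
  have hr0 : 0 < r := hr.pos
  have hrp : Prime (r : ℤ) := Nat.prime_iff_prime_int.1 hr
  refine ⟨by positivity, fun t => not_congr (ex_per g r t), ?_⟩
  -- we may take `a < r`
  obtain ⟨b, hb, hbr, hb', hb''⟩ : ∃ b : ℕ, b < r ∧ (r : ℤ) ∣ g.eval (b : ℤ) ∧
      ¬ (r : ℤ) ∣ (derivative g).eval (b : ℤ) ∧ True := by
    have h0 : (r : ℤ) ∣ (a : ℤ) - ((a % r : ℕ) : ℤ) := by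
      rw [Int.natCast_mod]
      exact Int.dvd_self_sub_emod
    refine ⟨a % r, Nat.mod_lt _ hr0, ?_, ?_, trivial⟩
    · have h1 := eval_mod g h0
      have h3 : g.eval ((a % r : ℕ) : ℤ) =
        g.eval (a : ℤ) - (g.eval (a : ℤ) - g.eval ((a % r : ℕ) : ℤ)) := by ring
      rw [h3]
      exact dvd_sub ha h1
    · intro h2
      have h1 := eval_mod (derivative g) h0
      apply ha'
      have h3 : (derivative g).eval (a : ℤ) = ((derivative g).eval (a : ℤ) -
        (derivative g).eval ((a % r : ℕ) : ℤ)) + (derivative g).eval ((a % r : ℕ) : ℤ) := by ring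
      rw [h3]
      exact dvd_add h1 h2
  -- at most one of the lifts is bad
  set T : Finset ℕ := (range r).filter fun i => Ex g r (b + r * i) with hT
  have hall : ∀ i : ℕ, (r : ℤ) ∣ g.eval ((b + r * i : ℕ) : ℤ) := by
    intro i
    have h0 : (r : ℤ) ∣ ((b + r * i : ℕ) : ℤ) - (b : ℤ) := ⟨i, by push_cast; ring⟩
    have h1 := eval_mod g h0
    have h3 : g.eval ((b + r * i : ℕ) : ℤ) =
      (g.eval ((b + r * i : ℕ) : ℤ) - g.eval (b : ℤ)) + g.eval (b : ℤ) := by ring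
    rw [h3]
    exact dvd_add h1 hbr
  have hone : ((range r).filter fun i => ¬ Ex g r (b + r * i)).card ≤ 1 := by
    rw [Finset.card_le_one]
    intro i hi j hj
    rw [mem_filter, mem_range] at hi hj
    have hi2 : (r : ℤ) ^ 2 ∣ g.eval ((b + r * i : ℕ) : ℤ) := by
      by_contra hcon
      exact hi.2 ⟨hall i, hcon⟩
    have hj2 : (r : ℤ) ^ 2 ∣ g.eval ((b + r * j : ℕ) : ℤ) := by
      by_contra hcon
      exact hj.2 ⟨hall j, hcon⟩
    exact lift_unique hr hb' hi.1 hj.1 hi2 hj2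
  have hTc : r - 1 ≤ T.card := by
    have h1 : T.card + ((range r).filter fun i => ¬ Ex g r (b + r * i)).card = r := by
      rw [hT]
      conv_rhs => rw [← card_range r]
      convert Finset.card_filter_add_card_filter_not (s := range r) (fun i => Ex g r (b + r * i))
    omega
  have himg : (T.image fun i => b + r * i) ⊆ range (r ^ 2) := by
    intro n hn
    rw [mem_image] at hn
    obtain ⟨i, hi, rfl⟩ := hn
    rw [hT, mem_filter, mem_range] at hi
    rw [mem_range, sq]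
    have : r * (i + 1) ≤ r * r := Nat.mul_le_mul_left _ hi.1
    nlinarith
  have h1 : cnt (fun t => ¬ Ex g r t) (r ^ 2) + (r - 1) ≤ r ^ 2 := by
    have h3 : cnt (fun t => ¬ Ex g r t) (r ^ 2) ≤
        ((range (r ^ 2)) \ (T.image fun i => b + r * i)).card := by
      apply cnt_le_card
      intro n hn hn'
      rw [Finset.mem_sdiff, mem_range]
      refine ⟨hn, fun h => hn' ?_⟩
      rw [mem_image] at h
      obtain ⟨i, hi, rfl⟩ := h
      rw [hT, mem_filter] at hi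
      exact hi.2
    rw [card_sdiff_of_subset himg, card_image_of_injective _ (fun i j h => by
      have : r * i = r * j := by simpa using h
      exact Nat.eq_of_mul_eq_mul_left hr0 this), card_range] at h3
    have h5 : T.card ≤ r ^ 2 := by
      have := Finset.card_le_card himg
      rw [card_image_of_injective _ (fun i j h => by
        have : r * i = r * j := by simpa using h
        exact Nat.eq_of_mul_eq_mul_left hr0 this), card_range] at this
      exact this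
    omega
  have hr2 : (2 : ℝ) ≤ r := by exact_mod_cast hr.two_le
  have h2 : (cnt (fun t => ¬ Ex g r t) (r ^ 2) : ℝ) + (r - 1) ≤ (r : ℝ) ^ 2 := by
    have h := (Nat.cast_le (α := ℝ)).2 h1
    push_cast [Nat.cast_sub hr.one_lt.le] at h
    exact h
  have hr' : (0 : ℝ) < r := by linarith
  have h3 := Real.add_one_le_exp (-(1 / (2 * (r : ℝ))))
  have h4 : (r : ℝ) ^ 2 - (r - 1) ≤ (-(1 / (2 * (r : ℝ))) + 1) * (r : ℝ) ^ 2 := by
    have : (-(1 / (2 * (r : ℝ))) + 1) * (r : ℝ) ^ 2 = r ^ 2 - r / 2 := by field_simp; ring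
    rw [this]
    linarith
  calc (cnt (fun t => ¬ Ex g r t) (r ^ 2) : ℝ) ≤ (r : ℝ) ^ 2 - (r - 1) := by linarith
    _ ≤ (-(1 / (2 * (r : ℝ))) + 1) * (r : ℝ) ^ 2 := h4
    _ ≤ Real.exp (-(1 / (2 * (r : ℝ)))) * (r : ℝ) ^ 2 := mul_le_mul_of_nonneg_right h3 (by positivity)
    _ = _ := by push_cast; ring

/-- the density theorem, general events -/
theorem tendsto_zero' (S : ℕ → Prop) (Q : ℕ → Prop) (c : ℕ → ℕ) (R : ℕ → ℕ → Prop)
    (E : ℕ → ℕ → Prop) (hQ : Big Q) (hR : ∀ q, q.Prime → Q q → Big (R q))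
    (hE : ∀ q r, r.Prime → R q r → Per (fun t => ¬ E r t) (r ^ 2) (Real.exp (-(1 / (2 * (r : ℝ))))))
    (hS : ∀ n, S n → ∀ q, q.Prime → Q q → n % q = c q % q → ∀ r, r.Prime → R q r → E r n →
      False) :
    Tendsto (fun N : ℕ => (cnt S N : ℝ) / N) atTop (𝓝 0) := by
  rw [Metric.tendsto_atTop]
  intro ε hε
  obtain ⟨F, hF, hFε⟩ := exists_exp_small hQ (ε := ε / 4) (by positivity)
  have hcardF : (0 : ℝ) < (F.card : ℝ) + 1 := by positivity
  have h1 : ∀ q ∈ F, ∃ P : Finset ℕ, (∀ r ∈ P, r.Prime ∧ R q r) ∧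
      Real.exp (-(∑ r ∈ P, 1 / (r : ℝ)) / 2) ≤ ε / 4 / (F.card + 1) := fun q hq =>
    exists_exp_small (hR q (hF q hq).1 (hF q hq).2) (by positivity)
  choose! P hP hPε using h1
  have hA : Per (fun n => ∀ q ∈ F, n % q ≠ c q % q) (∏ q ∈ F, q)
      (∏ q ∈ F, Real.exp (-(1 / (q : ℝ)))) :=
    Per.forall F (fun q n => n % q ≠ c q % q) (fun q => q) _
      (fun q hq => per_ne (hF q hq).1.pos _) (fun q _ => (Real.exp_pos _).le)
      (fun q hq q' hq' h => (Nat.coprime_primes (hF q hq).1 (hF q' hq').1).2 h)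
  have hA' : (∏ q ∈ F, Real.exp (-(1 / (q : ℝ)))) ≤ ε / 4 := by
    rw [← Real.exp_sum, sum_neg_distrib]
    refine le_trans ?_ hFε
    rw [Real.exp_le_exp]
    have : 0 ≤ ∑ q ∈ F, 1 / (q : ℝ) := sum_nonneg fun q _ => by positivity
    linarith
  have hB : ∀ q ∈ F, Per (fun n => ∀ r ∈ P q, ¬ E r n) (∏ r ∈ P q, r ^ 2)
      (∏ r ∈ P q, Real.exp (-(1 / (2 * (r : ℝ))))) := fun q hq =>
    Per.forall (P q) (fun r n => ¬ E r n) (fun r => r ^ 2) _
      (fun r hr => hE q r (hP q hq r hr).1 (hP q hq r hr).2) (fun r _ => (Real.exp_pos _).le)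
      (fun r hr r' hr' h =>
        ((Nat.coprime_primes (hP q hq r hr).1 (hP q hq r' hr').1).2 h).pow 2 2)
  have hB' : ∀ q ∈ F, (∏ r ∈ P q, Real.exp (-(1 / (2 * (r : ℝ))))) ≤ ε / 4 / (F.card + 1) := by
    intro q hq
    refine le_trans (le_of_eq ?_) (hPε q hq)
    rw [← Real.exp_sum, sum_neg_distrib]
    congr 1
    rw [neg_div, sum_div]
    congr 1
    refine sum_congr rfl fun r _ => ?_
    rw [one_div, one_div, mul_inv, mul_comm, div_eq_mul_inv]
  have key : ∀ N, cnt S N ≤ cnt (fun n => ∀ q ∈ F, n % q ≠ c q % q) N +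
      ∑ q ∈ F, cnt (fun n => ∀ r ∈ P q, ¬ E r n) N := by
    intro N
    have h2 : cnt S N ≤ ((range N).filter (fun n => ∀ q ∈ F, n % q ≠ c q % q) ∪
        F.biUnion (fun q => (range N).filter
          (fun n => ∀ r ∈ P q, ¬ E r n))).card := by
      apply cnt_le_card
      intro n hn hSn
      rw [mem_union, mem_filter, mem_range, mem_biUnion]
      by_cases h3 : ∀ q ∈ F, n % q ≠ c q % q
      · exact Or.inl ⟨hn, h3⟩
      · push Not at h3
        obtain ⟨q, hq, h4⟩ := h3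
        refine Or.inr ⟨q, hq, ?_⟩
        rw [mem_filter, mem_range]
        exact ⟨hn, fun r hr h5 => hS n hSn q (hF q hq).1 (hF q hq).2 h4 r (hP q hq r hr).1
          (hP q hq r hr).2 h5⟩
    refine h2.trans ((card_union_le _ _).trans ?_)
    refine add_le_add (le_of_eq ?_) (card_biUnion_le.trans (sum_le_sum fun q _ => le_of_eq ?_))
    · unfold cnt
      congr
    · unfold cnt
      congr
  set K : ℝ := ((∏ q ∈ F, q : ℕ) : ℝ) + ∑ q ∈ F, ((∏ r ∈ P q, r ^ 2 : ℕ) : ℝ) with hK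
  have key2 : ∀ N : ℕ, (cnt S N : ℝ) ≤ ε / 2 * N + K := by
    intro N
    have h2 : (cnt S N : ℝ) ≤ (cnt (fun n => ∀ q ∈ F, n % q ≠ c q % q) N : ℝ) +
        ∑ q ∈ F, (cnt (fun n => ∀ r ∈ P q, ¬ E r n) N : ℝ) := by
      exact_mod_cast key N
    have h3 := hA.count N
    have h4 : ∑ q ∈ F, (cnt (fun n => ∀ r ∈ P q, ¬ E r n) N : ℝ) ≤
        ∑ q ∈ F, (ε / 4 / (F.card + 1) * N + ((∏ r ∈ P q, r ^ 2 : ℕ) : ℝ)) := by
      refine sum_le_sum fun q hq => ((hB q hq).count N).trans ?_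
      have := mul_le_mul_of_nonneg_right (hB' q hq) (Nat.cast_nonneg (α := ℝ) N)
      linarith
    rw [sum_add_distrib, sum_const, nsmul_eq_mul] at h4
    have h5 := mul_le_mul_of_nonneg_right hA' (Nat.cast_nonneg (α := ℝ) N)
    have h6 : (F.card : ℝ) * (ε / 4 / (F.card + 1) * N) ≤ ε / 4 * N := by
      have : (F.card : ℝ) * (ε / 4 / (F.card + 1) * N) =
          (ε / 4 * N) * (F.card / (F.card + 1)) := by field_simp
      rw [this]
      apply mul_le_of_le_one_right (by positivity)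
      rw [div_le_one hcardF]
      linarith
    linarith
  obtain ⟨N0, hN0⟩ := exists_nat_gt (2 * K / ε)
  refine ⟨N0 + 1, fun N hN => ?_⟩
  have hNpos : (0 : ℝ) < N := by
    have : 0 < N := by omega
    exact_mod_cast this
  have hNN : 2 * K / ε < N := by
    have : (N0 : ℝ) ≤ N := by exact_mod_cast (by omega : N0 ≤ N)
    linarith
  have hMN : K < ε / 2 * N := by
    rw [div_lt_iff₀ hε] at hNN
    linarith
  rw [Real.dist_eq, sub_zero, abs_of_nonneg (by positivity), div_lt_iff₀ hNpos]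
  have := key2 N
  linarith

/-- valuations -/
lemma val_of_ex {f g h : ℤ[X]} {c E : ℤ} {e : ℕ} {A₂ B₂ : ℤ[X]} (hfac : C c * f = g ^ e * h)
    (hgh : A₂ * g + B₂ * h = C E) {r t : ℕ} (hr : r.Prime) (hc : ¬ (r : ℤ) ∣ c)
    (hE : ¬ (r : ℤ) ∣ E) (he : e ≠ 0) (hex : Ex g r t) :
    ∃ u : ℤ, f.eval (t : ℤ) = (r : ℤ) ^ e * u ∧ ¬ (r : ℤ) ∣ u := by
  have hrp : Prime (r : ℤ) := Nat.prime_iff_prime_int.1 hr
  obtain ⟨⟨w, hw⟩, h2⟩ := hex
  have hrw : ¬ (r : ℤ) ∣ w := by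
    rintro ⟨z, rfl⟩
    apply h2
    exact ⟨z, by rw [hw]; ring⟩
  have hrh : ¬ (r : ℤ) ∣ h.eval (t : ℤ) := by
    intro h3
    apply hE
    have h4 := congrArg (Polynomial.eval (t : ℤ)) hgh
    simp only [eval_add, eval_mul, eval_C] at h4
    rw [← h4]
    exact dvd_add (Dvd.dvd.mul_left ⟨w, hw⟩ _) (Dvd.dvd.mul_left h3 _)
  have h5 : c * f.eval (t : ℤ) = ((r : ℤ) * w) ^ e * h.eval (t : ℤ) := by
    have h6 := congrArg (Polynomial.eval (t : ℤ)) hfac
    simp only [eval_mul, eval_C, eval_pow] at h6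
    rw [h6, hw]
  have h7 : (r : ℤ) ^ e ∣ f.eval (t : ℤ) := by
    have h8 : IsCoprime ((r : ℤ) ^ e) c :=
      ((Prime.coprime_iff_not_dvd hrp).2 hc).pow_left
    apply h8.dvd_of_dvd_mul_left
    rw [h5, mul_pow, mul_assoc]
    exact dvd_mul_right _ _
  obtain ⟨u, hu⟩ := h7
  refine ⟨u, hu, fun h9 => ?_⟩
  have h10 : c * u = w ^ e * h.eval (t : ℤ) := by
    rw [hu, mul_pow] at h5
    have h11 : ((r : ℤ) ^ e) ≠ 0 := pow_ne_zero _ (by exact_mod_cast hr.ne_zero)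
    apply mul_left_cancel₀ h11
    linear_combination h5
  have h12 : (r : ℤ) ∣ w ^ e * h.eval (t : ℤ) := by
    rw [← h10]
    exact h9.mul_left _
  rcases hrp.dvd_or_dvd h12 with h13 | h13
  · exact hrw (hrp.dvd_of_dvd_pow h13)
  · exact hrh h13

end Pool.Agent.T2H18.PO
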