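import Pool.Agent.T2H18.PO.Quad
import Pool.Agent.T2H18.PO.Loc
import Pool.Agent.TH888.B1.Roots
import Pool.Agent.W688.VT.VC

/-!
# Primes with a root of `g` which are nonresidues modulo a given prime
-/

set_option autoImplicit false

namespace Pool.Agent.T2H18.PO

open Polynomial IntermediateField NumberField Pool.Agent.W401.Cheb Pool.Agent.H771R2.Dens

lemma big_of_not_summable {P : ℕ → Prop} {T : Set ℕ}
    (hT : ¬ Summable (fun n : ℕ => T.indicator (fun n : ℕ => (1 : ℝ) / n) n))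
    (h : ∀ p ∈ T, p.Prime ∧ P p) : Big P := by
  classical
  intro B
  obtain ⟨F0, hF0⟩ : ∃ F0 : Finset ℕ, B < ∑ n ∈ F0, T.indicator (fun n : ℕ => (1 : ℝ) / n) n := by
    by_contra hcon
    push Not at hcon
    exact hT (summable_of_sum_le (fun n => Set.indicator_nonneg (fun n _ => by positivity) n) hcon)
  refine ⟨F0.filter (fun n => n ∈ T), ?_, ?_⟩
  · intro p hp
    rw [Finset.mem_filter] at hp
    exact h p hp.2
  · rw [Finset.sum_filter]
    refine hF0.le.trans (le_of_eq (Finset.sum_congr rfl fun n _ => ?_))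
    rw [Set.indicator_apply]

/-- the power of a nonresidue (quadratic reciprocity) -/
lemma pow_of_nonres {p q : ℕ} [hp : Fact p.Prime] [hq : Fact q.Prime] (hp2 : p ≠ 2) (hq2 : q ≠ 2)
    (hpq : p ≠ q) {F : Type} [Field F] [Algebra (ZMod p) F] {w : F}
    (hw : w ^ 2 = ((qs q : ℤ) : F)) (hwp : w ^ p = -w) : (p : ZMod q) ^ (q / 2) = -1 := by
  have hchar : CharP F p := charP_of_injective_algebraMap (algebraMap (ZMod p) F).injective p
  have hqs : ((qs q : ℤ) : ZMod p) ≠ 0 := by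
    intro h
    rw [ZMod.intCast_zmod_eq_zero_iff_dvd] at h
    have h1 := Int.natAbs_dvd_natAbs.2 h
    rw [qs_natAbs, Int.natAbs_natCast] at h1
    exact hpq ((Nat.prime_dvd_prime_iff_eq hp.out hq.out).1 h1)
  have hw0 : w ≠ 0 := by
    rintro rfl
    rw [zero_pow two_ne_zero] at hw
    apply hqs
    apply (algebraMap (ZMod p) F).injective
    rw [map_intCast, map_zero, hw]
  have hp1 : p = (p - 1) + 1 := by
    have := hp.out.two_le
    omega
  have h1 : w ^ (p - 1) = -1 := by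
    have h2 : w ^ (p - 1) * w = -1 * w := by
      rw [← pow_succ, ← hp1, hwp]
      ring
    exact mul_right_cancel₀ hw0 h2
  have hodd : p % 2 = 1 := hp.out.eq_two_or_odd.resolve_left hp2
  have hqodd : q % 2 = 1 := hq.out.eq_two_or_odd.resolve_left hq2
  have h2 : ((qs q : ℤ) : ZMod p) ^ (p / 2) = -1 := by
    apply (algebraMap (ZMod p) F).injective
    rw [map_pow, map_intCast, ← hw, ← pow_mul, map_neg, map_one, ← h1]
    congr 1
    omega
  have h3 : legendreSym p (qs q) = -1 := by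
    have h4 := legendreSym.eq_pow p (qs q)
    rw [h2] at h4
    have h5 := legendreSym.eq_one_or_neg_one p (a := qs q) hqs
    rcases h5 with h5 | h5
    · exfalso
      rw [h5] at h4
      push_cast at h4
      have : Fact (2 < p) := ⟨lt_of_le_of_ne hp.out.two_le (Ne.symm hp2)⟩
      exact ZMod.neg_one_ne_one h4.symm
    · exact h5
  have h4 : legendreSym q p = legendreSym p (qs q) := by
    rw [legendreSym.quadratic_reciprocity' hp2 hq2]
    unfold qs
    rw [legendreSym.mul]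
    congr 1
    have h5 : legendreSym p ((-1) ^ (q / 2)) = (legendreSym p (-1)) ^ (q / 2) := by
      have := map_pow (legendreSym.hom p) (-1) (q / 2)
      exact this
    rw [h5, legendreSym.at_neg_one hp2, ZMod.χ₄_eq_neg_one_pow hodd, pow_mul]
  have h5 := legendreSym.eq_pow q p
  rw [h4, h3] at h5
  push_cast at h5
  exact h5.symm

/-- the primes `r` -/
def RS (g : ℤ[X]) (q : ℕ) : Set ℕ :=
  {r | r.Prime ∧ (r : ZMod q) ^ (q / 2) = -1 ∧ ∃ a : ℕ, (r : ℤ) ∣ g.eval (a : ℤ)}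

/-- **The primes `r`.** -/
theorem div_R {g : ℤ[X]} (hg : 0 < g.natDegree) : ∃ K₀ : ℕ, ∀ q : ℕ, q.Prime → K₀ < q →
    ¬ Summable (fun n : ℕ => (RS g q).indicator (fun n : ℕ => (1 : ℝ) / n) n) := by
  classical
  have := Pool.Agent.W688.VT.algInst
  set A := AlgebraicClosure ℚ with hA
  have : IsAlgClosure ℚ A := ⟨inferInstance, inferInstance⟩
  have hN : Normal ℚ A := IsAlgClosure.normal ℚ A
  have hGal : IsGalois ℚ A := ⟨⟩
  -- a root
  have hgQ : (g.map (Int.castRingHom ℚ)).natDegree = g.natDegree :=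
    natDegree_map_eq_of_injective (RingHom.injective_int _) g
  obtain ⟨α, hα'⟩ : ∃ α : A, aeval α (g.map (Int.castRingHom ℚ)) = 0 := by
    apply IsAlgClosed.exists_aeval_eq_zero
    intro h
    have h1 : (g.map (Int.castRingHom ℚ)).natDegree = 0 := natDegree_eq_of_degree_eq_some h
    omega
  have hα : aeval α g = 0 := Pool.Agent.TH888.B1.aeval_of_map g _ rfl α hα'
  have hint : IsIntegral ℚ α := Algebra.IsIntegral.isIntegral α
  have hfd : FiniteDimensional ℚ ℚ⟮α⟯ := IntermediateField.adjoin.finiteDimensional hint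
  have hNF : NumberField ℚ⟮α⟯ := ⟨⟩
  obtain ⟨B, hB⟩ := (finite_quad ℚ⟮α⟯).bddAbove
  have hlc : g.leadingCoeff ≠ 0 := by
    rw [Ne, leadingCoeff_eq_zero]
    rintro rfl
    simp at hg
  refine ⟨max B 2, fun q hq hqB => ?_⟩
  have hqB1 : B < q := lt_of_le_of_lt (le_max_left _ _) hqB
  have hq2 : 2 < q := lt_of_le_of_lt (le_max_right _ _) hqB
  have hqF : Fact q.Prime := ⟨hq⟩
  -- the square root of `± q`
  obtain ⟨s, hs⟩ : ∃ s : A, s ^ 2 = ((qs q : ℤ) : A) :=
    IsAlgClosed.exists_pow_nat_eq _ (by norm_num)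
  have hsK : s ∉ ℚ⟮α⟯ := by
    intro hsK
    have h1 : q ≤ B := by
      apply hB
      refine ⟨hq, ⟨s, hsK⟩, ?_⟩
      apply Subtype.ext
      push_cast
      exact hs
    omega
  obtain ⟨σ, hσ, hσs⟩ : ∃ σ : Gal(A/ℚ), σ ∈ (ℚ⟮α⟯).fixingSubgroup ∧ σ s ≠ s := by
    by_contra hcon
    push Not at hcon
    apply hsK
    rw [← InfiniteGalois.fixedField_fixingSubgroup ℚ⟮α⟯, IntermediateField.mem_fixedField_iff]
    exact hcon
  have hσα : σ α = α :=
    (IntermediateField.mem_fixingSubgroup_iff _ σ).1 hσ α (mem_adjoin_simple_self ℚ α)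
  have hσs' : σ s = -s := by
    have h1 : (σ s) ^ 2 = s ^ 2 := by
      rw [← map_pow, hs, map_intCast]
    rcases sq_eq_sq_iff_eq_or_eq_neg.1 h1 with h2 | h2
    · exact absurd h2 hσs
    · exact h2
  obtain ⟨L, hSL, hLN, hLG⟩ := Pool.Agent.W688.VT.exL ({α, s} : Set A) (by simp)
  have hαL : α ∈ L := hSL (by simp)
  have hsL : s ∈ L := hSL (by simp)
  set τ : Gal(L/ℚ) := σ.restrictNormal L with hτ
  have hτc : ∀ x : L, ((τ x : L) : A) = σ (x : A) := fun x =>
    AlgEquiv.restrictNormal_commutes σ L x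
  -- integral elements
  have hαg : aeval (⟨α, hαL⟩ : L) g = 0 := by
    apply Subtype.ext
    have h1 : ((aeval (⟨α, hαL⟩ : L) g : L) : A) = aeval α g := by
      have := (Polynomial.aeval_algebraMap_apply A (⟨α, hαL⟩ : L) g)
      exact this.symm
    rw [h1, hα]
    rfl
  have hyint : IsIntegral ℤ (g.leadingCoeff • (⟨α, hαL⟩ : L)) :=
    isIntegral_leadingCoeff_smul g _ hαg
  obtain ⟨y, hy⟩ : ∃ y : 𝓞 L, (y : L) = g.leadingCoeff • (⟨α, hαL⟩ : L) := ⟨⟨_, hyint⟩, rfl⟩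
  have hyL : (y : L) = (g.leadingCoeff : L) * (⟨α, hαL⟩ : L) := by
    rw [hy, zsmul_eq_mul]
  have hs2 : (⟨s, hsL⟩ : L) ^ 2 = ((qs q : ℤ) : L) := by
    apply Subtype.ext
    push_cast
    exact hs
  have hsint : IsIntegral ℤ (⟨s, hsL⟩ : L) := by
    apply IsIntegral.of_pow (n := 2) (by norm_num)
    rw [hs2]
    exact isIntegral_algebraMap (R := ℤ) (x := qs q)
  obtain ⟨z, hz⟩ : ∃ z : 𝓞 L, (z : L) = (⟨s, hsL⟩ : L) := ⟨⟨_, hsint⟩, rfl⟩
  have hz2 : z ^ 2 = ((qs q : ℤ) : 𝓞 L) := by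
    apply RingOfIntegers.coe_injective
    rw [map_pow, map_intCast]
    change (z : L) ^ 2 = _
    rw [hz, hs2]
  have hτz : τ • z = -z := by
    apply RingOfIntegers.coe_injective
    have h1 : ((τ • z : 𝓞 L) : L) = τ (z : L) := rfl
    rw [map_neg]
    change ((τ • z : 𝓞 L) : L) = -(z : L)
    rw [h1, hz]
    apply Subtype.ext
    rw [hτc]
    push_cast
    exact hσs'
  have hτy : τ • y = y := by
    apply RingOfIntegers.coe_injective
    have h1 : ((τ • y : 𝓞 L) : L) = τ (y : L) := rfl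
    change ((τ • y : 𝓞 L) : L) = (y : L)
    rw [h1, hyL]
    apply Subtype.ext
    rw [hτc]
    push_cast
    rw [map_mul, map_intCast, hσα]
  -- divergence
  have h1 := Pool.Agent.TH888.B1.frob_diverges L τ
  set T0 : Set ℕ := {p : ℕ | (p : ℤ) ∣ g.leadingCoeff} ∪ {2, q} with hT0
  have hfin : T0.Finite := by
    refine Set.Finite.union ?_ (by simp)
    apply (Set.finite_Icc 0 g.leadingCoeff.natAbs).subset
    intro p hp
    rw [Set.mem_setOf_eq, Int.natCast_dvd] at hp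
    exact ⟨Nat.zero_le _, Nat.le_of_dvd (Int.natAbs_pos.mpr hlc) hp⟩
  refine Pool.Agent.TH888.B1.diverges_mono ?_ (Pool.Agent.TH888.B1.diverges_diff hfin h1)
  rintro p ⟨⟨hp, hx⟩, hpl⟩
  have hpF : Fact p.Prime := ⟨hp⟩
  rw [hT0, Set.mem_union, Set.mem_insert_iff, Set.mem_singleton_iff] at hpl
  push Not at hpl
  obtain ⟨hpl, hp2, hpq⟩ := hpl
  obtain ⟨φ, hφ⟩ := Pool.Agent.TH888.B1.exists_hom τ hp hx
  refine ⟨hp, ?_, ?_⟩
  · refine pow_of_nonres (F := AlgebraicClosure (ZMod p)) hp2 (by omega) hpq (w := φ z) ?_ ?_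
    · rw [← map_pow, hz2, map_intCast]
    · rw [← hφ z, hτz, map_neg]
  · have h2 : φ y ^ p = φ y := by
      rw [← hφ y, hτy]
    obtain ⟨x, hx⟩ := W54.ChTor.frob_fixed p (φ y) h2
    have h3 := Pool.Agent.TH888.B1.root_of_hom φ g _ hαg y g.leadingCoeff hyL hpl x hx
    set w : ZMod p := x / (g.leadingCoeff : ZMod p) with hw
    refine ⟨w.val, ?_⟩
    rw [← ZMod.intCast_zmod_eq_zero_iff_dvd]
    have h4 : ((g.eval ((w.val : ℕ) : ℤ) : ℤ) : ZMod p) =
        (g.map (Int.castRingHom (ZMod p))).eval (((w.val : ℕ) : ℤ) : ZMod p) := by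
      rw [Polynomial.eval_intCast_map]
      rfl
    rw [h4]
    push_cast
    rw [ZMod.natCast_zmod_val]
    exact h3

theorem big_R {g : ℤ[X]} (hg : 0 < g.natDegree) : ∃ K₀ : ℕ, ∀ q : ℕ, q.Prime → K₀ < q →
    Big (fun r => (r : ZMod q) ^ (q / 2) = -1 ∧ ∃ a : ℕ, (r : ℤ) ∣ g.eval (a : ℤ)) := by
  obtain ⟨K₀, h⟩ := div_R hg
  exact ⟨K₀, fun q hq hK => big_of_not_summable (h q hq hK) fun r hr => ⟨hr.1, hr.2⟩⟩

end Pool.Agent.T2H18.PO
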