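import Pool.Agent.T2H18.PO.Gal

/-!
# Primes with a root of `F` for which a given prime `p` has even order
-/

set_option autoImplicit false

namespace Pool.Agent.T2H18.PO

open Polynomial IntermediateField NumberField Pool.Agent.W401.Cheb Pool.Agent.H771R2.Dens

section

variable {A : Type} [Field A] [CharZero A] [IsAlgClosed A] [Algebra.IsAlgebraic ℚ A]

/-- an automorphism raising a root of unity to the fifth power -/
lemma ex_tau {k : ℕ} {ζ : A} (hζ : IsPrimitiveRoot ζ (2 ^ k)) : ∃ τ : Gal(A/ℚ), τ ζ = ζ ^ 5 := by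
  have : IsAlgClosure ℚ A := ⟨inferInstance, inferInstance⟩
  have hN : Normal ℚ A := IsAlgClosure.normal ℚ A
  have h1 := hζ.minpoly_eq_pow_coprime (m := 5)
    ((Nat.coprime_primes (by norm_num) (by norm_num)).2 (by norm_num : (5:ℕ) ≠ 2) |>.pow_right k)
  have hint : IsIntegral ℤ ζ := hζ.isIntegral (by positivity)
  have h2 : IsConjRoot ℚ (ζ ^ 5) ζ := by
    rw [isConjRoot_def, minpoly.isIntegrallyClosed_eq_field_fractions' ℚ hint,
      minpoly.isIntegrallyClosed_eq_field_fractions' ℚ (hint.pow 5), h1]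
  exact isConjRoot_iff_exists_algEquiv.1 h2

/-- some power of an automorphism fixes a given element -/
lemma ex_pow (τ : Gal(A/ℚ)) (α : A) :
    ∃ j : ℕ, 1 ≤ j ∧ j ≤ (minpoly ℚ α).natDegree ∧ (τ ^ j) α = α := by
  classical
  have hint : IsIntegral ℚ α := Algebra.IsIntegral.isIntegral α
  set m := minpoly ℚ α with hm
  have hm0 : m ≠ 0 := minpoly.ne_zero hint
  set T : Finset A := (m.map (algebraMap ℚ A)).roots.toFinset with hT
  have hmA : m.map (algebraMap ℚ A) ≠ 0 := by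
    rwa [Ne, Polynomial.map_eq_zero_iff (algebraMap ℚ A).injective]
  have hTc : T.card ≤ m.natDegree := by
    refine (Multiset.toFinset_card_le _).trans ((Polynomial.card_roots' _).trans ?_)
    rw [natDegree_map]
  have hmaps : Set.MapsTo (fun i : ℕ => (τ ^ i) α) (Finset.range (m.natDegree + 1)) T := by
    intro i _
    rw [Finset.mem_coe, hT, Multiset.mem_toFinset, mem_roots hmA, IsRoot.def, eval_map_algebraMap,
      aeval_algHom_apply (τ ^ i : Gal(A/ℚ)) α m, hm, minpoly.aeval, map_zero]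
  obtain ⟨i, hi, i', hi', hne, heq⟩ := Finset.exists_ne_map_eq_of_card_lt_of_maps_to
    (by rw [Finset.card_range]; omega) hmaps
  rw [Finset.mem_range] at hi hi'
  have key : ∀ a b : ℕ, a < b → (τ ^ a) α = (τ ^ b) α → (τ ^ (b - a)) α = α := by
    intro a b hab h
    have h1 : τ ^ b = τ ^ a * τ ^ (b - a) := by rw [← pow_add]; congr 1; omega
    rw [h1, AlgEquiv.mul_apply] at h
    exact ((τ ^ a).injective h).symm
  rcases lt_or_gt_of_ne hne with h | h
  · exact ⟨i' - i, by omega, by omega, key i i' h heq⟩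
  · exact ⟨i - i', by omega, by omega, key i' i h heq.symm⟩

lemma pow_tau {k : ℕ} {ζ : A} (_hζ : IsPrimitiveRoot ζ (2 ^ k)) {τ : Gal(A/ℚ)} (h : τ ζ = ζ ^ 5)
    (j : ℕ) : (τ ^ j) ζ = ζ ^ 5 ^ j := by
  induction j with
  | zero => simp
  | succ j ih =>
    rw [pow_succ, AlgEquiv.mul_apply, h, map_pow, ih, ← pow_mul, pow_succ]

/-- **The automorphism.** -/
theorem ex_kappa (α : A) {p : ℕ} (hp : p.Prime) :
    ∃ (k : ℕ) (ζ w : A) (κ : Gal(A/ℚ)), 1 ≤ k ∧ IsPrimitiveRoot ζ (2 ^ k) ∧ w ^ 2 ^ k = (p : A) ∧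
      κ α = α ∧ κ ζ = ζ ∧ κ w ≠ w := by
  have : IsAlgClosure ℚ A := ⟨inferInstance, inferInstance⟩
  have hN : Normal ℚ A := IsAlgClosure.normal ℚ A
  have hGal : IsGalois ℚ A := ⟨⟩
  have hpF : Fact p.Prime := ⟨hp⟩
  have hpA : (p : A) ≠ 0 := by exact_mod_cast hp.ne_zero
  have hint : IsIntegral ℚ α := Algebra.IsIntegral.isIntegral α
  set d := (minpoly ℚ α).natDegree with hd
  have hd0 : 0 < d := minpoly.natDegree_pos hint
  set k := d * 5 ^ d with hk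
  have hk2 : d * 5 ^ d < 2 ^ k := Nat.lt_two_pow_self
  have hk1 : 1 ≤ k := Nat.mul_pos hd0 (by positivity)
  have : NeZero ((2 ^ k : ℕ) : A) := ⟨by exact_mod_cast (by positivity : (2 ^ k : ℕ) ≠ 0)⟩
  obtain ⟨ζ, hζ⟩ := HasEnoughRootsOfUnity.exists_primitiveRoot A (2 ^ k)
  have : NeZero (2 ^ k) := ⟨by positivity⟩
  obtain ⟨s, hs⟩ : ∃ s : A, s ^ 2 ^ k = (p : A) :=
    IsAlgClosed.exists_pow_nat_eq _ (by positivity)
  have hs0 : s ≠ 0 := by
    rintro rfl
    rw [zero_pow (by positivity)] at hs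
    exact hpA hs.symm
  obtain ⟨τ, hτ⟩ := ex_tau hζ
  obtain ⟨j, hj1, hjd, hj⟩ := ex_pow τ α
  set σ := τ ^ j with hσ
  have hσζ : σ ζ = ζ ^ 5 ^ j := pow_tau hζ hτ j
  by_contra hcon
  push Not at hcon
  have hfix : ∀ κ : Gal(A/ℚ), κ α = α → κ ζ = ζ → ∀ w : A, w ^ 2 ^ k = (p : A) → κ w = w :=
    fun κ h1 h2 w h3 => hcon k ζ w κ hk1 hζ h3 h1 h2
  have hun : ∀ x : A, x ^ 2 ^ k = 1 → ∃ i, ζ ^ i = x := fun x hx => by
    obtain ⟨i, -, hi⟩ := hζ.eq_pow_of_pow_eq_one hx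
    exact ⟨i, hi⟩
  have hsa : σ⁻¹ α = α := by
    have h1 : σ⁻¹ (σ α) = α := AlgEquiv.symm_apply_apply σ α
    rwa [hj] at h1
  -- the element `y`
  set y : A := s ^ 5 ^ j / σ s with hy
  have hσs0 : σ s ≠ 0 := by
    rw [Ne, EmbeddingLike.map_eq_zero_iff]
    exact hs0
  have hyK : y ∈ ℚ⟮α⟯ := by
    rw [← InfiniteGalois.fixedField_fixingSubgroup ℚ⟮α⟯, IntermediateField.mem_fixedField_iff]
    intro ρ hρ
    have hρα : ρ α = α :=
      (IntermediateField.mem_fixingSubgroup_iff _ ρ).1 hρ α (mem_adjoin_simple_self ℚ α)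
    have hρa : ρ⁻¹ α = α := by
      have h1 : ρ⁻¹ (ρ α) = α := AlgEquiv.symm_apply_apply ρ α
      rwa [hρα] at h1
    have hcom : ρ (σ s) = σ (ρ s) := by
      have h1 := hfix (ρ * σ * ρ⁻¹ * σ⁻¹) ?_ ?_ (σ (ρ s)) ?_
      · have e1 : (ρ * σ * ρ⁻¹ * σ⁻¹) (σ (ρ s)) = ρ (σ (ρ⁻¹ (σ⁻¹ (σ (ρ s))))) := rfl
        have e2 : σ⁻¹ (σ (ρ s)) = ρ s := AlgEquiv.symm_apply_apply σ _
        have e3 : ρ⁻¹ (ρ s) = s := AlgEquiv.symm_apply_apply ρ _
        rw [e1, e2, e3] at h1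
        exact h1
      · change ρ (σ (ρ⁻¹ (σ⁻¹ α))) = α
        rw [hsa, hρa, hj, hρα]
      · change ρ (σ (ρ⁻¹ (σ⁻¹ ζ))) = ζ
        obtain ⟨i, hi⟩ := hun (ρ⁻¹ (σ⁻¹ ζ)) (by rw [← map_pow, ← map_pow, hζ.pow_eq_one, map_one,
          map_one])
        obtain ⟨c, hc⟩ := hun (ρ ζ) (by rw [← map_pow, hζ.pow_eq_one, map_one])
        have e1 : ρ (σ (ζ ^ i)) = σ (ρ (ζ ^ i)) := by
          rw [map_pow, map_pow, map_pow, map_pow, hσζ, map_pow, ← hc, map_pow, hσζ]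
          ring
        rw [← hi, e1, hi]
        have e2 : ρ (ρ⁻¹ (σ⁻¹ ζ)) = σ⁻¹ ζ := AlgEquiv.apply_symm_apply ρ _
        rw [e2]
        exact AlgEquiv.apply_symm_apply σ _
      · rw [← map_pow, ← map_pow, hs, map_natCast, map_natCast]
    obtain ⟨b, hb⟩ := hun (ρ s / s) (by
      rw [div_pow, ← map_pow, hs, map_natCast, div_self hpA])
    have hb' : ρ s = ζ ^ b * s := by
      rw [hb, div_mul_cancel₀ _ hs0]
    rw [hy, map_div₀, hcom, map_pow, hb', map_mul, map_pow, hσζ]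
    have hz : ζ ≠ 0 := hζ.ne_zero (by positivity)
    rw [mul_pow, ← pow_mul, ← pow_mul, mul_comm b, mul_div_mul_left _ _ (pow_ne_zero _ hz)]
  -- the norm
  have hy2 : y ^ 2 ^ k * p = (p : A) ^ 5 ^ j := by
    rw [hy, div_pow, ← map_pow, hs, map_natCast, ← pow_mul, mul_comm (5 ^ j), pow_mul, hs,
      div_mul_cancel₀ _ hpA]
  set y' : ℚ⟮α⟯ := ⟨y, hyK⟩ with hy'
  have hy3 : y' ^ 2 ^ k * algebraMap ℚ ℚ⟮α⟯ (p : ℚ) = algebraMap ℚ ℚ⟮α⟯ ((p : ℚ) ^ 5 ^ j) := by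
    apply Subtype.ext
    have e1 : ((y' ^ 2 ^ k * algebraMap ℚ ℚ⟮α⟯ (p : ℚ) : ℚ⟮α⟯) : A) = y ^ 2 ^ k * (p : A) := by
      push_cast
      rw [hy']
    have e2 : ((algebraMap ℚ ℚ⟮α⟯ ((p : ℚ) ^ 5 ^ j) : ℚ⟮α⟯) : A) = (p : A) ^ 5 ^ j := by
      simp
    rw [e1, e2, hy2]
  have hfr : Module.finrank ℚ ℚ⟮α⟯ = d := IntermediateField.adjoin.finrank hint
  have hn := congrArg (Algebra.norm ℚ) hy3
  rw [map_mul, map_pow, Algebra.norm_algebraMap, Algebra.norm_algebraMap, hfr] at hn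
  set N : ℚ := Algebra.norm ℚ y' with hN'
  have hpQ : (p : ℚ) ≠ 0 := by exact_mod_cast hp.ne_zero
  have hN0 : N ≠ 0 := by
    intro h
    rw [h, zero_pow (by positivity), zero_mul] at hn
    exact (pow_ne_zero _ (pow_ne_zero _ hpQ)) hn.symm
  have hv := congrArg (padicValRat p) hn
  rw [padicValRat.mul (pow_ne_zero _ hN0) (pow_ne_zero _ hpQ), padicValRat.pow, padicValRat.pow,
    padicValRat.pow, padicValRat.pow, padicValRat.self hp.one_lt] at hv
  push_cast at hv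
  -- `2 ^ k ∣ d * (5 ^ j - 1)`
  have hdvd : (2 ^ k : ℤ) ∣ (d : ℤ) * (5 ^ j - 1) := by
    refine ⟨padicValRat p N, ?_⟩
    linarith
  have h5j : (5 : ℤ) ≤ 5 ^ j := by
    calc (5 : ℤ) = 5 ^ 1 := by norm_num
      _ ≤ 5 ^ j := pow_le_pow_right₀ (by norm_num) hj1
  have h5d : (5 : ℤ) ^ j ≤ 5 ^ d := pow_le_pow_right₀ (by norm_num) hjd
  have hdz : (0 : ℤ) < d := by exact_mod_cast hd0
  have hle := Int.le_of_dvd (by nlinarith) hdvd
  have hk3 : (d : ℤ) * 5 ^ d < 2 ^ k := by exact_mod_cast hk2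
  nlinarith

/-- simultaneous lifts of Frobenius -/
theorem frob_lift (σ : Gal(A/ℚ)) (S : Set A) (hS : S.Finite)
    (hL : ∃ (L : IntermediateField ℚ A), S ⊆ L ∧ NumberField L ∧ IsGalois ℚ L) :
    ∃ (L : IntermediateField ℚ A), S ⊆ L ∧ NumberField L ∧
      ¬ Summable (fun n : ℕ => ({p : ℕ | ∃ hp : Fact p.Prime,
        ∃ φ : 𝓞 L →+* AlgebraicClosure (ZMod p),
          ∀ x y : 𝓞 L, ((y : L) : A) = σ ((x : L) : A) → φ y = φ x ^ p} : Set ℕ).indicator
            (fun n : ℕ => (1 : ℝ) / n) n) := by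
  obtain ⟨L, hSL, hLN, hLG⟩ := hL
  have : IsAlgClosure ℚ A := ⟨inferInstance, inferInstance⟩
  have hN : Normal ℚ A := IsAlgClosure.normal ℚ A
  refine ⟨L, hSL, hLN, ?_⟩
  set τ : Gal(L/ℚ) := σ.restrictNormal L with hτ
  have hτc : ∀ x : L, ((τ x : L) : A) = σ (x : A) := fun x =>
    AlgEquiv.restrictNormal_commutes σ L x
  refine Pool.Agent.TH888.B1.diverges_mono ?_ (Pool.Agent.TH888.B1.frob_diverges L τ)
  rintro p ⟨hp, hx⟩
  have hpF : Fact p.Prime := ⟨hp⟩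
  obtain ⟨φ, hφ⟩ := Pool.Agent.TH888.B1.exists_hom τ hp hx
  refine ⟨hpF, φ, fun x y hxy => ?_⟩
  rw [← hφ x]
  congr 1
  apply RingOfIntegers.coe_injective
  have h1 : ((τ • x : 𝓞 L) : L) = τ (x : L) := rfl
  change (y : L) = ((τ • x : 𝓞 L) : L)
  rw [h1]
  apply Subtype.ext
  rw [hτc, hxy]

end

/-- the primes `q` modulo which `F` has a root and `p` has even order -/
def QS (F : ℤ[X]) (p : ℕ) : Set ℕ :=
  {q | q ∈ Pool.Agent.TH888.B1.RootPrimes F ∧ ∃ j, (p : ZMod q) ^ j = -1}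

lemma half_order {R : Type} [CommRing R] [IsDomain R] {x : R} {k : ℕ} (h : x ^ 2 ^ k = 1)
    (h1 : x ≠ 1) : ∃ i, x ^ 2 ^ i = -1 := by
  induction k with
  | zero => exact absurd (by simpa using h) h1
  | succ k ih =>
    by_cases h2 : x ^ 2 ^ k = 1
    · exact ih h2
    · refine ⟨k, ?_⟩
      rw [pow_succ, pow_mul] at h
      rcases sq_eq_one_iff.1 h with h3 | h3
      · exact absurd h3 h2
      · exact h3

/-- **Primes with a root of `F` for which `p` has even order.** -/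
theorem div_Q {F : ℤ[X]} (hF : 0 < F.natDegree) {p : ℕ} (hp : p.Prime) :
    ¬ Summable (fun n : ℕ => (QS F p).indicator (fun n : ℕ => (1 : ℝ) / n) n) := by
  classical
  have := Pool.Agent.W688.VT.algInst
  set A := AlgebraicClosure ℚ with hA
  have : IsAlgClosure ℚ A := ⟨inferInstance, inferInstance⟩
  have hN : Normal ℚ A := IsAlgClosure.normal ℚ A
  have hGal : IsGalois ℚ A := ⟨⟩
  -- a root
  have hFQ : (F.map (Int.castRingHom ℚ)).natDegree = F.natDegree :=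
    natDegree_map_eq_of_injective (RingHom.injective_int _) F
  obtain ⟨α, hα'⟩ : ∃ α : A, aeval α (F.map (Int.castRingHom ℚ)) = 0 := by
    apply IsAlgClosed.exists_aeval_eq_zero
    intro h
    have h1 : (F.map (Int.castRingHom ℚ)).natDegree = 0 := natDegree_eq_of_degree_eq_some h
    omega
  have hα : aeval α F = 0 := Pool.Agent.TH888.B1.aeval_of_map F _ rfl α hα'
  have hlc : F.leadingCoeff ≠ 0 := by
    rw [Ne, leadingCoeff_eq_zero]
    rintro rfl
    simp at hF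
  have hpA : (p : A) ≠ 0 := by exact_mod_cast hp.ne_zero
  obtain ⟨k, ζ, w, κ, hk, hζ, hw, hκα, hκζ, hκw⟩ := ex_kappa (A := A) α hp
  have hw0 : w ≠ 0 := by
    rintro rfl
    rw [zero_pow (by positivity)] at hw
    exact hpA hw.symm
  obtain ⟨ξ, hξ⟩ : ∃ ξ : A, ξ = κ w / w := ⟨_, rfl⟩
  have hκw' : κ w = ξ * w := by rw [hξ, div_mul_cancel₀ _ hw0]
  have hξk : ξ ^ 2 ^ k = 1 := by
    rw [hξ, div_pow, ← map_pow, hw, map_natCast, div_self hpA]
  have hξ1 : ξ ≠ 1 := by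
    intro h
    rw [h, one_mul] at hκw'
    exact hκw hκw'
  obtain ⟨i, hi⟩ := half_order hξk hξ1
  have hζh : ζ ^ 2 ^ (k - 1) = -1 := by
    have h1 : (ζ ^ 2 ^ (k - 1)) ^ 2 = 1 := by
      rw [← pow_mul, ← pow_succ, Nat.sub_add_cancel hk, hζ.pow_eq_one]
    rcases sq_eq_one_iff.1 h1 with h2 | h2
    · exfalso
      have h3 := Nat.le_of_dvd (by positivity) ((hζ.pow_eq_one_iff_dvd _).1 h2)
      have h4 : 2 ^ (k - 1) < 2 ^ k := Nat.pow_lt_pow_right (by norm_num) (by omega)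
      omega
    · exact h2
  obtain ⟨L, hSL, hLN, hdiv⟩ := frob_lift κ ({α, ζ, w, ξ} : Set A) (by simp)
    (Pool.Agent.W688.VT.exL _ (by simp))
  have hαL : α ∈ L := hSL (by simp)
  have hζL : ζ ∈ L := hSL (by simp)
  have hwL : w ∈ L := hSL (by simp)
  have hξL : ξ ∈ L := hSL (by simp)
  -- integral elements
  have hαg : aeval (⟨α, hαL⟩ : L) F = 0 := by
    apply Subtype.ext
    have h1 : ((aeval (⟨α, hαL⟩ : L) F : L) : A) = aeval α F := by
      have := (Polynomial.aeval_algebraMap_apply A (⟨α, hαL⟩ : L) F)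
      exact this.symm
    rw [h1, hα]
    rfl
  obtain ⟨y, hy⟩ : ∃ y : 𝓞 L, (y : L) = F.leadingCoeff • (⟨α, hαL⟩ : L) :=
    ⟨⟨_, isIntegral_leadingCoeff_smul F _ hαg⟩, rfl⟩
  have hyL : (y : L) = (F.leadingCoeff : L) * (⟨α, hαL⟩ : L) := by
    rw [hy, zsmul_eq_mul]
  have mk : ∀ (x : A) (hx : x ∈ L) (m : ℕ) (c : ℤ), m ≠ 0 → x ^ m = (c : A) →
      ∃ z : 𝓞 L, ((z : L) : A) = x ∧ z ^ m = (c : 𝓞 L) := by
    intro x hx m c hm hxm
    have h2 : (⟨x, hx⟩ : L) ^ m = (c : L) := by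
      apply Subtype.ext
      push_cast
      exact hxm
    have hsint : IsIntegral ℤ (⟨x, hx⟩ : L) := by
      apply IsIntegral.of_pow (n := m) (Nat.pos_of_ne_zero hm)
      rw [h2]
      exact isIntegral_algebraMap (R := ℤ) (x := c)
    refine ⟨⟨⟨x, hx⟩, hsint⟩, rfl, ?_⟩
    apply RingOfIntegers.coe_injective
    rw [map_pow, map_intCast]
    exact h2
  obtain ⟨z, hz1, hz2⟩ := mk ζ hζL (2 ^ (k - 1)) (-1) (by positivity) (by push_cast; exact hζh)
  obtain ⟨v, hv1, hv2⟩ := mk w hwL (2 ^ k) p (by positivity) (by push_cast; exact hw)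
  obtain ⟨x, hx1, hx2⟩ := mk ξ hξL (2 ^ i) (-1) (by positivity) (by push_cast; exact hi)
  set T0 : Set ℕ := {q : ℕ | (q : ℤ) ∣ F.leadingCoeff} ∪ {2, p} with hT0
  have hfin : T0.Finite := by
    refine Set.Finite.union ?_ (by simp)
    apply (Set.finite_Icc 0 F.leadingCoeff.natAbs).subset
    intro q hq
    rw [Set.mem_setOf_eq, Int.natCast_dvd] at hq
    exact ⟨Nat.zero_le _, Nat.le_of_dvd (Int.natAbs_pos.mpr hlc) hq⟩
  refine Pool.Agent.TH888.B1.diverges_mono ?_ (Pool.Agent.TH888.B1.diverges_diff hfin hdiv)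
  rintro q ⟨⟨hqF, φ, hφ⟩, hql⟩
  rw [hT0, Set.mem_union, Set.mem_insert_iff, Set.mem_singleton_iff] at hql
  push Not at hql
  obtain ⟨hql, hq2, hqp⟩ := hql
  have hq : q.Prime := hqF.out
  have hq3 : 2 < q := lt_of_le_of_ne hq.two_le (Ne.symm hq2)
  have hF3 : Fact (2 < q) := ⟨hq3⟩
  set Fq := AlgebraicClosure (ZMod q) with hFq
  have hne : (-1 : Fq) ≠ 1 := by
    intro h
    have h1 : (-1 : ZMod q) = 1 := by
      apply (algebraMap (ZMod q) Fq).injective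
      rw [map_neg, map_one]
      exact h
    exact ZMod.neg_one_ne_one h1
  refine ⟨⟨hq, ?_⟩, ?_⟩
  · -- the root
    have h2 : φ y = φ y ^ q := by
      apply hφ y y
      have h3 : ((y : L) : A) = (F.leadingCoeff : A) * α := by
        rw [hyL]
        push_cast
        rfl
      rw [h3, map_mul, map_intCast, hκα]
    obtain ⟨x0, hx0⟩ := W54.ChTor.frob_fixed q (φ y) h2.symm
    exact ⟨_, Pool.Agent.TH888.B1.root_of_hom φ F _ hαg y F.leadingCoeff hyL hql x0 hx0⟩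
  · -- the order
    have hz3 : φ z ^ 2 ^ (k - 1) = -1 := by
      rw [← map_pow, hz2]
      simp
    have hv3 : φ v ^ 2 ^ k = (p : Fq) := by
      rw [← map_pow, hv2]
      simp
    have hx3 : φ x ^ 2 ^ i = -1 := by
      rw [← map_pow, hx2]
      simp
    have hz4 : φ z = φ z ^ q := hφ z z (by rw [hz1, hκζ])
    have hv4 : φ (x * v) = φ v ^ q := hφ v (x * v) (by
      push_cast
      rw [hv1, hx1, hκw'])
    rw [map_mul] at hv4
    have hz0 : φ z ≠ 0 := by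
      intro h
      rw [h, zero_pow (by positivity)] at hz3
      exact neg_ne_zero.2 one_ne_zero hz3.symm
    have hpq : (p : ZMod q) ≠ 0 := by
      rw [Ne, ZMod.natCast_eq_zero_iff]
      intro h
      exact hqp ((Nat.prime_dvd_prime_iff_eq hq hp).1 h)
    have hv0 : φ v ≠ 0 := by
      intro h
      rw [h, zero_pow (by positivity)] at hv3
      apply hpq
      apply (algebraMap (ZMod q) Fq).injective
      rw [map_natCast, map_zero, hv3]
    have hq1 : q = (q - 1) + 1 := by omega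
    have hz5 : φ z ^ (q - 1) = 1 := by
      have h1 : φ z ^ (q - 1) * φ z = 1 * φ z := by
        rw [← pow_succ, ← hq1, one_mul, ← hz4]
      exact mul_right_cancel₀ hz0 h1
    have hv5 : φ v ^ (q - 1) = φ x := by
      have h1 : φ v ^ (q - 1) * φ v = φ x * φ v := by
        rw [← pow_succ, ← hq1, hv4]
      exact mul_right_cancel₀ hv0 h1
    have hord : orderOf (φ z) = 2 ^ k := by
      have h1 : φ z ^ 2 ^ k = 1 := by
        have h2 : 2 ^ k = 2 ^ (k - 1) * 2 := by rw [← pow_succ, Nat.sub_add_cancel hk]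
        rw [h2, pow_mul, hz3]
        ring
      have h3 : k = (k - 1) + 1 := by omega
      rw [h3]
      apply orderOf_eq_prime_pow
      · rw [hz3]
        exact hne
      · rw [← h3]
        exact h1
    obtain ⟨m, hm⟩ : 2 ^ k ∣ q - 1 := by
      rw [← hord]
      exact orderOf_dvd_of_pow_eq_one hz5
    refine ⟨m * 2 ^ i, ?_⟩
    apply (algebraMap (ZMod q) Fq).injective
    rw [map_pow, map_natCast, map_neg, map_one, ← hv3, ← pow_mul, ← mul_assoc, ← hm, pow_mul, hv5,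
      hx3]

end Pool.Agent.T2H18.PO
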