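import Pool.Agent.T2H18.PO.Gal2

/-!
# Primes modulo which an algebraic number which is not a root of unity has even order
-/

set_option autoImplicit false

namespace Pool.Agent.T2H18.PO

open Polynomial IntermediateField NumberField Pool.Agent.W401.Cheb Pool.Agent.H771R2.Dens

section

variable {A : Type} [Field A] [CharZero A] [IsAlgClosed A] [Algebra.IsAlgebraic ℚ A]

lemma fix_mem {α : A} {κ : Gal(A/ℚ)} (h : κ α = α) {x : A} (hx : x ∈ ℚ⟮α⟯) : κ x = x := by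
  induction hx using IntermediateField.adjoin_induction with
  | mem x hx =>
    rw [Set.mem_singleton_iff] at hx
    rw [hx, h]
  | algebraMap x => exact κ.commutes x
  | add x y _ _ hx hy => rw [map_add, hx, hy]
  | inv x _ hx => rw [map_inv₀, hx]
  | mul x y _ _ hx hy => rw [map_mul, hx, hy]

lemma step {α β : A} (hβ : β ∈ ℚ⟮α⟯) (hβ0 : β ≠ 0) {k : ℕ}
    (hfix : ∀ (ζ w : A) (κ : Gal(A/ℚ)), IsPrimitiveRoot ζ (2 ^ k) → w ^ 2 ^ k = β → κ α = α →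
      κ ζ = ζ → κ w = w) :
    ∃ j : ℕ, 1 ≤ j ∧ j ≤ (minpoly ℚ α).natDegree ∧ ∃ y : A, y ∈ ℚ⟮α⟯ ∧
      y ^ 2 ^ k * β = β ^ 5 ^ j := by
  have : IsAlgClosure ℚ A := ⟨inferInstance, inferInstance⟩
  have hN : Normal ℚ A := IsAlgClosure.normal ℚ A
  have hGal : IsGalois ℚ A := ⟨⟩
  have : NeZero ((2 ^ k : ℕ) : A) := ⟨by exact_mod_cast (by positivity : (2 ^ k : ℕ) ≠ 0)⟩
  obtain ⟨ζ, hζ⟩ := HasEnoughRootsOfUnity.exists_primitiveRoot A (2 ^ k)
  have : NeZero (2 ^ k) := ⟨by positivity⟩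
  obtain ⟨s, hs⟩ : ∃ s : A, s ^ 2 ^ k = β :=
    IsAlgClosed.exists_pow_nat_eq _ (by positivity)
  have hs0 : s ≠ 0 := by
    rintro rfl
    rw [zero_pow (by positivity)] at hs
    exact hβ0 hs.symm
  obtain ⟨τ, hτ⟩ := ex_tau hζ
  obtain ⟨j, hj1, hjd, hj⟩ := ex_pow τ α
  set σ := τ ^ j with hσ
  have hσζ : σ ζ = ζ ^ 5 ^ j := pow_tau hζ hτ j
  have hσβ : σ β = β := fix_mem hj hβ
  have hun : ∀ x : A, x ^ 2 ^ k = 1 → ∃ i, ζ ^ i = x := fun x hx => by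
    obtain ⟨i, -, hi⟩ := hζ.eq_pow_of_pow_eq_one hx
    exact ⟨i, hi⟩
  have hsa : σ⁻¹ α = α := by
    have h1 : σ⁻¹ (σ α) = α := AlgEquiv.symm_apply_apply σ α
    rwa [hj] at h1
  have hσs0 : σ s ≠ 0 := by
    rw [Ne, EmbeddingLike.map_eq_zero_iff]
    exact hs0
  refine ⟨j, hj1, hjd, s ^ 5 ^ j / σ s, ?_, ?_⟩
  · rw [← InfiniteGalois.fixedField_fixingSubgroup ℚ⟮α⟯, IntermediateField.mem_fixedField_iff]
    intro ρ hρ
    have hρα : ρ α = α :=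
      (IntermediateField.mem_fixingSubgroup_iff _ ρ).1 hρ α (mem_adjoin_simple_self ℚ α)
    have hρβ : ρ β = β := fix_mem hρα hβ
    have hρa : ρ⁻¹ α = α := by
      have h1 : ρ⁻¹ (ρ α) = α := AlgEquiv.symm_apply_apply ρ α
      rwa [hρα] at h1
    have hcom : ρ (σ s) = σ (ρ s) := by
      have h1 := hfix ζ (σ (ρ s)) (ρ * σ * ρ⁻¹ * σ⁻¹) hζ ?_ ?_ ?_
      · have e1 : (ρ * σ * ρ⁻¹ * σ⁻¹) (σ (ρ s)) = ρ (σ (ρ⁻¹ (σ⁻¹ (σ (ρ s))))) := rfl
        have e2 : σ⁻¹ (σ (ρ s)) = ρ s := AlgEquiv.symm_apply_apply σ _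
        have e3 : ρ⁻¹ (ρ s) = s := AlgEquiv.symm_apply_apply ρ _
        rw [e1, e2, e3] at h1
        exact h1
      · rw [← map_pow, ← map_pow, hs, hρβ, hσβ]
      · change ρ (σ (ρ⁻¹ (σ⁻¹ α))) = α
        rw [hsa, hρa, hj, hρα]
      · change ρ (σ (ρ⁻¹ (σ⁻¹ ζ))) = ζ
        obtain ⟨i, hi⟩ := hun (ρ⁻¹ (σ⁻¹ ζ)) (by rw [← map_pow, ← map_pow, hζ.pow_eq_one, map_one,
          map_one])
        obtain ⟨c, hc⟩ := hun (ρ ζ) (by rw [← map_pow, hζ.pow_eq_one, map_one])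
        have e1 : ρ (σ (ζ ^ i)) = σ (ρ (ζ ^ i)) := by
          rw [map_pow, map_pow, map_pow, map_pow, hσζ, map_pow, ← hc, map_pow, hσζ]
          ring
        rw [← hi, e1, hi]
        have e2 : ρ (ρ⁻¹ (σ⁻¹ ζ)) = σ⁻¹ ζ := AlgEquiv.apply_symm_apply ρ _
        rw [e2]
        exact AlgEquiv.apply_symm_apply σ _
    obtain ⟨b, hb⟩ := hun (ρ s / s) (by
      rw [div_pow, ← map_pow, hs, hρβ, div_self hβ0])
    have hb' : ρ s = ζ ^ b * s := by
      rw [hb, div_mul_cancel₀ _ hs0]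
    rw [map_div₀, hcom, map_pow, hb', map_mul, map_pow, hσζ]
    have hz : ζ ≠ 0 := hζ.ne_zero (by positivity)
    rw [mul_pow, ← pow_mul, ← pow_mul, mul_comm b, mul_div_mul_left _ _ (pow_ne_zero _ hz)]
  · rw [div_pow, ← map_pow, hs, hσβ, ← pow_mul, mul_comm (5 ^ j), pow_mul, hs,
      div_mul_cancel₀ _ hβ0]

/-- **The automorphism**, general case. -/
theorem ex_kappa' {α β : A} (hβ : β ∈ ℚ⟮α⟯) (hβ0 : β ≠ 0) (hβ1 : ∀ n : ℕ, 0 < n → β ^ n ≠ 1) :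
    ∃ (k : ℕ) (ζ w : A) (κ : Gal(A/ℚ)), 1 ≤ k ∧ IsPrimitiveRoot ζ (2 ^ k) ∧ w ^ 2 ^ k = β ∧
      κ α = α ∧ κ ζ = ζ ∧ κ w ≠ w := by
  classical
  by_contra hcon
  push Not at hcon
  have hint : IsIntegral ℚ α := Algebra.IsIntegral.isIntegral α
  set d := (minpoly ℚ α).natDegree with hd
  have hfd : FiniteDimensional ℚ ℚ⟮α⟯ := IntermediateField.adjoin.finiteDimensional hint
  have hNF : NumberField ℚ⟮α⟯ := ⟨⟩
  set β' : ℚ⟮α⟯ := ⟨β, hβ⟩ with hβ'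
  have hβ'0 : β' ≠ 0 := by
    intro h
    apply hβ0
    exact congrArg (fun x : ℚ⟮α⟯ => (x : A)) h
  have hβ'1 : ∀ n : ℕ, 0 < n → β' ^ n ≠ 1 := by
    intro n hn h
    apply hβ1 n hn
    exact congrArg (fun x : ℚ⟮α⟯ => (x : A)) h
  have h1 : ∀ k : ℕ, ∃ (j : ℕ) (y : ℚ⟮α⟯), 1 ≤ k → 1 ≤ j ∧ j ≤ d ∧ y ^ 2 ^ k * β' = β' ^ 5 ^ j := by
    intro k
    by_cases hk : 1 ≤ k
    · obtain ⟨j, hj1, hjd, y, hy, hyk⟩ := step hβ hβ0 (k := k)
        (fun ζ w κ h1 h2 h3 h4 => hcon k ζ w κ hk h1 h2 h3 h4)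
      refine ⟨j, ⟨y, hy⟩, fun _ => ⟨hj1, hjd, ?_⟩⟩
      apply Subtype.ext
      push_cast
      exact hyk
    · exact ⟨0, 0, fun h => absurd h hk⟩
  choose J Y hJY using h1
  obtain ⟨b, hb0, hbβ⟩ : ∃ b : ℤ, b ≠ 0 ∧ IsIntegral ℤ (b • β') := by
    have h2 : IsAlgebraic ℤ β' := by
      rw [IsFractionRing.isAlgebraic_iff ℤ ℚ]
      exact Algebra.IsAlgebraic.isAlgebraic β'
    exact h2.exists_integral_multiple
  set B : ℝ := |(b : ℝ)| * (1 + ∑ φ : ℚ⟮α⟯ →+* ℂ, ‖φ β'‖) with hB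
  have hfin := NumberField.Embeddings.finite_of_norm_le ℚ⟮α⟯ ℂ B
  have hmaps : Set.MapsTo (fun k : ℕ => (J k, (b : ℚ⟮α⟯) * Y k)) (Set.Ici (5 ^ d))
      (Set.Iic d ×ˢ {x : ℚ⟮α⟯ | IsIntegral ℤ x ∧ ∀ φ : ℚ⟮α⟯ →+* ℂ, ‖φ x‖ ≤ B}) := by
    intro k hk
    rw [Set.mem_Ici] at hk
    have h5 : 0 < 5 ^ d := by positivity
    obtain ⟨hj1, hjd, hy⟩ := hJY k (by omega)
    have h5j : 5 ^ J k ≤ 5 ^ d := Nat.pow_le_pow_right (by norm_num) hjd
    have h5j' : 0 < 5 ^ J k := by positivity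
    have h2k : k < 2 ^ k := Nat.lt_two_pow_self
    obtain ⟨m, hm⟩ : ∃ m, 5 ^ J k = m + 1 := ⟨5 ^ J k - 1, by omega⟩
    have hy2 : Y k ^ 2 ^ k = β' ^ m := by
      rw [hm, pow_succ] at hy
      exact mul_right_cancel₀ hβ'0 hy
    obtain ⟨r, hr⟩ : ∃ r, 2 ^ k = m + r := ⟨2 ^ k - m, by omega⟩
    refine ⟨hjd, ?_, fun φ => ?_⟩
    · apply IsIntegral.of_pow (n := 2 ^ k) (by positivity)
      have e1 : ((b : ℚ⟮α⟯) * Y k) ^ 2 ^ k = (b : ℚ⟮α⟯) ^ r * (b • β') ^ m := by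
        rw [mul_pow, hy2, hr, zsmul_eq_mul, mul_pow]
        ring
      change IsIntegral ℤ (((b : ℚ⟮α⟯) * Y k) ^ 2 ^ k)
      rw [e1]
      refine IsIntegral.mul (IsIntegral.pow ?_ _) (hbβ.pow _)
      exact isIntegral_algebraMap (R := ℤ) (x := b)
    · have e1 : ‖φ (Y k)‖ ^ 2 ^ k = ‖φ β'‖ ^ m := by
        rw [← norm_pow, ← map_pow, hy2, map_pow, norm_pow]
      have e2 : ‖φ (Y k)‖ ≤ 1 + ‖φ β'‖ := by
        apply le_of_pow_le_pow_left₀ (n := 2 ^ k) (by positivity) (by positivity)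
        rw [e1]
        calc ‖φ β'‖ ^ m ≤ (1 + ‖φ β'‖) ^ m := by
              apply pow_le_pow_left₀ (norm_nonneg _)
              linarith
          _ ≤ (1 + ‖φ β'‖) ^ 2 ^ k := by
              apply pow_le_pow_right₀
              · linarith [norm_nonneg (φ β')]
              · omega
      have e3 : ‖φ β'‖ ≤ ∑ φ : ℚ⟮α⟯ →+* ℂ, ‖φ β'‖ :=
        Finset.single_le_sum (f := fun φ : ℚ⟮α⟯ →+* ℂ => ‖φ β'‖) (fun _ _ => norm_nonneg _)
          (Finset.mem_univ φ)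
      change ‖φ ((b : ℚ⟮α⟯) * Y k)‖ ≤ B
      rw [map_mul, norm_mul, map_intCast, Complex.norm_intCast, hB]
      apply mul_le_mul_of_nonneg_left _ (abs_nonneg _)
      linarith
  obtain ⟨k, hk, k', hk', hne, heq⟩ := Set.Infinite.exists_ne_map_eq_of_mapsTo
    (Set.Ici_infinite _) hmaps ((Set.finite_Iic d).prod hfin)
  have h5 : 0 < 5 ^ d := by positivity
  rw [Set.mem_Ici] at hk hk'
  obtain ⟨hj1, hjd, hy⟩ := hJY k (by omega)
  obtain ⟨hj1', hjd', hy'⟩ := hJY k' (by omega)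
  have hbK : (b : ℚ⟮α⟯) ≠ 0 := by exact_mod_cast hb0
  simp only [Prod.mk.injEq] at heq
  obtain ⟨hJ, hYY⟩ := heq
  have hYk : Y k = Y k' := mul_left_cancel₀ hbK hYY
  have key : ∀ (y : ℚ⟮α⟯) (a c j : ℕ), a < c → 1 ≤ j → y ^ 2 ^ a * β' = β' ^ 5 ^ j →
      y ^ 2 ^ c * β' = β' ^ 5 ^ j → False := by
    intro y a c j hac hj h1 h2
    have h3 : y ^ 2 ^ a = y ^ 2 ^ c := mul_right_cancel₀ hβ'0 (h1.trans h2.symm)
    have h4 : 2 ^ a < 2 ^ c := Nat.pow_lt_pow_right (by norm_num) hac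
    obtain ⟨n, hn⟩ : ∃ n, 2 ^ c = 2 ^ a + n := ⟨2 ^ c - 2 ^ a, by omega⟩
    have hy0 : y ^ 2 ^ a ≠ 0 := by
      intro h
      rw [h, zero_mul] at h1
      exact pow_ne_zero _ hβ'0 h1.symm
    have h6 : y ^ n = 1 := by
      rw [hn, pow_add] at h3
      have h7 : y ^ 2 ^ a * 1 = y ^ 2 ^ a * y ^ n := by rw [mul_one]; exact h3
      exact (mul_left_cancel₀ hy0 h7).symm
    have h5j : 5 ^ 1 ≤ 5 ^ j := Nat.pow_le_pow_right (by norm_num) hj
    obtain ⟨m, hm⟩ : ∃ m, 5 ^ j = m + 1 := ⟨5 ^ j - 1, by omega⟩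
    have h7 : y ^ 2 ^ a = β' ^ m := by
      rw [hm, pow_succ] at h1
      exact mul_right_cancel₀ hβ'0 h1
    apply hβ'1 (m * n) (Nat.mul_pos (by omega) (by omega))
    rw [pow_mul, ← h7, ← pow_mul, mul_comm, pow_mul, h6, one_pow]
  rcases lt_or_gt_of_ne hne with h | h
  · exact key (Y k) k k' (J k) h hj1 hy (by rw [hYk, hJ]; exact hy')
  · exact key (Y k') k' k (J k') h hj1' hy' (by rw [← hYk, ← hJ]; exact hy)

end

/-- the primes `q` modulo which `F` has a root of even order -/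
def QA (F : ℤ[X]) : Set ℕ :=
  {q | q.Prime ∧ ∃ x : ZMod q, (F.map (Int.castRingHom (ZMod q))).eval x = 0 ∧ ∃ j, x ^ j = -1}

/-- **Primes modulo which `F` has a root of even order.** -/
theorem div_A' {A : Type} [Field A] [CharZero A] [IsAlgClosed A] [Algebra.IsAlgebraic ℚ A]
    (hL : ∀ S : Set A, S.Finite → ∃ (L : IntermediateField ℚ A), S ⊆ L ∧ NumberField L ∧
      IsGalois ℚ L) {F : ℤ[X]} (hF0 : F.eval 0 ≠ 0) {α : A} (hα : aeval α F = 0)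
    (hα1 : ∀ n : ℕ, 0 < n → α ^ n ≠ 1) :
    ¬ Summable (fun n : ℕ => (QA F).indicator (fun n : ℕ => (1 : ℝ) / n) n) := by
  classical
  have : IsAlgClosure ℚ A := ⟨inferInstance, inferInstance⟩
  have hN : Normal ℚ A := IsAlgClosure.normal ℚ A
  have hGal : IsGalois ℚ A := ⟨⟩
  have hα0 : α ≠ 0 := by
    rintro rfl
    have h1 : aeval (0 : A) F = ((F.eval 0 : ℤ) : A) := by
      have h2 := Polynomial.aeval_algebraMap_apply A (0 : ℤ) F
      rw [map_zero, coe_aeval_eq_eval] at h2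
      rw [h2]
      rfl
    rw [h1, Int.cast_eq_zero] at hα
    exact hF0 hα
  have hFne : F ≠ 0 := by
    rintro rfl
    simp at hF0
  have hlc : F.leadingCoeff ≠ 0 := by
    rwa [Ne, leadingCoeff_eq_zero]
  obtain ⟨k, ζ, w, κ, hk, hζ, hw, hκα, hκζ, hκw⟩ := ex_kappa'
    (mem_adjoin_simple_self ℚ α) hα0 hα1
  have hw0 : w ≠ 0 := by
    rintro rfl
    rw [zero_pow (by positivity)] at hw
    exact hα0 hw.symm
  obtain ⟨ξ, hξ⟩ : ∃ ξ : A, ξ = κ w / w := ⟨_, rfl⟩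
  have hκw' : κ w = ξ * w := by rw [hξ, div_mul_cancel₀ _ hw0]
  have hξk : ξ ^ 2 ^ k = 1 := by
    rw [hξ, div_pow, ← map_pow, hw, hκα, div_self hα0]
  have hξ1 : ξ ≠ 1 := by
    intro h
    rw [h, one_mul] at hκw'
    exact hκw hκw'
  obtain ⟨i, hi⟩ := half_order hξk hξ1
  have hζh : ζ ^ 2 ^ (k - 1) = -1 := by
    have h1 : (ζ ^ 2 ^ (k - 1)) ^ 2 = 1 := by
      rw [← pow_mul, ← pow_succ, Nat.sub_add_cancel hk, hζ.pow_eq_one]
    rcases sq_eq_one_iff.1 h1 with h2 | h2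
    · exfalso
      have h3 := Nat.le_of_dvd (by positivity) ((hζ.pow_eq_one_iff_dvd _).1 h2)
      have h4 : 2 ^ (k - 1) < 2 ^ k := Nat.pow_lt_pow_right (by norm_num) (by omega)
      omega
    · exact h2
  obtain ⟨L, hSL, hLN, hdiv⟩ := frob_lift κ ({α, ζ, w, ξ} : Set A) (by simp) (hL _ (by simp))
  have hαL : α ∈ L := hSL (by simp)
  have hζL : ζ ∈ L := hSL (by simp)
  have hwL : w ∈ L := hSL (by simp)
  have hξL : ξ ∈ L := hSL (by simp)
  -- integral elements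
  have hαg : aeval (⟨α, hαL⟩ : L) F = 0 := by
    apply Subtype.ext
    have h1 : ((aeval (⟨α, hαL⟩ : L) F : L) : A) = aeval α F := by
      have := (Polynomial.aeval_algebraMap_apply A (⟨α, hαL⟩ : L) F)
      exact this.symm
    rw [h1, hα]
    rfl
  obtain ⟨y, hy⟩ : ∃ y : 𝓞 L, (y : L) = F.leadingCoeff • (⟨α, hαL⟩ : L) :=
    ⟨⟨_, isIntegral_leadingCoeff_smul F _ hαg⟩, rfl⟩
  have hyL : (y : L) = (F.leadingCoeff : L) * (⟨α, hαL⟩ : L) := by
    rw [hy, zsmul_eq_mul]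
  have hyA : ((y : L) : A) = (F.leadingCoeff : A) * α := by
    rw [hyL]
    push_cast
    rfl
  have mk : ∀ (x : A) (hx : x ∈ L) (m : ℕ) (c : 𝓞 L), m ≠ 0 → x ^ m = ((c : L) : A) →
      ∃ z : 𝓞 L, ((z : L) : A) = x ∧ z ^ m = c := by
    intro x hx m c hm hxm
    have h2 : (⟨x, hx⟩ : L) ^ m = (c : L) := by
      apply Subtype.ext
      push_cast
      exact hxm
    have hsint : IsIntegral ℤ (⟨x, hx⟩ : L) := by
      apply IsIntegral.of_pow (n := m) (Nat.pos_of_ne_zero hm)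
      rw [h2]
      exact c.2
    refine ⟨⟨⟨x, hx⟩, hsint⟩, rfl, ?_⟩
    apply RingOfIntegers.coe_injective
    rw [map_pow]
    exact h2
  obtain ⟨z, hz1, hz2⟩ := mk ζ hζL (2 ^ (k - 1)) (-1) (by positivity) (by push_cast; exact hζh)
  have hcast : (((F.leadingCoeff : 𝓞 L) : L) : A) = (F.leadingCoeff : A) := by simp
  obtain ⟨v, hv1, hv2⟩ := mk ((F.leadingCoeff : A) * w) (mul_mem (intCast_mem L _) hwL) (2 ^ k)
    ((F.leadingCoeff : 𝓞 L) ^ (2 ^ k - 1) * y) (by positivity) (by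
      push_cast
      rw [hyA, mul_pow, hw]
      have h1 : (F.leadingCoeff : A) ^ 2 ^ k = (F.leadingCoeff : A) ^ (2 ^ k - 1) *
          F.leadingCoeff := by
        rw [← pow_succ, Nat.sub_add_cancel (Nat.one_le_pow _ _ (by norm_num))]
      have h2 : (((F.leadingCoeff : ℤ) : L) : A) = (F.leadingCoeff : A) := by push_cast; rfl
      rw [h1]
      simp only [map_intCast, h2]
      ring)
  obtain ⟨x, hx1, hx2⟩ := mk ξ hξL (2 ^ i) (-1) (by positivity) (by push_cast; exact hi)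
  set T0 : Set ℕ := ({q : ℕ | (q : ℤ) ∣ F.leadingCoeff} ∪ {q : ℕ | (q : ℤ) ∣ F.eval 0}) ∪ {2}
    with hT0
  have hfin : T0.Finite := by
    refine Set.Finite.union (Set.Finite.union ?_ ?_) (by simp)
    · apply (Set.finite_Icc 0 F.leadingCoeff.natAbs).subset
      intro q hq
      rw [Set.mem_setOf_eq, Int.natCast_dvd] at hq
      exact ⟨Nat.zero_le _, Nat.le_of_dvd (Int.natAbs_pos.mpr hlc) hq⟩
    · apply (Set.finite_Icc 0 (F.eval 0).natAbs).subset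
      intro q hq
      rw [Set.mem_setOf_eq, Int.natCast_dvd] at hq
      exact ⟨Nat.zero_le _, Nat.le_of_dvd (Int.natAbs_pos.mpr hF0) hq⟩
  refine Pool.Agent.TH888.B1.diverges_mono ?_ (Pool.Agent.TH888.B1.diverges_diff hfin hdiv)
  rintro q ⟨⟨hqF, φ, hφ⟩, hql⟩
  rw [hT0, Set.mem_union, Set.mem_union, Set.mem_singleton_iff] at hql
  push Not at hql
  obtain ⟨⟨hql, hqF0⟩, hq2⟩ := hql
  rw [Set.mem_setOf_eq] at hql hqF0
  have hq : q.Prime := hqF.out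
  have hq3 : 2 < q := lt_of_le_of_ne hq.two_le (Ne.symm hq2)
  have hF3 : Fact (2 < q) := ⟨hq3⟩
  set Fq := AlgebraicClosure (ZMod q) with hFq
  have hne : (-1 : Fq) ≠ 1 := by
    intro h
    have h1 : (-1 : ZMod q) = 1 := by
      apply (algebraMap (ZMod q) Fq).injective
      rw [map_neg, map_one]
      exact h
    exact ZMod.neg_one_ne_one h1
  have hlq : (F.leadingCoeff : ZMod q) ≠ 0 := by
    rwa [Ne, ZMod.intCast_zmod_eq_zero_iff_dvd]
  have h2 : φ y = φ y ^ q := by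
    apply hφ y y
    rw [hyA, map_mul, map_intCast, hκα]
  obtain ⟨x0, hx0⟩ := W54.ChTor.frob_fixed q (φ y) h2.symm
  have hroot := Pool.Agent.TH888.B1.root_of_hom φ F _ hαg y F.leadingCoeff hyL hql x0 hx0
  have hx00 : x0 ≠ 0 := by
    intro h
    rw [h, zero_div] at hroot
    apply hqF0
    rw [← ZMod.intCast_zmod_eq_zero_iff_dvd]
    have h8 : ((F.eval 0 : ℤ) : ZMod q) =
        (F.map (Int.castRingHom (ZMod q))).eval (((0 : ℤ)) : ZMod q) := by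
      rw [Polynomial.eval_intCast_map]
      rfl
    rw [h8]
    simpa using hroot
  refine ⟨hq, x0 / (F.leadingCoeff : ZMod q), hroot, ?_⟩
  -- the order
  have hz3 : φ z ^ 2 ^ (k - 1) = -1 := by
    rw [← map_pow, hz2]
    simp
  have hx3 : φ x ^ 2 ^ i = -1 := by
    rw [← map_pow, hx2]
    simp
  have hlF : (F.leadingCoeff : Fq) ≠ 0 := by
    intro h
    apply hlq
    apply (algebraMap (ZMod q) Fq).injective
    rw [map_intCast, map_zero]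
    exact h
  have hv3 : φ v ^ 2 ^ k = (F.leadingCoeff : Fq) ^ (2 ^ k - 1) * φ y := by
    rw [← map_pow, hv2, map_mul, map_pow, map_intCast]
  have hy0 : φ y ≠ 0 := by
    rw [← hx0]
    intro h
    apply hx00
    apply (algebraMap (ZMod q) Fq).injective
    rw [h, map_zero]
  have hz4 : φ z = φ z ^ q := hφ z z (by rw [hz1, hκζ])
  have hv4 : φ (x * v) = φ v ^ q := hφ v (x * v) (by
    push_cast
    rw [hv1, hx1, map_mul, map_intCast, hκw']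
    ring)
  rw [map_mul] at hv4
  have hz0 : φ z ≠ 0 := by
    intro h
    rw [h, zero_pow (by positivity)] at hz3
    exact neg_ne_zero.2 one_ne_zero hz3.symm
  have hv0 : φ v ≠ 0 := by
    intro h
    rw [h, zero_pow (by positivity)] at hv3
    exact mul_ne_zero (pow_ne_zero _ hlF) hy0 hv3.symm
  have hq1 : q = (q - 1) + 1 := by omega
  have hz5 : φ z ^ (q - 1) = 1 := by
    have h1 : φ z ^ (q - 1) * φ z = 1 * φ z := by
      rw [← pow_succ, ← hq1, one_mul, ← hz4]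
    exact mul_right_cancel₀ hz0 h1
  have hv5 : φ v ^ (q - 1) = φ x := by
    have h1 : φ v ^ (q - 1) * φ v = φ x * φ v := by
      rw [← pow_succ, ← hq1, hv4]
    exact mul_right_cancel₀ hv0 h1
  have hord : orderOf (φ z) = 2 ^ k := by
    have h1 : φ z ^ 2 ^ k = 1 := by
      have h2 : 2 ^ k = 2 ^ (k - 1) * 2 := by rw [← pow_succ, Nat.sub_add_cancel hk]
      rw [h2, pow_mul, hz3]
      ring
    have h3 : k = (k - 1) + 1 := by omega
    rw [h3]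
    apply orderOf_eq_prime_pow
    · rw [hz3]
      exact hne
    · rw [← h3]
      exact h1
  obtain ⟨m, hm⟩ : 2 ^ k ∣ q - 1 := by
    rw [← hord]
    exact orderOf_dvd_of_pow_eq_one hz5
  have hl5 : (F.leadingCoeff : Fq) ^ (q - 1) = 1 := by
    have h1 := ZMod.pow_card_sub_one_eq_one hlq
    have h3 := congrArg (algebraMap (ZMod q) Fq) h1
    rw [map_pow, map_intCast, map_one] at h3
    exact h3
  set v' : Fq := φ v / (F.leadingCoeff : Fq) with hv'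
  have hv6 : v' ^ 2 ^ k = algebraMap (ZMod q) Fq (x0 / (F.leadingCoeff : ZMod q)) := by
    rw [hv', div_pow, hv3, map_div₀, hx0, map_intCast, div_eq_div_iff (pow_ne_zero _ hlF) hlF]
    have h1 : (F.leadingCoeff : Fq) ^ 2 ^ k = (F.leadingCoeff : Fq) ^ (2 ^ k - 1) *
        F.leadingCoeff := by
      rw [← pow_succ, Nat.sub_add_cancel (Nat.one_le_pow _ _ (by norm_num))]
    rw [h1]
    ring
  have hv7 : v' ^ (q - 1) = φ x := by
    rw [hv', div_pow, hv5, hl5, div_one]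
  refine ⟨m * 2 ^ i, ?_⟩
  apply (algebraMap (ZMod q) Fq).injective
  rw [map_pow, map_neg, map_one, ← hv6, ← pow_mul, ← mul_assoc, ← hm, pow_mul, hv7, hx3]

theorem div_A {F : ℤ[X]} (hF0 : F.eval 0 ≠ 0) {α : AlgebraicClosure ℚ} (hα : aeval α F = 0)
    (hα1 : ∀ n : ℕ, 0 < n → α ^ n ≠ 1) :
    ¬ Summable (fun n : ℕ => (QA F).indicator (fun n : ℕ => (1 : ℝ) / n) n) := by
  have := Pool.Agent.W688.VT.algInst
  exact div_A' (fun S hS => Pool.Agent.W688.VT.exL S hS) hF0 hα hα1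

end Pool.Agent.T2H18.PO
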