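import Pool.Agent.T2H18.PO.Gal3

/-!
# Primes with a root of `g` modulo which `d` is not a square
-/

set_option autoImplicit false

namespace Pool.Agent.T2H18.PO

open Polynomial IntermediateField NumberField Pool.Agent.W401.Cheb Pool.Agent.H771R2.Dens

/-- the primes `r` modulo which `g` has a root and `d` is not a square -/
def NS (g : ℤ[X]) (d : ℤ) : Set ℕ :=
  {r | r.Prime ∧ ¬ IsSquare ((d : ℤ) : ZMod r) ∧ ∃ a : ℕ, (r : ℤ) ∣ g.eval (a : ℤ)}

lemma sqrt_notMem {A : Type} [Field A] [CharZero A] [Algebra.IsAlgebraic ℚ A] {P : ℚ[X]}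
    (hP : Irreducible P) {d : ℤ} (hd : ¬ IsSquare ((d : ℤ) : AdjoinRoot P)) {α s : A}
    (hα : aeval α P = 0) (hs : s ^ 2 = (d : A)) : s ∉ ℚ⟮α⟯ := by
  intro hsK
  have hint : IsIntegral ℚ α := Algebra.IsIntegral.isIntegral α
  have h1 : s ∈ Algebra.adjoin ℚ {α} := by
    rw [← adjoin_simple_toSubalgebra_of_isAlgebraic hint.isAlgebraic]
    exact hsK
  rw [Algebra.adjoin_singleton_eq_range_aeval] at h1
  obtain ⟨Q, hQ⟩ := h1
  have hQ' : aeval α Q = s := hQ
  have h2 : aeval α (Q ^ 2 - C (d : ℚ)) = 0 := by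
    rw [map_sub, map_pow, hQ', hs, aeval_C, map_intCast, sub_self]
  have h3 := minpoly.dvd ℚ α h2
  have h4 := minpoly.eq_of_irreducible hP hα
  have h5 : P ∣ Q ^ 2 - C (d : ℚ) := (Dvd.intro _ h4).trans h3
  apply hd
  have h6 : AdjoinRoot.mk P (Q ^ 2 - C (d : ℚ)) = 0 := AdjoinRoot.mk_eq_zero.2 h5
  refine ⟨AdjoinRoot.mk P Q, ?_⟩
  rw [map_sub, map_pow, sub_eq_zero, AdjoinRoot.mk_C, map_intCast] at h6
  rw [← sq, h6]

theorem div_sq {P : ℚ[X]} (hP : Irreducible P) {d : ℤ}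
    (hd : ¬ IsSquare ((d : ℤ) : AdjoinRoot P)) {g : ℤ[X]} {b : ℚ} (hb : b ≠ 0)
    (hg : g.map (Int.castRingHom ℚ) = C b * P) :
    ¬ Summable (fun n : ℕ => (NS g d).indicator (fun n : ℕ => (1 : ℝ) / n) n) := by
  classical
  have := Pool.Agent.W688.VT.algInst
  set A := AlgebraicClosure ℚ with hA
  have : IsAlgClosure ℚ A := ⟨inferInstance, inferInstance⟩
  have hN : Normal ℚ A := IsAlgClosure.normal ℚ A
  have hGal : IsGalois ℚ A := ⟨⟩
  have hd0 : d ≠ 0 := by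
    rintro rfl
    apply hd
    exact ⟨0, by simp⟩
  obtain ⟨α, hαP⟩ : ∃ α : A, aeval α P = 0 := by
    apply IsAlgClosed.exists_aeval_eq_zero
    exact (degree_pos_of_irreducible hP).ne'
  have hα : aeval α g = 0 := by
    apply Pool.Agent.TH888.B1.aeval_of_map g _ rfl α
    rw [hg, map_mul, hαP, mul_zero]
  have hg0 : g ≠ 0 := by
    rintro rfl
    rw [Polynomial.map_zero] at hg
    exact mul_ne_zero (C_ne_zero.2 hb) hP.ne_zero hg.symm
  have hlc : g.leadingCoeff ≠ 0 := by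
    rwa [Ne, leadingCoeff_eq_zero]
  obtain ⟨s, hs⟩ : ∃ s : A, s ^ 2 = ((d : ℤ) : A) :=
    IsAlgClosed.exists_pow_nat_eq _ (by norm_num)
  have hsK : s ∉ ℚ⟮α⟯ := sqrt_notMem hP hd hαP hs
  obtain ⟨σ, hσ, hσs⟩ : ∃ σ : Gal(A/ℚ), σ ∈ (ℚ⟮α⟯).fixingSubgroup ∧ σ s ≠ s := by
    by_contra hcon
    push Not at hcon
    apply hsK
    rw [← InfiniteGalois.fixedField_fixingSubgroup ℚ⟮α⟯, IntermediateField.mem_fixedField_iff]
    exact hcon
  have hσα : σ α = α :=
    (IntermediateField.mem_fixingSubgroup_iff _ σ).1 hσ α (mem_adjoin_simple_self ℚ α)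
  have hσs' : σ s = -s := by
    have h1 : (σ s) ^ 2 = s ^ 2 := by
      rw [← map_pow, hs, map_intCast]
    rcases sq_eq_sq_iff_eq_or_eq_neg.1 h1 with h2 | h2
    · exact absurd h2 hσs
    · exact h2
  obtain ⟨L, hSL, hLN, hdiv⟩ := frob_lift σ ({α, s} : Set A) (by simp)
    (Pool.Agent.W688.VT.exL _ (by simp))
  have hαL : α ∈ L := hSL (by simp)
  have hsL : s ∈ L := hSL (by simp)
  -- integral elements
  have hαg : aeval (⟨α, hαL⟩ : L) g = 0 := by
    apply Subtype.ext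
    have h1 : ((aeval (⟨α, hαL⟩ : L) g : L) : A) = aeval α g := by
      have := (Polynomial.aeval_algebraMap_apply A (⟨α, hαL⟩ : L) g)
      exact this.symm
    rw [h1, hα]
    rfl
  obtain ⟨y, hy⟩ : ∃ y : 𝓞 L, (y : L) = g.leadingCoeff • (⟨α, hαL⟩ : L) :=
    ⟨⟨_, isIntegral_leadingCoeff_smul g _ hαg⟩, rfl⟩
  have hyL : (y : L) = (g.leadingCoeff : L) * (⟨α, hαL⟩ : L) := by
    rw [hy, zsmul_eq_mul]
  have hyA : ((y : L) : A) = (g.leadingCoeff : A) * α := by
    rw [hyL]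
    push_cast
    rfl
  have hs2 : (⟨s, hsL⟩ : L) ^ 2 = ((d : ℤ) : L) := by
    apply Subtype.ext
    push_cast
    exact hs
  have hsint : IsIntegral ℤ (⟨s, hsL⟩ : L) := by
    apply IsIntegral.of_pow (n := 2) (by norm_num)
    rw [hs2]
    exact isIntegral_algebraMap (R := ℤ) (x := d)
  obtain ⟨z, hz⟩ : ∃ z : 𝓞 L, (z : L) = (⟨s, hsL⟩ : L) := ⟨⟨_, hsint⟩, rfl⟩
  have hz2 : z ^ 2 = ((d : ℤ) : 𝓞 L) := by
    apply RingOfIntegers.coe_injective
    rw [map_pow, map_intCast]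
    change (z : L) ^ 2 = _
    rw [hz, hs2]
  set T0 : Set ℕ := ({p : ℕ | (p : ℤ) ∣ g.leadingCoeff} ∪ {p : ℕ | (p : ℤ) ∣ d}) ∪ {2} with hT0
  have hfin : T0.Finite := by
    refine Set.Finite.union (Set.Finite.union ?_ ?_) (by simp)
    · apply (Set.finite_Icc 0 g.leadingCoeff.natAbs).subset
      intro p hp
      rw [Set.mem_setOf_eq, Int.natCast_dvd] at hp
      exact ⟨Nat.zero_le _, Nat.le_of_dvd (Int.natAbs_pos.mpr hlc) hp⟩
    · apply (Set.finite_Icc 0 d.natAbs).subset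
      intro p hp
      rw [Set.mem_setOf_eq, Int.natCast_dvd] at hp
      exact ⟨Nat.zero_le _, Nat.le_of_dvd (Int.natAbs_pos.mpr hd0) hp⟩
  refine Pool.Agent.TH888.B1.diverges_mono ?_ (Pool.Agent.TH888.B1.diverges_diff hfin hdiv)
  rintro p ⟨⟨hpF, φ, hφ⟩, hpl⟩
  have hp : p.Prime := hpF.out
  rw [hT0, Set.mem_union, Set.mem_union, Set.mem_singleton_iff] at hpl
  push Not at hpl
  obtain ⟨⟨hpl, hpd⟩, hp2⟩ := hpl
  rw [Set.mem_setOf_eq] at hpl hpd
  have hp3 : Fact (2 < p) := ⟨lt_of_le_of_ne hp.two_le (Ne.symm hp2)⟩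
  refine ⟨hp, ?_, ?_⟩
  · rintro ⟨x, hx⟩
    have h1 : φ z ^ p = -φ z := by
      have hzA : ((z : L) : A) = s := by rw [hz]
      rw [← hφ z (-z) (by push_cast; rw [hzA, hσs']), map_neg]
    have h2 : φ z ^ 2 = ((d : ℤ) : AlgebraicClosure (ZMod p)) := by
      rw [← map_pow, hz2, map_intCast]
    have h3 : (algebraMap (ZMod p) (AlgebraicClosure (ZMod p)) x) ^ 2 = φ z ^ 2 := by
      rw [h2, ← map_pow, sq, ← hx, map_intCast]
    have h4 : φ z ^ p = φ z := by
      have h5 : (algebraMap (ZMod p) (AlgebraicClosure (ZMod p)) x) ^ p =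
          algebraMap (ZMod p) (AlgebraicClosure (ZMod p)) x := by
        rw [← map_pow, ZMod.pow_card]
      rcases sq_eq_sq_iff_eq_or_eq_neg.1 h3 with h6 | h6
      · rw [← h6]
        exact h5
      · have h7 : φ z = -(algebraMap (ZMod p) (AlgebraicClosure (ZMod p)) x) := by
          rw [h6, neg_neg]
        rw [h7, Odd.neg_pow (hp.odd_of_ne_two hp2), h5]
    rw [h4] at h1
    have h8 : (2 : AlgebraicClosure (ZMod p)) * φ z = 0 := by linear_combination h1
    have h9 : (2 : AlgebraicClosure (ZMod p)) ≠ 0 := by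
      intro h
      have h10 : (2 : ZMod p) = 0 := by
        apply (algebraMap (ZMod p) (AlgebraicClosure (ZMod p))).injective
        rw [map_ofNat, map_zero]
        exact h
      have h11 : ((2 : ℕ) : ZMod p) = 0 := by exact_mod_cast h10
      rw [ZMod.natCast_eq_zero_iff] at h11
      have := Nat.le_of_dvd (by norm_num) h11
      have := hp3.out
      omega
    have h10 : φ z = 0 := (mul_eq_zero.1 h8).resolve_left h9
    rw [h10, zero_pow two_ne_zero] at h2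
    apply hpd
    rw [← ZMod.intCast_zmod_eq_zero_iff_dvd]
    apply (algebraMap (ZMod p) (AlgebraicClosure (ZMod p))).injective
    rw [map_intCast, map_zero, ← h2]
  · have h2 : φ y = φ y ^ p := by
      apply hφ y y
      rw [hyA, map_mul, map_intCast, hσα]
    obtain ⟨x, hx⟩ := W54.ChTor.frob_fixed p (φ y) h2.symm
    have h3 := Pool.Agent.TH888.B1.root_of_hom φ g _ hαg y g.leadingCoeff hyL hpl x hx
    set w : ZMod p := x / (g.leadingCoeff : ZMod p) with hw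
    refine ⟨w.val, ?_⟩
    rw [← ZMod.intCast_zmod_eq_zero_iff_dvd]
    have h4 : ((g.eval ((w.val : ℕ) : ℤ) : ℤ) : ZMod p) =
        (g.map (Int.castRingHom (ZMod p))).eval (((w.val : ℕ) : ℤ) : ZMod p) := by
      rw [Polynomial.eval_intCast_map]
      rfl
    rw [h4]
    push_cast
    rw [ZMod.natCast_zmod_val]
    exact h3

end Pool.Agent.T2H18.PO
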