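import Pool.Agent.T2H18.PO.Gal

/-!
# The density theorem for the values of polynomials
-/

set_option autoImplicit false

namespace Pool.Agent.T2H18.PO

open Filter Topology Polynomial Pool.Agent.H771R2.Dens

lemma not_dvd_of_lt {r : ℕ} {D : ℤ} (hD : D ≠ 0) (h : D.natAbs < r) : ¬ (r : ℤ) ∣ D := by
  intro h1
  have h2 := Int.natAbs_dvd_natAbs.2 h1
  rw [Int.natAbs_natCast] at h2
  have := Nat.le_of_dvd (Int.natAbs_pos.2 hD) h2
  omega

/-- **Main theorem.** Let `f` be an integer polynomial which is not a constant times a square, and `F`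
a nonconstant integer polynomial. For almost all `t` there are large primes `q ∣ F(t)` and `p` such
that `p` divides `f(t)` with an odd exponent and is a quadratic nonresidue modulo `q`. -/
theorem dens_poly {f : ℤ[X]} (hf0 : f ≠ 0) (hns : ¬ ConstSq f) {F : ℤ[X]} (hF : 0 < F.natDegree)
    (K : ℕ) (S : ℕ → Prop)
    (hS : ∀ t, S t → ∀ q : ℕ, q.Prime → K < q → (q : ℤ) ∣ F.eval (t : ℤ) →
      ∀ (p e : ℕ) (u : ℤ), p.Prime → K < p → Odd e → f.eval (t : ℤ) = (p : ℤ) ^ e * u →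
        ¬ (p : ℤ) ∣ u → (p : ZMod q) ^ (q / 2) = -1 → False) :
    Tendsto (fun N : ℕ => (cnt S N : ℝ) / N) atTop (𝓝 0) := by
  classical
  obtain ⟨g, h, c, D, E, e, A₁, B₁, A₂, B₂, hc, hD, hE, he, hg, hfac, hsep, hgh⟩ :=
    factor hf0 hns
  obtain ⟨K₀, hK₀⟩ := big_R hg
  set B : ℕ := K + c.natAbs + D.natAbs + E.natAbs with hB
  have he0 : e ≠ 0 := by
    rintro rfl
    exact (Nat.not_odd_iff_even.2 (by simp)) he
  -- the roots of `F`
  have hroot : ∀ q : ℕ, ∃ a : ℕ, (q.Prime ∧ q ∈ Pool.Agent.TH888.B1.RootPrimes F) →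
      (q : ℤ) ∣ F.eval (a : ℤ) := by
    intro q
    by_cases hq : q.Prime ∧ q ∈ Pool.Agent.TH888.B1.RootPrimes F
    · obtain ⟨hqp, -, x, hx⟩ := hq
      have hqF : Fact q.Prime := ⟨hqp⟩
      refine ⟨x.val, fun _ => ?_⟩
      rw [← ZMod.intCast_zmod_eq_zero_iff_dvd]
      have h4 : ((F.eval ((x.val : ℕ) : ℤ) : ℤ) : ZMod q) =
          (F.map (Int.castRingHom (ZMod q))).eval (((x.val : ℕ) : ℤ) : ZMod q) := by
        rw [Polynomial.eval_intCast_map]
        rfl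
      rw [h4]
      push_cast
      rw [ZMod.natCast_zmod_val]
      exact hx
    · exact ⟨0, fun h' => absurd h' hq⟩
  choose a ha using hroot
  have hbigQ : Big (fun q => q ∈ Pool.Agent.TH888.B1.RootPrimes F) :=
    big_of_not_summable (Pool.Agent.TH888.B1.rootPrimes_diverges F hF) (fun p hp => ⟨hp.1, hp⟩)
  refine tendsto_zero' S
    (fun q => q ∈ Pool.Agent.TH888.B1.RootPrimes F ∧ K + K₀ < q) a
    (fun q r => ((r : ZMod q) ^ (q / 2) = -1 ∧ ∃ a : ℕ, (r : ℤ) ∣ g.eval (a : ℤ)) ∧ B < r)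
    (Ex g) (hbigQ.large _) ?_ ?_ ?_
  · intro q hq hq'
    exact (hK₀ q hq (by omega)).large B
  · rintro q r hr ⟨⟨-, b, hb⟩, hBr⟩
    refine per_ex hr hb ?_
    intro h1
    apply not_dvd_of_lt hD (show D.natAbs < r by omega)
    have h2 := congrArg (Polynomial.eval (b : ℤ)) hsep
    simp only [eval_add, eval_mul, eval_C] at h2
    rw [← h2]
    exact dvd_add (Dvd.dvd.mul_left hb _) (Dvd.dvd.mul_left h1 _)
  · rintro t hSt q hq ⟨hq', hqK⟩ htq r hr ⟨⟨hrq, -⟩, hBr⟩ hex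
    obtain ⟨u, hu1, hu2⟩ := val_of_ex hfac hgh hr (not_dvd_of_lt hc (by omega))
      (not_dvd_of_lt hE (by omega)) he0 hex
    refine hS t hSt q hq (by omega) ?_ r e u hr (by omega) he hu1 hu2 hrq
    have h1 : (q : ℤ) ∣ (t : ℤ) - (a q : ℤ) := by
      have h2 : (t : ℤ) % q = (a q : ℤ) % q := by exact_mod_cast htq
      exact Int.ModEq.dvd (h2.symm : (a q : ℤ) ≡ (t : ℤ) [ZMOD (q : ℤ)])
    have h2 := eval_mod F h1
    have h3 : F.eval (t : ℤ) = (F.eval (t : ℤ) - F.eval (a q : ℤ)) + F.eval (a q : ℤ) := by ring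
    rw [h3]
    exact dvd_add h2 (ha q ⟨hq, hq'⟩)

end Pool.Agent.T2H18.PO
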