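import Pool.Agent.T2H18.PO.Loc
import Pool.Agent.TH888.B1.PrimeSieve
import Pool.Agent.TH888.B1.Div

/-!
# Sets of primes of relative density zero
-/

set_option autoImplicit false

namespace Pool.Agent.T2H18.PO

open Filter Topology Finset Polynomial

/-- the primes with the property `S` have relative density zero among the primes -/
def PZ (S : ℕ → Prop) : Prop := ∀ ε : ℝ, 0 < ε → ∃ N₀ : ℕ, ∀ N : ℕ, N₀ ≤ N →
  (({t : ℕ | t ≤ N ∧ t.Prime ∧ S t} : Set ℕ).ncard : ℝ) ≤ ε * Nat.primeCounting N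

lemma fin_le (N : ℕ) (S : ℕ → Prop) : ({t : ℕ | t ≤ N ∧ S t} : Set ℕ).Finite :=
  (Set.finite_Iic N).subset fun _ h => h.1

lemma ncard_eq (N : ℕ) (S : ℕ → Prop) [DecidablePred S] :
    ({t : ℕ | t ≤ N ∧ t.Prime ∧ S t} : Set ℕ).ncard =
      ((range (N + 1)).filter (fun t => t.Prime ∧ S t)).card := by
  rw [← Set.ncard_coe_finset]
  congr 1
  ext t
  simp only [Set.mem_ofPred_eq, coe_filter, mem_range, Nat.lt_succ_iff]

theorem PZ.mono {S S' : ℕ → Prop} (h : ∀ t, t.Prime → S t → S' t) (h' : PZ S') : PZ S := by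
  intro ε hε
  obtain ⟨N₀, h0⟩ := h' ε hε
  refine ⟨N₀, fun N hN => le_trans ?_ (h0 N hN)⟩
  norm_cast
  exact Set.ncard_le_ncard (fun t ht => ⟨ht.1, ht.2.1, h t ht.2.1 ht.2.2⟩) (fin_le N _)

theorem PZ.or {S S' : ℕ → Prop} (h : PZ S) (h' : PZ S') : PZ (fun t => S t ∨ S' t) := by
  intro ε hε
  obtain ⟨N₁, h1⟩ := h (ε / 2) (by positivity)
  obtain ⟨N₂, h2⟩ := h' (ε / 2) (by positivity)
  refine ⟨max N₁ N₂, fun N hN => ?_⟩
  have e1 := h1 N (le_of_max_le_left hN)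
  have e2 := h2 N (le_of_max_le_right hN)
  have e3 : ({t : ℕ | t ≤ N ∧ t.Prime ∧ (S t ∨ S' t)} : Set ℕ).ncard ≤
      ({t : ℕ | t ≤ N ∧ t.Prime ∧ S t} : Set ℕ).ncard +
        ({t : ℕ | t ≤ N ∧ t.Prime ∧ S' t} : Set ℕ).ncard := by
    refine le_trans (Set.ncard_le_ncard ?_ ((fin_le N _).union (fin_le N _)))
      (Set.ncard_union_le _ _)
    rintro t ⟨h3, h4, h5 | h5⟩
    · exact Or.inl ⟨h3, h4, h5⟩
    · exact Or.inr ⟨h3, h4, h5⟩
  have e4 : (({t : ℕ | t ≤ N ∧ t.Prime ∧ (S t ∨ S' t)} : Set ℕ).ncard : ℝ) ≤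
      (({t : ℕ | t ≤ N ∧ t.Prime ∧ S t} : Set ℕ).ncard : ℝ) +
        (({t : ℕ | t ≤ N ∧ t.Prime ∧ S' t} : Set ℕ).ncard : ℝ) := by exact_mod_cast e3
  linarith

theorem PZ.false : PZ (fun _ => False) := by
  intro ε hε
  refine ⟨0, fun N _ => ?_⟩
  simp only [and_false]
  have : ({t : ℕ | False} : Set ℕ) = ∅ := by ext; simp
  rw [this, Set.ncard_empty]
  push_cast
  positivity

theorem PZ.exists {ι : Type} (F : Finset ι) {S : ι → ℕ → Prop} (h : ∀ i ∈ F, PZ (S i)) :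
    PZ (fun t => ∃ i ∈ F, S i t) := by
  classical
  induction F using Finset.induction_on with
  | empty => exact PZ.mono (fun t _ ⟨i, hi, _⟩ => by simp at hi) PZ.false
  | insert a F ha ih =>
    refine PZ.mono (fun t _ ⟨i, hi, h'⟩ => ?_)
      (PZ.or (h a (mem_insert_self a F)) (ih fun i hi => h i (mem_insert_of_mem hi)))
    rcases mem_insert.1 hi with rfl | hi
    · exact Or.inl h'
    · exact Or.inr ⟨i, hi, h'⟩

/-- two stages -/
theorem PZ.two {S : ℕ → Prop} {T : ℕ → ℕ → Prop} (Q : Set ℕ) (hQp : ∀ q ∈ Q, q.Prime ∧ q ≠ 2)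
    (hQ : ¬ Summable (fun n : ℕ => Q.indicator (fun n : ℕ => (1 : ℝ) / n) n)) (a : ∀ q, ZMod q)
    (ha : ∀ q ∈ Q, a q ≠ 0) (hT : ∀ q ∈ Q, PZ (T q))
    (hS : ∀ t, t.Prime → S t → ∀ q ∈ Q, (t : ZMod q) = a q → T q t) : PZ S := by
  classical
  intro ε hε
  obtain ⟨F, hF, N₁, hN₁⟩ := Pool.Agent.TH888.B1.prime_avoid Q hQp hQ a ha (ε / 2) (by positivity)
  obtain ⟨N₂, hN₂⟩ := PZ.exists F (fun q hq => hT q (hF q hq)) (ε / 2) (by positivity)
  refine ⟨max N₁ N₂, fun N hN => ?_⟩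
  have h1 := hN₁ N (le_of_max_le_left hN)
  have h2 := hN₂ N (le_of_max_le_right hN)
  rw [← ncard_eq] at h1
  have e3 : ({t : ℕ | t ≤ N ∧ t.Prime ∧ S t} : Set ℕ).ncard ≤
      ({t : ℕ | t ≤ N ∧ t.Prime ∧ ∀ r ∈ F, (t : ZMod r) ≠ a r} : Set ℕ).ncard +
        ({t : ℕ | t ≤ N ∧ t.Prime ∧ ∃ q ∈ F, T q t} : Set ℕ).ncard := by
    refine le_trans (Set.ncard_le_ncard ?_ ((fin_le N _).union (fin_le N _)))
      (Set.ncard_union_le _ _)
    rintro t ⟨h3, h4, h5⟩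
    by_cases h6 : ∀ r ∈ F, (t : ZMod r) ≠ a r
    · exact Or.inl ⟨h3, h4, h6⟩
    · push Not at h6
      obtain ⟨q, hq, h7⟩ := h6
      exact Or.inr ⟨h3, h4, q, hq, hS t h4 h5 q (hF q hq) h7⟩
  have e4 : (({t : ℕ | t ≤ N ∧ t.Prime ∧ S t} : Set ℕ).ncard : ℝ) ≤
      (({t : ℕ | t ≤ N ∧ t.Prime ∧ ∀ r ∈ F, (t : ZMod r) ≠ a r} : Set ℕ).ncard : ℝ) +
        (({t : ℕ | t ≤ N ∧ t.Prime ∧ ∃ q ∈ F, T q t} : Set ℕ).ncard : ℝ) := by exact_mod_cast e3
  linarith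

/-- the primes `t` in a class modulo `r` for which `r ^ 2` divides `g(t)` -/
lemma sq_class : ∃ C : ℝ, 0 < C ∧ ∀ (g : ℤ[X]) (r : ℕ) (b : ZMod r), r.Prime →
    ((derivative g).map (Int.castRingHom (ZMod r))).eval b ≠ 0 → ∃ N₀ : ℕ, ∀ N : ℕ, N₀ ≤ N →
      (({t : ℕ | t ≤ N ∧ t.Prime ∧ (t : ZMod r) = b ∧ (r : ℤ) ^ 2 ∣ g.eval (t : ℤ)} : Set ℕ).ncard
        : ℝ) ≤ C / (r * (r - 1)) * Nat.primeCounting N := by
  classical
  obtain ⟨N₁, hN₁⟩ := Pool.Agent.TH888.B1.primes_in_classes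
  obtain ⟨N₂, hN₂⟩ := Pool.Agent.TH888.B1.pi_lower
  refine ⟨24, by norm_num, fun g r b hr hb => ?_⟩
  have hr0 : 0 < r := hr.pos
  have hrF : Fact r.Prime := ⟨hr⟩
  set B : Finset ℕ := (range (r ^ 2)).filter
    (fun a : ℕ => (a : ZMod r) = b ∧ (r : ℤ) ^ 2 ∣ g.eval (a : ℤ)) with hB
  have hB1 : B.card ≤ 1 := by
    rw [Finset.card_le_one]
    intro x hx y hy
    rw [hB, mem_filter, mem_range] at hx hy
    obtain ⟨hx1, hx2, hx3⟩ := hx
    obtain ⟨hy1, hy2, hy3⟩ := hy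
    have hmod : x % r = y % r := by
      rw [← hy2, ZMod.natCast_eq_natCast_iff'] at hx2
      exact hx2
    have e1 : x = x % r + r * (x / r) := (Nat.mod_add_div x r).symm
    have e2 : y = x % r + r * (y / r) := by rw [hmod]; exact (Nat.mod_add_div y r).symm
    have hd : ¬ (r : ℤ) ∣ (derivative g).eval ((x % r : ℕ) : ℤ) := by
      rw [← ZMod.intCast_zmod_eq_zero_iff_dvd]
      intro h
      apply hb
      have h4 : ((((derivative g).eval ((x % r : ℕ) : ℤ) : ℤ)) : ZMod r) =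
          ((derivative g).map (Int.castRingHom (ZMod r))).eval ((((x % r : ℕ)) : ℤ) : ZMod r) := by
        rw [Polynomial.eval_intCast_map]
        rfl
      rw [h4] at h
      rw [← h]
      congr 1
      push_cast
      rw [← hx2]
    have e3 : x / r < r := by
      rw [Nat.div_lt_iff_lt_mul hr0, ← sq]
      exact hx1
    have e4 : y / r < r := by
      rw [Nat.div_lt_iff_lt_mul hr0, ← sq]
      exact hy1
    have h5 := lift_unique (g := g) hr hd e3 e4 (by rw [← e1]; exact hx3) (by rw [← e2]; exact hy3)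
    rw [e1, e2, h5]
  have hφ : ((r ^ 2 : ℕ).totient : ℝ) = r * (r - 1) := by
    rw [Nat.totient_prime_pow hr (by norm_num)]
    push_cast [Nat.cast_sub hr.one_le]
    ring
  have hr1 : (1 : ℝ) < r := by exact_mod_cast hr.one_lt
  refine ⟨N₁ * r ^ 2 + (r ^ 2) ^ 2 + N₂ + 4, fun N hN => ?_⟩
  have h1 := hN₁ (r ^ 2) B (Nat.pos_of_ne_zero (by positivity)) N (by omega) (by omega) (by omega)
  have h2 := hN₂ N (by omega)
  rw [← ncard_eq, hφ] at h1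
  have h3 : (({t : ℕ | t ≤ N ∧ t.Prime ∧ (t : ZMod r) = b ∧ (r : ℤ) ^ 2 ∣ g.eval (t : ℤ)} :
      Set ℕ).ncard : ℝ) ≤ (({t : ℕ | t ≤ N ∧ t.Prime ∧ t % r ^ 2 ∈ B} : Set ℕ).ncard : ℝ) := by
    norm_cast
    refine Set.ncard_le_ncard ?_ (fin_le N _)
    rintro t ⟨ht1, ht2, ht3, ht4⟩
    refine ⟨ht1, ht2, ?_⟩
    rw [hB, mem_filter, mem_range]
    refine ⟨Nat.mod_lt _ (by positivity), ?_, ?_⟩
    · rw [← ht3, ZMod.natCast_eq_natCast_iff']
      exact Nat.mod_mod_of_dvd t (dvd_pow_self r two_ne_zero)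
    · have h4 : ((r : ℤ) ^ 2) ∣ (t : ℤ) - ((t % r ^ 2 : ℕ) : ℤ) := by
        push_cast
        exact Int.dvd_self_sub_emod
      have h5 := eval_mod g h4
      have h6 : g.eval ((t % r ^ 2 : ℕ) : ℤ) =
        g.eval (t : ℤ) - (g.eval (t : ℤ) - g.eval ((t % r ^ 2 : ℕ) : ℤ)) := by ring
      rw [h6]
      exact dvd_sub ht4 h5
  have hB2 : (B.card : ℝ) ≤ 1 := by exact_mod_cast hB1
  have hrr : (0 : ℝ) < r * (r - 1) := by
    apply mul_pos <;> linarith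
  have hNl : (0 : ℝ) ≤ (N : ℝ) / Real.log N := by positivity
  calc _ ≤ _ := h3
    _ ≤ 12 * ((B.card : ℝ) / (r * (r - 1))) * (N / Real.log N) := h1
    _ ≤ 12 * (1 / (r * (r - 1))) * (2 * (Nat.primeCounting N : ℝ)) := by
        apply mul_le_mul _ h2 hNl (by positivity)
        apply mul_le_mul_of_nonneg_left _ (by norm_num)
        exact div_le_div_of_nonneg_right hB2 hrr.le
    _ = _ := by ring

/-- telescoping -/
lemma sum_tel (B : ℕ) (hB : 1 ≤ B) (F : Finset ℕ) (hF : ∀ r ∈ F, B < r) :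
    ∑ r ∈ F, (1 : ℝ) / (r * (r - 1)) ≤ 1 / B := by
  classical
  obtain ⟨M, hM⟩ : ∃ M, ∀ r ∈ F, r ≤ M := ⟨F.sup id, fun r hr => Finset.le_sup (f := id) hr⟩
  have h1 : F ⊆ Finset.Ioc B (max M B) := by
    intro r hr
    rw [Finset.mem_Ioc]
    exact ⟨hF r hr, (hM r hr).trans (le_max_left _ _)⟩
  have h2 : ∀ n : ℕ, B ≤ n → ∑ r ∈ Finset.Ioc B n, (1 : ℝ) / (r * (r - 1)) ≤ 1 / B - 1 / n := by
    intro n hn
    induction n, hn using Nat.le_induction with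
    | base => simp
    | succ n hn ih =>
      rw [Finset.sum_Ioc_succ_top (by omega)]
      have hn0 : (0 : ℝ) < n := by
        have : 0 < n := by omega
        exact_mod_cast this
      have h3 : (1 : ℝ) / (((n + 1 : ℕ) : ℝ) * (((n + 1 : ℕ) : ℝ) - 1)) =
          1 / n - 1 / ((n + 1 : ℕ) : ℝ) := by
        push_cast
        rw [add_sub_cancel_right]
        field_simp
        ring
      rw [h3]
      linarith
  have h4 := Finset.sum_le_sum_of_subset_of_nonneg (f := fun r : ℕ => (1 : ℝ) / (r * (r - 1))) h1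
    (fun r hr _ => by
      rw [Finset.mem_Ioc] at hr
      have : (1 : ℝ) < r := by exact_mod_cast (by omega : 1 < r)
      have h5 : (0 : ℝ) < r * (r - 1) := by apply mul_pos <;> linarith
      positivity)
  have h5 := h2 (max M B) (le_max_right _ _)
  have h6 : (0 : ℝ) ≤ 1 / ((max M B : ℕ) : ℝ) := by positivity
  linarith

/-- **exact divisibility** -/
theorem PZ.exact (g : ℤ[X]) (R : Set ℕ) (hRp : ∀ r ∈ R, r.Prime ∧ r ≠ 2)
    (hR : ¬ Summable (fun n : ℕ => R.indicator (fun n : ℕ => (1 : ℝ) / n) n)) (b : ∀ r, ZMod r)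
    (hb0 : ∀ r ∈ R, b r ≠ 0)
    (hb : ∀ r ∈ R, (g.map (Int.castRingHom (ZMod r))).eval (b r) = 0)
    (hb' : ∀ r ∈ R, ((derivative g).map (Int.castRingHom (ZMod r))).eval (b r) ≠ 0) :
    PZ (fun t => ∀ r ∈ R, ¬ Ex g r t) := by
  classical
  intro ε hε
  obtain ⟨C, hC, hcl⟩ := sq_class
  obtain ⟨B, hB⟩ := exists_nat_gt (max (2 * C / ε) 1)
  have hB1 : (1 : ℝ) < B := lt_of_le_of_lt (le_max_right _ _) hB
  have hB2 : 2 * C / ε < B := lt_of_le_of_lt (le_max_left _ _) hB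
  have hdiv := Pool.Agent.TH888.B1.diverges_diff (Set.finite_Iic B) hR
  obtain ⟨F, hF, N₁, hN₁⟩ := Pool.Agent.TH888.B1.prime_avoid (R \ Set.Iic B)
    (fun r hr => hRp r hr.1) hdiv b (fun r hr => hb0 r hr.1) (ε / 2) (by positivity)
  have hFN : ∀ r : ℕ, ∃ N₀ : ℕ, r ∈ F → ∀ N : ℕ, N₀ ≤ N →
      (({t : ℕ | t ≤ N ∧ t.Prime ∧ (t : ZMod r) = b r ∧ (r : ℤ) ^ 2 ∣ g.eval (t : ℤ)} :
        Set ℕ).ncard : ℝ) ≤ C / (r * (r - 1)) * Nat.primeCounting N := by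
    intro r
    by_cases hr : r ∈ F
    · obtain ⟨N₀, h⟩ := hcl g r (b r) (hRp r (hF r hr).1).1 (hb' r (hF r hr).1)
      exact ⟨N₀, fun _ => h⟩
    · exact ⟨0, fun h => absurd h hr⟩
  choose N₂ hN₂ using hFN
  refine ⟨max N₁ (F.sup N₂), fun N hN => ?_⟩
  have h1 := hN₁ N (le_of_max_le_left hN)
  rw [← ncard_eq] at h1
  have h2 : ∀ r ∈ F, (({t : ℕ | t ≤ N ∧ t.Prime ∧ (t : ZMod r) = b r ∧
      (r : ℤ) ^ 2 ∣ g.eval (t : ℤ)} : Set ℕ).ncard : ℝ) ≤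
        C / (r * (r - 1)) * Nat.primeCounting N := fun r hr =>
    hN₂ r hr N ((Finset.le_sup hr).trans (le_of_max_le_right hN))
  have e3 : ({t : ℕ | t ≤ N ∧ t.Prime ∧ ∀ r ∈ R, ¬ Ex g r t} : Set ℕ).ncard ≤
      ({t : ℕ | t ≤ N ∧ t.Prime ∧ ∀ r ∈ F, (t : ZMod r) ≠ b r} : Set ℕ).ncard +
        ∑ r ∈ F, ({t : ℕ | t ≤ N ∧ t.Prime ∧ (t : ZMod r) = b r ∧
          (r : ℤ) ^ 2 ∣ g.eval (t : ℤ)} : Set ℕ).ncard := by
    have hfin : (⋃ r ∈ F, ({t : ℕ | t ≤ N ∧ t.Prime ∧ (t : ZMod r) = b r ∧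
          (r : ℤ) ^ 2 ∣ g.eval (t : ℤ)} : Set ℕ)).Finite :=
      Set.Finite.biUnion F.finite_toSet fun r _ => fin_le N _
    refine le_trans (Set.ncard_le_ncard (t := {t : ℕ | t ≤ N ∧ t.Prime ∧ ∀ r ∈ F,
      (t : ZMod r) ≠ b r} ∪ ⋃ r ∈ F, ({t : ℕ | t ≤ N ∧ t.Prime ∧ (t : ZMod r) = b r ∧
          (r : ℤ) ^ 2 ∣ g.eval (t : ℤ)} : Set ℕ)) ?_ ((fin_le N _).union hfin))
      ((Set.ncard_union_le _ _).trans (Nat.add_le_add_left ?_ _))
    · rintro t ⟨h3, h4, h5⟩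
      by_cases h6 : ∀ r ∈ F, (t : ZMod r) ≠ b r
      · exact Or.inl ⟨h3, h4, h6⟩
      · push Not at h6
        obtain ⟨r, hr, h7⟩ := h6
        right
        rw [Set.mem_iUnion₂]
        refine ⟨r, hr, h3, h4, h7, ?_⟩
        by_contra hcon
        refine h5 r (hF r hr).1 ⟨?_, hcon⟩
        rw [← ZMod.intCast_zmod_eq_zero_iff_dvd]
        have h8 : ((g.eval (t : ℤ) : ℤ) : ZMod r) =
            (g.map (Int.castRingHom (ZMod r))).eval (((t : ℕ) : ℤ) : ZMod r) := by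
          rw [Polynomial.eval_intCast_map]
          rfl
        rw [h8]
        push_cast
        rw [h7]
        exact hb r (hF r hr).1
    · exact Finset.set_ncard_biUnion_le _ _
  have e4 : (({t : ℕ | t ≤ N ∧ t.Prime ∧ ∀ r ∈ R, ¬ Ex g r t} : Set ℕ).ncard : ℝ) ≤
      (({t : ℕ | t ≤ N ∧ t.Prime ∧ ∀ r ∈ F, (t : ZMod r) ≠ b r} : Set ℕ).ncard : ℝ) +
        ∑ r ∈ F, (({t : ℕ | t ≤ N ∧ t.Prime ∧ (t : ZMod r) = b r ∧
          (r : ℤ) ^ 2 ∣ g.eval (t : ℤ)} : Set ℕ).ncard : ℝ) := by exact_mod_cast e3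
  have h3 := Finset.sum_le_sum h2
  have h4 : ∑ r ∈ F, C / ((r : ℝ) * (r - 1)) * (Nat.primeCounting N : ℝ) ≤
      ε / 2 * Nat.primeCounting N := by
    rw [← Finset.sum_mul]
    apply mul_le_mul_of_nonneg_right _ (Nat.cast_nonneg _)
    have h5 : ∑ r ∈ F, C / ((r : ℝ) * (r - 1)) = C * ∑ r ∈ F, (1 : ℝ) / (r * (r - 1)) := by
      rw [Finset.mul_sum]
      refine Finset.sum_congr rfl fun r _ => ?_
      ring
    rw [h5]
    have h6 := sum_tel B (by exact_mod_cast hB1.le) F (fun r hr => by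
      have := (hF r hr).2
      rw [Set.mem_Iic, not_le] at this
      exact this)
    have h7 : C * (1 / B) ≤ ε / 2 := by
      rw [mul_one_div, div_le_iff₀ (by linarith)]
      rw [div_lt_iff₀ hε] at hB2
      linarith
    exact (mul_le_mul_of_nonneg_left h6 hC.le).trans h7
  linarith

/-- the quotient tends to zero -/
theorem PZ.tendsto {S : ℕ → Prop} (h : PZ S) :
    Tendsto (fun N : ℕ => (({t : ℕ | t ≤ N ∧ t.Prime ∧ S t} : Set ℕ).ncard : ℝ) /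
      Nat.primeCounting N) atTop (𝓝 0) := by
  rw [Metric.tendsto_atTop]
  intro ε hε
  obtain ⟨N₀, hN₀⟩ := h (ε / 2) (by positivity)
  refine ⟨N₀ + 2, fun N hN => ?_⟩
  have hπ : (0 : ℝ) < Nat.primeCounting N := by
    have : 0 < Nat.primeCounting N := by
      have h1 : Nat.primeCounting 2 ≤ Nat.primeCounting N := Nat.monotone_primeCounting (by omega)
      have h2 : Nat.primeCounting 2 = 1 := by decide
      omega
    exact_mod_cast this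
  rw [Real.dist_eq, sub_zero, abs_of_nonneg (by positivity), div_lt_iff₀ hπ]
  have := hN₀ N (by omega)
  nlinarith

end Pool.Agent.T2H18.PO
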