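import Pool.Agent.T2H18.PO.Main
import Pool.Agent.T2H18.PO.Gal2
import Pool.Agent.T2H18.PO.Primes

/-!
# The density theorems, all integers and primes
-/

set_option autoImplicit false

namespace Pool.Agent.T2H18.PO

open Filter Topology Polynomial Pool.Agent.H771R2.Dens

/-- `f` is the square of a rational polynomial -/
def IsSq (f : ℤ[X]) : Prop := ∃ g : ℚ[X], f.map (Int.castRingHom ℚ) = g ^ 2

/-- `f` is `c * X * g ^ 2` -/
def XSq (f : ℤ[X]) : Prop := ∃ (c : ℚ) (g : ℚ[X]), f.map (Int.castRingHom ℚ) = C c * X * g ^ 2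

/-- there are primes `q ∣ F(t)`, `q > K` and `p` such that `p` divides `f(t)` with an odd exponent and
`-1` is a power of `p` modulo `q` -/
def Test (f F : ℤ[X]) (K t : ℕ) : Prop :=
  ∃ (q p e : ℕ) (u : ℤ), q.Prime ∧ K < q ∧ (q : ℤ) ∣ F.eval (t : ℤ) ∧ p.Prime ∧ Odd e ∧
    f.eval (t : ℤ) = (p : ℤ) ^ e * u ∧ ¬ (p : ℤ) ∣ u ∧ ∃ j, (p : ZMod q) ^ j = -1

lemma const_case {f : ℤ[X]} (hcs : ConstSq f) (hns : ¬ IsSq f) :
    (∀ t : ℤ, f.eval t ≤ 0) ∨ ∃ p : ℕ, p.Prime ∧ ∀ t : ℤ, 0 < f.eval t →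
      ∃ (e : ℕ) (u : ℤ), Odd e ∧ f.eval t = (p : ℤ) ^ e * u ∧ ¬ (p : ℤ) ∣ u := by
  obtain ⟨c, g, hg⟩ := hcs
  have heval : ∀ t : ℤ, ((f.eval t : ℤ) : ℚ) = c * (g.eval (t : ℚ)) ^ 2 := by
    intro t
    have h1 : (f.map (Int.castRingHom ℚ)).eval ((t : ℤ) : ℚ) = ((f.eval t : ℤ) : ℚ) := by
      rw [Polynomial.eval_intCast_map]
      rfl
    rw [← h1, hg]
    simp
  rcases le_or_gt c 0 with hc | hc
  · left
    intro t
    have : ((f.eval t : ℤ) : ℚ) ≤ 0 := by
      rw [heval]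
      nlinarith [sq_nonneg (g.eval (t : ℚ))]
    exact_mod_cast this
  · right
    obtain ⟨a, b, hab, hsq⟩ := Nat.sq_mul_squarefree (c.num.natAbs * c.den)
    have hcnum : 0 < c.num := Rat.num_pos.2 hc
    have hden : (c.den : ℚ) ≠ 0 := by exact_mod_cast c.den_nz
    have hcq : c * (c.den : ℚ) ^ 2 = a * (b : ℚ) ^ 2 := by
      have h1 : c * c.den = c.num := Rat.mul_den_eq_num c
      have h2 : ((c.num.natAbs : ℕ) : ℚ) = c.num := by
        have h2' : ((c.num.natAbs : ℕ) : ℤ) = c.num := Int.natAbs_of_nonneg hcnum.le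
        have h2'' : (((c.num.natAbs : ℕ) : ℤ) : ℚ) = ((c.num : ℤ) : ℚ) := congrArg _ h2'
        rw [← h2'', Int.cast_natCast]
      have h3 : ((b ^ 2 * a : ℕ) : ℚ) = ((c.num.natAbs * c.den : ℕ) : ℚ) := by rw [hab]
      push_cast at h3
      rw [h2] at h3
      linear_combination (c.den : ℚ) * h1 - h3
    have ha1 : a ≠ 1 := by
      rintro rfl
      apply hns
      refine ⟨C ((b : ℚ) / c.den) * g, ?_⟩
      rw [hg, mul_pow, ← C_pow]
      congr 2
      rw [div_pow, eq_div_iff (pow_ne_zero _ hden), hcq]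
      simp
    have hb0 : b ≠ 0 := by
      rintro rfl
      have h1 : c.num.natAbs * c.den = 0 := by rw [← hab]; simp
      rcases Nat.mul_eq_zero.1 h1 with h2 | h2
      · omega
      · exact c.den_nz h2
    obtain ⟨p, hp, hpa⟩ := Nat.exists_prime_and_dvd ha1
    refine ⟨p, hp, fun t ht => ?_⟩
    have hpF : Fact p.Prime := ⟨hp⟩
    obtain ⟨n, hn⟩ : ∃ n : ℕ, f.eval t = n := ⟨(f.eval t).toNat, by omega⟩
    have hn0 : n ≠ 0 := by
      rintro rfl
      rw [hn] at ht
      simp at ht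
    obtain ⟨e, u, hu, hnu⟩ := Nat.exists_eq_pow_mul_and_not_dvd hn0 p hp.ne_one
    have hu0 : u ≠ 0 := by
      rintro rfl
      exact hu (dvd_zero _)
    obtain ⟨a', ha'⟩ := hpa
    have ha0 : a' ≠ 0 := by
      rintro rfl
      rw [mul_zero] at ha'
      rw [ha'] at hsq
      exact not_squarefree_zero hsq
    have hpa' : ¬ p ∣ a' := by
      intro h
      have h1 : p * p ∣ a := by rw [ha']; exact Nat.mul_dvd_mul_left p h
      exact (Nat.squarefree_iff_prime_squarefree.1 hsq p hp) h1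
    refine ⟨e, u, ?_, ?_, ?_⟩
    · have h1 : (n : ℚ) * (c.den : ℚ) ^ 2 = a * ((b : ℚ) * g.eval (t : ℚ)) ^ 2 := by
        have h2 := heval t
        rw [hn] at h2
        push_cast at h2
        rw [h2]
        linear_combination (g.eval (t : ℚ)) ^ 2 * hcq
      have hpQ : (p : ℚ) ≠ 0 := by exact_mod_cast hp.ne_zero
      have hnQ : (n : ℚ) ≠ 0 := by exact_mod_cast hn0
      have haQ : (a : ℚ) ≠ 0 := by
        rw [ha']
        push_cast
        exact mul_ne_zero hpQ (by exact_mod_cast ha0)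
      have hr0 : ((b : ℚ) * g.eval (t : ℚ)) ≠ 0 := by
        intro h
        rw [h, zero_pow two_ne_zero, mul_zero] at h1
        exact mul_ne_zero hnQ (pow_ne_zero _ hden) h1
      have h2 := congrArg (padicValRat p) h1
      rw [padicValRat.mul hnQ (pow_ne_zero _ hden), padicValRat.pow,
        padicValRat.mul haQ (pow_ne_zero _ hr0), padicValRat.pow] at h2
      have val : ∀ (m k v : ℕ), v ≠ 0 → ¬ p ∣ v → m = p ^ k * v → padicValRat p (m : ℚ) = k := by
        intro m k v hv0 hv hm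
        rw [hm, padicValRat.of_nat, padicValNat.mul (pow_ne_zero _ hp.ne_zero) hv0,
          padicValNat.prime_pow, padicValNat.eq_zero_of_not_dvd hv]
        simp
      have h3 : padicValRat p (n : ℚ) = e := val n e u hu0 hu hnu
      have h4 : padicValRat p (a : ℚ) = (1 : ℕ) := val a 1 a' ha0 hpa' (by rw [ha', pow_one])
      rw [h3, h4] at h2
      push_cast at h2
      exact Nat.odd_iff.2 (by omega)
    · rw [hn, hnu]
      push_cast
      ring
    · exact_mod_cast hu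

lemma root_class {F : ℤ[X]} {q : ℕ} (hq : q ∈ Pool.Agent.TH888.B1.RootPrimes F) :
    ∃ x : ZMod q, (F.map (Int.castRingHom (ZMod q))).eval x = 0 := hq.2

lemma dvd_of_class {F : ℤ[X]} {q t : ℕ} {x : ZMod q}
    (hx : (F.map (Int.castRingHom (ZMod q))).eval x = 0) (ht : (t : ZMod q) = x) :
    (q : ℤ) ∣ F.eval (t : ℤ) := by
  rw [← ZMod.intCast_zmod_eq_zero_iff_dvd]
  have h8 : ((F.eval (t : ℤ) : ℤ) : ZMod q) =
      (F.map (Int.castRingHom (ZMod q))).eval (((t : ℕ) : ℤ) : ZMod q) := by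
    rw [Polynomial.eval_intCast_map]
    rfl
  rw [h8]
  push_cast
  rw [ht, hx]

/-- **All integers.** -/
theorem dens_main {f : ℤ[X]} (hf0 : f ≠ 0) (hns : ¬ IsSq f) {F : ℤ[X]} (hF : 0 < F.natDegree)
    (K : ℕ) :
    Tendsto (fun N : ℕ => (cnt (fun t => 0 < f.eval (t : ℤ) ∧ ¬ Test f F K t) N : ℝ) / N)
      atTop (𝓝 0) := by
  classical
  by_cases hcs : ConstSq f
  · rcases const_case hcs hns with h | ⟨p, hp, h⟩
    · have h0 : ∀ N, cnt (fun t => 0 < f.eval (t : ℤ) ∧ ¬ Test f F K t) N = 0 := by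
        intro N
        apply Nat.le_zero.1
        refine (cnt_le_card (s := ∅) ?_).trans (by simp)
        rintro t - ⟨h1, -⟩
        have := h t
        omega
      simp [h0]
    · have hbig : Big (fun q => q ∈ QS F p) :=
        big_of_not_summable (div_Q hF hp) (fun q hq => ⟨hq.1.1, hq⟩)
      have hroot : ∀ q : ℕ, ∃ a : ℕ, q ∈ QS F p → (F.map (Int.castRingHom (ZMod q))).eval
          (a : ZMod q) = 0 := by
        intro q
        by_cases hq : q ∈ QS F p
        · have hqF : Fact q.Prime := ⟨hq.1.1⟩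
          obtain ⟨x, hx⟩ := hq.1.2
          refine ⟨x.val, fun _ => ?_⟩
          rw [ZMod.natCast_zmod_val]
          exact hx
        · exact ⟨0, fun h' => absurd h' hq⟩
      choose a ha using hroot
      refine tendsto_zero' _ (fun q => q ∈ QS F p ∧ K < q) a (fun _ r => r ∈ QS F p)
        (fun _ _ => True) (hbig.large _) (fun _ _ _ => hbig) ?_ ?_
      · intro q r hr _
        refine ⟨by have := hr.pos; positivity, fun _ => Iff.rfl, ?_⟩
        have h0 : cnt (fun _ => ¬ True) (r ^ 2) = 0 := by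
          unfold cnt
          simp
        rw [h0]
        push_cast
        positivity
      · rintro t ⟨htp, htt⟩ q hq ⟨hq', hqK⟩ htq r hr hr' -
        apply htt
        obtain ⟨e, u, he, hu1, hu2⟩ := h t htp
        refine ⟨q, p, e, u, hq, hqK, ?_, hp, he, hu1, hu2, hq'.2⟩
        apply dvd_of_class (ha q hq')
        rw [ZMod.natCast_eq_natCast_iff']
        exact htq
  · refine dens_poly hf0 hcs hF K _ ?_
    rintro t ⟨-, ht⟩ q hq hqK hqF p e u hp hpK he h1 h2 h3
    exact ht ⟨q, p, e, u, hq, hqK, hqF, hp, he, h1, h2, q / 2, h3⟩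

lemma fac_X {f : ℤ[X]} (hf0 : f ≠ 0) : ∃ (a : ℕ) (f₁ : ℤ[X]), f = X ^ a * f₁ ∧ f₁.eval 0 ≠ 0 := by
  obtain ⟨q, h1, h2⟩ := exists_eq_pow_rootMultiplicity_mul_and_not_dvd f hf0 0
  refine ⟨rootMultiplicity 0 f, q, ?_, ?_⟩
  · simpa using h1
  · intro h
    exact h2 (dvd_iff_isRoot.2 h)

/-- **Primes.** -/
theorem prime_main {f : ℤ[X]} (hf0 : f ≠ 0) (hns : ¬ IsSq f) (hnx : ¬ XSq f) {F : ℤ[X]}
    (hF : 0 < F.natDegree) (hF0 : F.eval 0 ≠ 0) (K : ℕ) :
    PZ (fun t => 0 < f.eval (t : ℤ) ∧ ¬ Test f F K t) := by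
  classical
  -- roots of `F`
  have hroot : ∀ q : ℕ, ∃ x : ZMod q, q ∈ Pool.Agent.TH888.B1.RootPrimes F →
      (F.map (Int.castRingHom (ZMod q))).eval x = 0 := by
    intro q
    by_cases hq : q ∈ Pool.Agent.TH888.B1.RootPrimes F
    · obtain ⟨x, hx⟩ := hq.2
      exact ⟨x, fun _ => hx⟩
    · exact ⟨0, fun h' => absurd h' hq⟩
  choose a ha using hroot
  have ha0 : ∀ q : ℕ, q ∈ Pool.Agent.TH888.B1.RootPrimes F → (F.eval 0).natAbs < q → a q ≠ 0 := by
    intro q hq hqF h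
    have h1 := ha q hq
    rw [h] at h1
    have h2 : (q : ℤ) ∣ F.eval ((0 : ℕ) : ℤ) := dvd_of_class h1 (by simp)
    exact not_dvd_of_lt hF0 hqF (by simpa using h2)
  by_cases hcs : ConstSq f
  · rcases const_case hcs hns with h | ⟨p, hp, h⟩
    · refine PZ.mono (fun t _ ht => ?_) PZ.false
      have := h t
      have := ht.1
      omega
    · set T0 : Set ℕ := Set.Iic (K + (F.eval 0).natAbs + 2) with hT0
      refine PZ.two (T := fun _ _ => False) (QS F p \ T0) ?_
        (Pool.Agent.TH888.B1.diverges_diff (Set.finite_Iic _) (div_Q hF hp)) a ?_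
        (fun _ _ => PZ.false) ?_
      · rintro q ⟨hq, hq'⟩
        rw [hT0, Set.mem_Iic] at hq'
        exact ⟨hq.1.1, by omega⟩
      · rintro q ⟨hq, hq'⟩
        rw [hT0, Set.mem_Iic] at hq'
        exact ha0 q hq.1 (by omega)
      · rintro t htp ⟨hpos, htt⟩ q ⟨hq, hq'⟩ htq
        rw [hT0, Set.mem_Iic] at hq'
        apply htt
        obtain ⟨e, u, he, hu1, hu2⟩ := h t hpos
        exact ⟨q, p, e, u, hq.1.1, by omega, dvd_of_class (ha q hq.1) htq, hp, he, hu1, hu2, hq.2⟩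
  · obtain ⟨n, f₁, hf₁, hf₁0⟩ := fac_X hf0
    have hf₁ne : f₁ ≠ 0 := by
      rintro rfl
      simp at hf₁0
    have hcs₁ : ¬ ConstSq f₁ := by
      rintro ⟨c, g, hg⟩
      rcases Nat.even_or_odd n with ⟨m, hm⟩ | ⟨m, hm⟩
      · apply hcs
        refine ⟨c, X ^ m * g, ?_⟩
        rw [hf₁, Polynomial.map_mul, hg, hm]
        simp only [Polynomial.map_pow, map_X]
        ring
      · apply hnx
        refine ⟨c, X ^ m * g, ?_⟩
        rw [hf₁, Polynomial.map_mul, hg, hm]
        simp only [Polynomial.map_pow, map_X]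
        ring
    obtain ⟨g, h, c, D, E, e, A₁, B₁, A₂, B₂, hc, hD, hE, he, hg, hfac, hsep, hgh⟩ :=
      factor hf₁ne hcs₁
    have he0 : e ≠ 0 := by
      rintro rfl
      exact (Nat.not_odd_iff_even.2 (by simp)) he
    have hg0 : g.eval 0 ≠ 0 := by
      intro h0
      have h1 := congrArg (Polynomial.eval 0) hfac
      simp only [eval_mul, eval_C, eval_pow] at h1
      rw [h0, zero_pow he0, zero_mul] at h1
      exact mul_ne_zero hc hf₁0 h1
    obtain ⟨K₀, hK₀⟩ := div_R hg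
    set B : ℕ := K + c.natAbs + D.natAbs + E.natAbs + (g.eval 0).natAbs + 2 with hB
    set T0 : Set ℕ := Set.Iic (K + K₀ + (F.eval 0).natAbs + 2) with hT0
    -- roots of `g`
    have hrg : ∀ r : ℕ, ∃ x : ZMod r, (∃ b : ℕ, (r : ℤ) ∣ g.eval (b : ℤ)) →
        (g.map (Int.castRingHom (ZMod r))).eval x = 0 := by
      intro r
      by_cases hr : ∃ b : ℕ, (r : ℤ) ∣ g.eval (b : ℤ)
      · obtain ⟨b, hb⟩ := hr
        refine ⟨(b : ZMod r), fun _ => ?_⟩
        rw [← ZMod.intCast_zmod_eq_zero_iff_dvd] at hb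
        have h8 : ((g.eval (b : ℤ) : ℤ) : ZMod r) =
            (g.map (Int.castRingHom (ZMod r))).eval (((b : ℕ) : ℤ) : ZMod r) := by
          rw [Polynomial.eval_intCast_map]
          rfl
        rw [h8] at hb
        push_cast at hb
        exact hb
      · exact ⟨0, fun h' => absurd h' hr⟩
    choose b hb using hrg
    refine PZ.two (T := fun q t => ∀ r ∈ RS g q \ Set.Iic B, ¬ Ex g r t)
      (Pool.Agent.TH888.B1.RootPrimes F \ T0) ?_
      (Pool.Agent.TH888.B1.diverges_diff (Set.finite_Iic _)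
        (Pool.Agent.TH888.B1.rootPrimes_diverges F hF)) a ?_ ?_ ?_
    · rintro q ⟨hq, hq'⟩
      rw [hT0, Set.mem_Iic] at hq'
      exact ⟨hq.1, by omega⟩
    · rintro q ⟨hq, hq'⟩
      rw [hT0, Set.mem_Iic] at hq'
      exact ha0 q hq (by omega)
    · rintro q ⟨hq, hq'⟩
      rw [hT0, Set.mem_Iic] at hq'
      refine PZ.exact g (RS g q \ Set.Iic B) ?_
        (Pool.Agent.TH888.B1.diverges_diff (Set.finite_Iic _) (hK₀ q hq.1 (by omega))) b ?_ ?_ ?_
      · rintro r ⟨hr, hr'⟩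
        rw [Set.mem_Iic] at hr'
        exact ⟨hr.1, by omega⟩
      · rintro r ⟨hr, hr'⟩ h0
        rw [Set.mem_Iic] at hr'
        have h1 := hb r hr.2.2
        rw [h0] at h1
        have h2 : (r : ℤ) ∣ g.eval ((0 : ℕ) : ℤ) := dvd_of_class h1 (by simp)
        exact not_dvd_of_lt hg0 (by omega : (g.eval 0).natAbs < r) (by simpa using h2)
      · rintro r ⟨hr, hr'⟩
        exact hb r hr.2.2
      · rintro r ⟨hr, hr'⟩ h0
        rw [Set.mem_Iic] at hr'
        apply not_dvd_of_lt hD (by omega : D.natAbs < r)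
        have h1 := congrArg (fun P => (P.map (Int.castRingHom (ZMod r))).eval (b r)) hsep
        simp only [Polynomial.map_add, Polynomial.map_mul, map_C, eval_add, eval_mul, eval_C] at h1
        rw [hb r hr.2.2, h0, mul_zero, mul_zero, add_zero] at h1
        rw [← ZMod.intCast_zmod_eq_zero_iff_dvd]
        exact h1.symm
    · rintro t htp ⟨hpos, htt⟩ q ⟨hq, hq'⟩ htq r ⟨⟨hr, hrq, hrb⟩, hr'⟩ hex
      rw [hT0, Set.mem_Iic] at hq'
      rw [Set.mem_Iic] at hr'
      obtain ⟨u, hu1, hu2⟩ := val_of_ex hfac hgh hr (not_dvd_of_lt hc (by omega))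
        (not_dvd_of_lt hE (by omega)) he0 hex
      have hrp : Prime (r : ℤ) := Nat.prime_iff_prime_int.1 hr
      apply htt
      refine ⟨q, r, e, (t : ℤ) ^ n * u, hq.1, by omega, dvd_of_class (ha q hq) htq, hr, he, ?_, ?_,
        q / 2, hrq⟩
      · rw [hf₁, eval_mul, eval_pow, eval_X, hu1]
        ring
      · intro h1
        rcases hrp.dvd_or_dvd h1 with h2 | h2
        · have h3 : (r : ℤ) ∣ (t : ℤ) := hrp.dvd_of_dvd_pow h2
          have h4 : r ∣ t := by exact_mod_cast h3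
          have h5 : r = t := (Nat.prime_dvd_prime_iff_eq hr htp).1 h4
          apply not_dvd_of_lt hg0 (by omega : (g.eval 0).natAbs < r)
          have h6 : (r : ℤ) ∣ (t : ℤ) - 0 := by simpa using h3
          have h7 := eval_mod g h6
          have h8 : g.eval 0 = g.eval (t : ℤ) - (g.eval (t : ℤ) - g.eval 0) := by ring
          rw [h8]
          exact dvd_sub hex.1 h7
        · exact hu2 h2

end Pool.Agent.T2H18.PO
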