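import Pool.Agent.TH888.B1.Roots

/-!
# Polynomials all of whose `θ`-points lie on the unit circle
-/

set_option autoImplicit false

namespace Pool.Agent.T2H18.PO

open Polynomial

lemma mult_id {z : ℝ} (hz : z ≠ 0) (s : Multiset ℂ) (hs : ∀ a ∈ s, ‖a‖ = 1) :
    (z : ℂ) ^ s.card * (starRingEnd ℂ) ((s.map fun a => (z : ℂ)⁻¹ - a).prod) =
      (starRingEnd ℂ) ((s.map fun a => 0 - a).prod) * (s.map fun a => (z : ℂ) - a).prod := by
  induction s using Multiset.induction with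
  | empty => simp
  | cons a s ih =>
    have h1 := ih fun b hb => hs b (Multiset.mem_cons_of_mem hb)
    have h2 : (starRingEnd ℂ) a * a = 1 := by
      rw [Complex.conj_mul', hs a (Multiset.mem_cons_self a s)]
      simp
    have hzC : (z : ℂ) ≠ 0 := by exact_mod_cast hz
    simp only [Multiset.map_cons, Multiset.prod_cons, Multiset.card_cons, map_mul, map_sub,
      map_zero, map_inv₀, Complex.conj_ofReal] at h1 ⊢
    have h3 : (z : ℂ) * ((z : ℂ)⁻¹ - (starRingEnd ℂ) a) =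
        (0 - (starRingEnd ℂ) a) * ((z : ℂ) - a) := by
      rw [mul_sub, mul_inv_cancel₀ hzC]
      linear_combination -h2
    rw [pow_succ]
    linear_combination ((z : ℂ) ^ s.card * (starRingEnd ℂ)
      ((s.map fun a => (z : ℂ)⁻¹ - a).prod)) * h3 + ((0 - (starRingEnd ℂ) a) * ((z : ℂ) - a)) * h1

/-- all `θ`-points on the unit circle -/
lemma uni_key {f : ℤ[X]} (h0 : f.eval 0 = 0) (hlc : 0 < f.leadingCoeff) (hdeg : 0 < f.natDegree)
    {θ : ℂ} (hθ : θ.im ≠ 0) (hall : ∀ α : ℂ, aeval α f = θ → ‖α‖ = 1) :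
    (f.leadingCoeff : ℝ) = ‖θ‖ ∧ ∀ z : ℕ, z ≠ 0 →
      f.eval (z : ℤ) = f.leadingCoeff * (z : ℤ) ^ f.natDegree := by
  classical
  set P : ℂ[X] := f.map (Int.castRingHom ℂ) - C θ with hP
  have hinj : Function.Injective (Int.castRingHom ℂ) := RingHom.injective_int _
  have hPd : P.natDegree = f.natDegree := by
    rw [hP, natDegree_sub_C, natDegree_map_eq_of_injective hinj]
  have hPc : P.leadingCoeff = (f.leadingCoeff : ℂ) := by
    rw [leadingCoeff, hPd, hP, coeff_sub, coeff_map, coeff_C, if_neg hdeg.ne', sub_zero]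
    rfl
  have hP0 : P ≠ 0 := by
    intro h
    rw [h, natDegree_zero] at hPd
    omega
  have hsp := IsAlgClosed.splits P
  have hcard := hsp.natDegree_eq_card_roots
  have heP : ∀ x : ℂ, P.eval x = aeval x f - θ := by
    intro x
    rw [hP, eval_sub, eval_C, eval_map]
    rfl
  have hs : ∀ a ∈ P.roots, ‖a‖ = 1 := by
    intro a ha
    rw [mem_roots hP0, IsRoot.def, heP, sub_eq_zero] at ha
    exact hall a ha
  have hc : (f.leadingCoeff : ℂ) ≠ 0 := by exact_mod_cast hlc.ne'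
  have hce : ∀ x : ℤ, aeval (x : ℂ) f = ((f.eval x : ℤ) : ℂ) := by
    intro x
    have h2 := Polynomial.aeval_algebraMap_apply ℂ (x : ℤ) f
    rw [coe_aeval_eq_eval] at h2
    simpa using h2
  have hf0 : aeval (0 : ℂ) f = 0 := by
    have := hce 0
    rw [h0] at this
    simpa using this
  -- the value at zero
  have hz0 : (f.leadingCoeff : ℂ) * (P.roots.map fun a => 0 - a).prod = -θ := by
    have := hsp.eval_eq_prod_roots 0
    rw [heP, hPc, hf0, zero_sub] at this
    exact this.symm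
  have hprod : ‖(P.roots.map fun a => 0 - a).prod‖ = 1 := by
    have h1 : ∀ s : Multiset ℂ, (∀ a ∈ s, ‖a‖ = 1) → ‖(s.map fun a => 0 - a).prod‖ = 1 := by
      intro s
      induction s using Multiset.induction with
      | empty => simp
      | cons a s ih =>
        intro h
        rw [Multiset.map_cons, Multiset.prod_cons, norm_mul,
          ih fun b hb => h b (Multiset.mem_cons_of_mem hb), zero_sub, norm_neg,
          h a (Multiset.mem_cons_self a s), one_mul]
    exact h1 _ hs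
  have hcθ : (f.leadingCoeff : ℝ) = ‖θ‖ := by
    have := congrArg norm hz0
    rw [norm_mul, hprod, mul_one, norm_neg, Complex.norm_intCast, abs_of_pos] at this
    · exact this
    · exact_mod_cast hlc
  refine ⟨hcθ, fun z hz => ?_⟩
  have hzR : (z : ℝ) ≠ 0 := by exact_mod_cast hz
  have hm := mult_id hzR P.roots hs
  have e1 := hsp.eval_eq_prod_roots (((z : ℝ) : ℂ)⁻¹)
  have e2 := hsp.eval_eq_prod_roots ((z : ℝ) : ℂ)
  rw [heP, hPc] at e1 e2
  -- the value at `1 / z` is real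
  have hreal : (starRingEnd ℂ) (aeval (((z : ℝ) : ℂ)⁻¹) f) = aeval (((z : ℝ) : ℂ)⁻¹) f := by
    have h1 : (aeval (((z : ℝ) : ℂ)⁻¹) f) = ((aeval ((z : ℝ)⁻¹) f : ℝ) : ℂ) := by
      have h2 := Polynomial.aeval_algebraMap_apply ℂ ((z : ℝ)⁻¹) f
      simpa using h2
    rw [h1, Complex.conj_ofReal]
  have hcc : (starRingEnd ℂ) (f.leadingCoeff : ℂ) = (f.leadingCoeff : ℂ) := by
    rw [map_intCast]
  have e3 := congrArg (starRingEnd ℂ) e1
  rw [map_sub, hreal, map_mul, hcc] at e3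
  have e4 := congrArg (starRingEnd ℂ) hz0
  rw [map_mul, hcc, map_neg] at e4
  -- the identity
  have hid : (f.leadingCoeff : ℂ) * ((z : ℂ) ^ f.natDegree * (aeval (((z : ℝ) : ℂ)⁻¹) f -
      (starRingEnd ℂ) θ)) = -(starRingEnd ℂ) θ * (aeval (((z : ℝ) : ℂ)) f - θ) := by
    rw [e3, e2, ← hPd, hcard, ← e4]
    have hm' := hm
    rw [Complex.ofReal_natCast] at hm' ⊢
    linear_combination (f.leadingCoeff : ℂ) ^ 2 * hm'
  have hre : (aeval (((z : ℝ) : ℂ)) f) = ((f.eval (z : ℤ) : ℤ) : ℂ) := by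
    have := hce z
    simpa using this
  have hre2 : (aeval (((z : ℝ) : ℂ)⁻¹) f) = ((aeval ((z : ℝ)⁻¹) f : ℝ) : ℂ) := by
    have h2 := Polynomial.aeval_algebraMap_apply ℂ ((z : ℝ)⁻¹) f
    simpa using h2
  rw [hre, hre2] at hid
  have him := congrArg Complex.im hid
  have h5 : ((z : ℂ) ^ f.natDegree) = (((z : ℝ) ^ f.natDegree : ℝ) : ℂ) := by push_cast; rfl
  have h6 : ((f.leadingCoeff : ℤ) : ℂ) = ((f.leadingCoeff : ℝ) : ℂ) := by push_cast; rfl
  have h7 : ((f.eval (z : ℤ) : ℤ) : ℂ) = (((f.eval (z : ℤ) : ℤ) : ℝ) : ℂ) := by push_cast; rfl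
  rw [h5, h6, h7] at him
  rw [Complex.im_ofReal_mul, Complex.im_ofReal_mul, Complex.sub_im, Complex.ofReal_im,
    Complex.conj_im, Complex.mul_im, Complex.sub_re, Complex.sub_im, Complex.ofReal_re,
    Complex.ofReal_im, Complex.neg_im, Complex.neg_re, Complex.conj_im, Complex.conj_re] at him
  have h8 : θ.im * (f.leadingCoeff * (z : ℝ) ^ f.natDegree) = θ.im * ((f.eval (z : ℤ) : ℤ) : ℝ) := by
    linear_combination him
  have h9 := mul_left_cancel₀ hθ h8
  have h10 : ((f.eval (z : ℤ) : ℤ) : ℝ) = ((f.leadingCoeff * (z : ℤ) ^ f.natDegree : ℤ) : ℝ) := by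
    rw [← h9]
    push_cast
    rfl
  exact_mod_cast h10

lemma eq_monomial {f : ℤ[X]} {c : ℤ} {k : ℕ}
    (h : ∀ z : ℕ, z ≠ 0 → f.eval (z : ℤ) = c * (z : ℤ) ^ k) : f = C c * X ^ k := by
  apply eq_of_infinite_eval_eq
  apply Set.Infinite.mono (s := Set.range (fun n : ℕ => ((n + 1 : ℕ) : ℤ)))
  · rintro x ⟨n, rfl⟩
    rw [Set.mem_ofPred_eq, h _ (by omega), eval_mul, eval_C, eval_pow, eval_X]
  · apply Set.infinite_range_of_injective
    intro a b hab
    simpa using hab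

/-- transfer to the algebraic closure of the rationals -/
lemma transfer {F : ℤ[X]} (hF : F ≠ 0) {α : ℂ} (hα : aeval α F = 0)
    (h : ∀ n : ℕ, 0 < n → α ^ n ≠ 1) :
    ∃ α' : AlgebraicClosure ℚ, aeval α' F = 0 ∧ ∀ n : ℕ, 0 < n → α' ^ n ≠ 1 := by
  set G : ℚ[X] := F.map (Int.castRingHom ℚ) with hG
  have hG0 : G ≠ 0 := by
    rwa [hG, Ne, Polynomial.map_eq_zero_iff (RingHom.injective_int _)]
  have hαG : aeval α G = 0 := by
    rw [hG, aeval_def, eval₂_map, RingHom.ext_int ((algebraMap ℚ ℂ).comp (Int.castRingHom ℚ))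
      (algebraMap ℤ ℂ)]
    exact hα
  have hint : IsIntegral ℚ α := by
    have : IsAlgebraic ℚ α := ⟨G, hG0, hαG⟩
    exact this.isIntegral
  have hirr := minpoly.irreducible hint
  obtain ⟨α', hα'⟩ : ∃ α' : AlgebraicClosure ℚ, aeval α' (minpoly ℚ α) = 0 := by
    apply IsAlgClosed.exists_aeval_eq_zero
    exact (minpoly.degree_pos hint).ne'
  refine ⟨α', ?_, fun n hn h1 => ?_⟩
  · obtain ⟨Q, hQ⟩ := minpoly.dvd ℚ α hαG
    apply Pool.Agent.TH888.B1.aeval_of_map F G hG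
    rw [hQ, map_mul, hα', zero_mul]
  · have h2 : minpoly ℚ α = minpoly ℚ α' :=
      minpoly.eq_of_irreducible_of_monic hirr hα' (minpoly.monic hint)
    have h3 : aeval α' (X ^ n - 1 : ℚ[X]) = 0 := by
      simp [h1]
    have h4 := minpoly.dvd ℚ α' h3
    rw [← h2] at h4
    obtain ⟨Q, hQ⟩ := h4
    apply h n hn
    have h5 : aeval α (X ^ n - 1 : ℚ[X]) = 0 := by
      rw [hQ, map_mul, minpoly.aeval, zero_mul]
    simpa [sub_eq_zero] using h5

end Pool.Agent.T2H18.PO
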