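import Pool.Agent.T2H18.PO.Main2
import Pool.Agent.T2H18.PO.Gal3
import Pool.Agent.T2H18.PO.Uni

/-!
# Primes: the polynomials `X * g ^ 2`
-/

set_option autoImplicit false

namespace Pool.Agent.T2H18.PO

open Filter Topology Polynomial Pool.Agent.H771R2.Dens

theorem PZ.le (B : ℕ) : PZ (fun t => t ≤ B) := by
  intro ε hε
  have h1 : Tendsto (fun N : ℕ => ε * (Nat.primeCounting N : ℝ)) atTop atTop :=
    (tendsto_natCast_atTop_atTop.comp Nat.tendsto_primeCounting).const_mul_atTop hε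
  obtain ⟨N₀, hN₀⟩ := eventually_atTop.mp (h1.eventually_ge_atTop ((B : ℝ) + 1))
  refine ⟨N₀, fun N hN => le_trans ?_ (hN₀ N hN)⟩
  have h2 : ({t : ℕ | t ≤ N ∧ t.Prime ∧ t ≤ B} : Set ℕ).ncard ≤ B + 1 := by
    have h3 : ({t : ℕ | t ≤ N ∧ t.Prime ∧ t ≤ B} : Set ℕ) ⊆ (Finset.range (B + 1) : Finset ℕ) := by
      rintro t ⟨-, -, h⟩
      rw [Finset.mem_coe, Finset.mem_range]
      omega
    have h4 := Set.ncard_le_ncard h3 (Finset.finite_toSet _)
    rw [Set.ncard_coe_finset, Finset.card_range] at h4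
    exact h4
  exact_mod_cast h2

lemma odd_val {p n m m' : ℕ} (hp : p.Prime) (hn0 : n ≠ 0) {x y : ℚ} (hx : x ≠ 0)
    (h1 : (n : ℚ) * x ^ 2 = m * y ^ 2) (hm : m = p * m') (hm' : ¬ p ∣ m') :
    ∃ e u : ℕ, Odd e ∧ n = p ^ e * u ∧ ¬ p ∣ u := by
  have hpF : Fact p.Prime := ⟨hp⟩
  obtain ⟨e, u, hu, hnu⟩ := Nat.exists_eq_pow_mul_and_not_dvd hn0 p hp.ne_one
  have hu0 : u ≠ 0 := by
    rintro rfl
    exact hu (dvd_zero _)
  have hm0 : m' ≠ 0 := by
    rintro rfl
    exact hm' (dvd_zero _)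
  refine ⟨e, u, ?_, hnu, hu⟩
  have hpQ : (p : ℚ) ≠ 0 := by exact_mod_cast hp.ne_zero
  have hnQ : (n : ℚ) ≠ 0 := by exact_mod_cast hn0
  have hmQ : (m : ℚ) ≠ 0 := by
    rw [hm]
    push_cast
    exact mul_ne_zero hpQ (by exact_mod_cast hm0)
  have hr0 : y ≠ 0 := by
    intro h
    rw [h, zero_pow two_ne_zero, mul_zero] at h1
    exact mul_ne_zero hnQ (pow_ne_zero _ hx) h1
  have h2 := congrArg (padicValRat p) h1
  rw [padicValRat.mul hnQ (pow_ne_zero _ hx), padicValRat.pow,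
    padicValRat.mul hmQ (pow_ne_zero _ hr0), padicValRat.pow] at h2
  have val : ∀ (m k v : ℕ), v ≠ 0 → ¬ p ∣ v → m = p ^ k * v → padicValRat p (m : ℚ) = k := by
    intro m k v hv0 hv hm
    rw [hm, padicValRat.of_nat, padicValNat.mul (pow_ne_zero _ hp.ne_zero) hv0,
      padicValNat.prime_pow, padicValNat.eq_zero_of_not_dvd hv]
    simp
  have h3 : padicValRat p (n : ℚ) = e := val n e u hu0 hu hnu
  have h4 : padicValRat p (m : ℚ) = (1 : ℕ) := val m 1 m' hm0 hm' (by rw [hm, pow_one])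
  rw [h3, h4] at h2
  push_cast at h2
  exact Nat.odd_iff.2 (by omega)

/-- a positive rational number up to squares -/
lemma sq_class_rat {c : ℚ} (hc : 0 < c) : ∃ a b d : ℕ, Squarefree a ∧ b ≠ 0 ∧ d ≠ 0 ∧
    c * (d : ℚ) ^ 2 = a * (b : ℚ) ^ 2 := by
  obtain ⟨a, b, hab, hsq⟩ := Nat.sq_mul_squarefree (c.num.natAbs * c.den)
  have hcnum : 0 < c.num := Rat.num_pos.2 hc
  refine ⟨a, b, c.den, hsq, ?_, c.den_nz, ?_⟩
  · rintro rfl
    have h1 : c.num.natAbs * c.den = 0 := by rw [← hab]; simp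
    rcases Nat.mul_eq_zero.1 h1 with h2 | h2
    · omega
    · exact c.den_nz h2
  · have h1 : c * c.den = c.num := Rat.mul_den_eq_num c
    have h2 : ((c.num.natAbs : ℕ) : ℚ) = c.num := by
      have h2' : ((c.num.natAbs : ℕ) : ℤ) = c.num := Int.natAbs_of_nonneg hcnum.le
      have h2'' : (((c.num.natAbs : ℕ) : ℤ) : ℚ) = ((c.num : ℤ) : ℚ) := congrArg _ h2'
      rw [← h2'', Int.cast_natCast]
    have h3 : ((b ^ 2 * a : ℕ) : ℚ) = ((c.num.natAbs * c.den : ℕ) : ℚ) := by rw [hab]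
    push_cast at h3
    rw [h2] at h3
    linear_combination (c.den : ℚ) * h1 - h3

/-- **Primes**, all polynomials which are not squares. -/
theorem prime_final {f : ℤ[X]} (hf0 : f ≠ 0) (hns : ¬ IsSq f) {F : ℤ[X]}
    (hF : 0 < F.natDegree) (hF0 : F.eval 0 ≠ 0)
    (hroot : (∃ g : ℚ[X], f.map (Int.castRingHom ℚ) = X * g ^ 2) →
      ∃ α : AlgebraicClosure ℚ, aeval α F = 0 ∧ ∀ n : ℕ, 0 < n → α ^ n ≠ 1) (K : ℕ) :
    PZ (fun t => 0 < f.eval (t : ℤ) ∧ ¬ Test f F K t) := by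
  classical
  by_cases hx : XSq f
  swap
  · exact prime_main hf0 hns hx hF hF0 K
  obtain ⟨c, g, hg⟩ := hx
  have heval : ∀ t : ℤ, ((f.eval t : ℤ) : ℚ) = c * t * (g.eval (t : ℚ)) ^ 2 := by
    intro t
    have h1 : (f.map (Int.castRingHom ℚ)).eval ((t : ℤ) : ℚ) = ((f.eval t : ℤ) : ℚ) := by
      rw [Polynomial.eval_intCast_map]
      rfl
    rw [← h1, hg]
    simp
  rcases le_or_gt c 0 with hc | hc
  · refine PZ.mono (fun t _ ht => ?_) PZ.false
    have h1 : ((f.eval (t : ℤ) : ℤ) : ℚ) ≤ 0 := by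
      rw [heval]
      push_cast
      have h2 : (0 : ℚ) ≤ t := Nat.cast_nonneg t
      have h3 : c * t ≤ 0 := mul_nonpos_of_nonpos_of_nonneg hc h2
      exact mul_nonpos_of_nonpos_of_nonneg h3 (sq_nonneg _)
    have h2 : f.eval (t : ℤ) ≤ 0 := by exact_mod_cast h1
    have := ht.1
    omega
  obtain ⟨a, b, d, hsq, hb, hd, hcd⟩ := sq_class_rat hc
  have hdQ : (d : ℚ) ≠ 0 := by exact_mod_cast hd
  have hval : ∀ t n : ℕ, f.eval (t : ℤ) = n →
      (n : ℚ) * (d : ℚ) ^ 2 = ((a * t : ℕ) : ℚ) * ((b : ℚ) * g.eval (t : ℚ)) ^ 2 := by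
    intro t n hn
    have h2 := heval t
    rw [hn] at h2
    push_cast at h2 ⊢
    rw [h2]
    linear_combination ((t : ℚ) * (g.eval (t : ℚ)) ^ 2) * hcd
  have hnat : ∀ t : ℕ, 0 < f.eval (t : ℤ) → ∃ n : ℕ, f.eval (t : ℤ) = n ∧ n ≠ 0 := by
    intro t ht
    exact ⟨(f.eval (t : ℤ)).toNat, by omega, by omega⟩
  by_cases ha1 : a = 1
  · -- `f = X * g ^ 2`
    obtain ⟨α, hα, hα1⟩ := hroot ⟨C ((b : ℚ) / d) * g, by
      rw [hg, mul_pow, ← C_pow, mul_comm (C c) X, mul_assoc]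
      congr 3
      rw [div_pow, eq_div_iff (pow_ne_zero _ hdQ), hcd, ha1]
      simp⟩
    have hclass : ∀ q : ℕ, ∃ x : ZMod q, q ∈ QA F →
        (F.map (Int.castRingHom (ZMod q))).eval x = 0 ∧ ∃ j, x ^ j = -1 := by
      intro q
      by_cases hq : q ∈ QA F
      · obtain ⟨x, hx⟩ := hq.2
        exact ⟨x, fun _ => hx⟩
      · exact ⟨0, fun h' => absurd h' hq⟩
    choose x hx using hclass
    set T0 : Set ℕ := Set.Iic (K + (F.eval 0).natAbs + 2) with hT0
    refine PZ.two (T := fun _ _ => False) (QA F \ T0) ?_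
      (Pool.Agent.TH888.B1.diverges_diff (Set.finite_Iic _) (div_A hF0 hα hα1)) x ?_
      (fun _ _ => PZ.false) ?_
    · rintro q ⟨hq, hq'⟩
      rw [hT0, Set.mem_Iic] at hq'
      exact ⟨hq.1, by omega⟩
    · rintro q ⟨hq, hq'⟩ h0
      rw [hT0, Set.mem_Iic] at hq'
      have h1 := (hx q hq).1
      rw [h0] at h1
      have h2 : (q : ℤ) ∣ F.eval ((0 : ℕ) : ℤ) := dvd_of_class h1 (by simp)
      exact not_dvd_of_lt hF0 (by omega : (F.eval 0).natAbs < q) (by simpa using h2)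
    · rintro t htp ⟨hpos, htt⟩ q ⟨hq, hq'⟩ htq
      rw [hT0, Set.mem_Iic] at hq'
      apply htt
      obtain ⟨n, hn, hn0⟩ := hnat t hpos
      have h1 := hval t n hn
      rw [ha1, one_mul] at h1
      obtain ⟨e, u, he, hu1, hu2⟩ := odd_val htp hn0 hdQ h1 (m' := 1) (by rw [mul_one])
        (fun h => htp.one_lt.ne' (Nat.dvd_one.1 h))
      refine ⟨q, t, e, u, hq.1, by omega, dvd_of_class (hx q hq).1 htq, htp, he, ?_, ?_, ?_⟩
      · rw [hn, hu1]
        push_cast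
        ring
      · exact_mod_cast hu2
      · rw [htq]
        exact (hx q hq).2
  · obtain ⟨p, hp, hpa⟩ := Nat.exists_prime_and_dvd ha1
    obtain ⟨a', ha'⟩ := hpa
    have hpa' : ¬ p ∣ a' := by
      intro h
      have h1 : p * p ∣ a := by rw [ha']; exact Nat.mul_dvd_mul_left p h
      exact (Nat.squarefree_iff_prime_squarefree.1 hsq p hp) h1
    have hclass : ∀ q : ℕ, ∃ x : ZMod q, q ∈ QS F p →
        (F.map (Int.castRingHom (ZMod q))).eval x = 0 := by
      intro q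
      by_cases hq : q ∈ QS F p
      · obtain ⟨x, hx⟩ := hq.1.2
        exact ⟨x, fun _ => hx⟩
      · exact ⟨0, fun h' => absurd h' hq⟩
    choose x hx using hclass
    set T0 : Set ℕ := Set.Iic (K + (F.eval 0).natAbs + 2) with hT0
    refine PZ.mono (S' := fun t => t ≤ p ∨ (0 < f.eval (t : ℤ) ∧ ¬ Test f F K t ∧ p < t))
      (fun t _ ht => ?_) (PZ.or (PZ.le p) ?_)
    · rcases le_or_gt t p with h | h
      · exact Or.inl h
      · exact Or.inr ⟨ht.1, ht.2, h⟩
    refine PZ.two (T := fun _ _ => False) (QS F p \ T0) ?_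
      (Pool.Agent.TH888.B1.diverges_diff (Set.finite_Iic _) (div_Q hF hp)) x ?_
      (fun _ _ => PZ.false) ?_
    · rintro q ⟨hq, hq'⟩
      rw [hT0, Set.mem_Iic] at hq'
      exact ⟨hq.1.1, by omega⟩
    · rintro q ⟨hq, hq'⟩ h0
      rw [hT0, Set.mem_Iic] at hq'
      have h1 := hx q hq
      rw [h0] at h1
      have h2 : (q : ℤ) ∣ F.eval ((0 : ℕ) : ℤ) := dvd_of_class h1 (by simp)
      exact not_dvd_of_lt hF0 (by omega : (F.eval 0).natAbs < q) (by simpa using h2)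
    · rintro t htp ⟨hpos, htt, hpt⟩ q ⟨hq, hq'⟩ htq
      rw [hT0, Set.mem_Iic] at hq'
      apply htt
      obtain ⟨n, hn, hn0⟩ := hnat t hpos
      obtain ⟨e, u, he, hu1, hu2⟩ := odd_val hp hn0 hdQ (hval t n hn) (m' := a' * t)
        (by rw [ha']; ring) (by
          intro h
          rcases hp.dvd_mul.1 h with h1 | h1
          · exact hpa' h1
          · have := (Nat.prime_dvd_prime_iff_eq hp htp).1 h1
            omega)
      refine ⟨q, p, e, u, hq.1.1, by omega, dvd_of_class (hx q hq) htq, hp, he, ?_, ?_, hq.2⟩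
      · rw [hn, hu1]
        push_cast
        ring
      · exact_mod_cast hu2

/-- the leading coefficient of `X * g ^ 2` -/
lemma lead_xsq {f : ℤ[X]} (hf0 : f ≠ 0) {g : ℚ[X]} (hg : f.map (Int.castRingHom ℚ) = X * g ^ 2) :
    0 < f.leadingCoeff ∧ 0 < f.natDegree ∧ f.eval 0 = 0 := by
  have hinj : Function.Injective (Int.castRingHom ℚ) := RingHom.injective_int _
  have hg0 : g ≠ 0 := by
    rintro rfl
    apply hf0
    rw [← Polynomial.map_eq_zero_iff hinj, hg]
    simp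
  refine ⟨?_, ?_, ?_⟩
  · have h1 : (f.map (Int.castRingHom ℚ)).leadingCoeff = (f.leadingCoeff : ℚ) := by
      rw [leadingCoeff_map_of_injective hinj]
      rfl
    rw [hg, leadingCoeff_mul, leadingCoeff_X, one_mul, leadingCoeff_pow] at h1
    have h2 : g.leadingCoeff ≠ 0 := leadingCoeff_ne_zero.2 hg0
    have h3 : (0 : ℚ) < (f.leadingCoeff : ℚ) := by
      rw [← h1]
      positivity
    exact_mod_cast h3
  · have h1 := natDegree_map_eq_of_injective hinj f
    rw [← h1, hg, natDegree_mul X_ne_zero (pow_ne_zero _ hg0), natDegree_X]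
    omega
  · have h1 : (f.map (Int.castRingHom ℚ)).eval ((0 : ℤ) : ℚ) = ((f.eval 0 : ℤ) : ℚ) := by
      rw [Polynomial.eval_intCast_map]
      rfl
    rw [hg] at h1
    simp only [Int.cast_zero, eval_mul, eval_X, zero_mul] at h1
    exact_mod_cast h1.symm

lemma comp_root {H f : ℤ[X]} {α θ : ℂ} (h1 : aeval α f = θ) (h2 : aeval θ H = 0) :
    aeval α (H.comp f) = 0 := by
  rw [aeval_comp, h1, h2]

/-- roots of `Φ_l(f)` -/
theorem root_cyc {l : ℕ} (hl : l.Prime) (hl2 : l ≠ 2) {f : ℤ[X]} (hf0 : f ≠ 0)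
    (hne : ∀ k : ℕ, f ≠ X ^ k) (hx : ∃ g : ℚ[X], f.map (Int.castRingHom ℚ) = X * g ^ 2) :
    ∃ α : AlgebraicClosure ℚ, aeval α ((cyclotomic l ℤ).comp f) = 0 ∧
      ∀ n : ℕ, 0 < n → α ^ n ≠ 1 := by
  obtain ⟨g, hg⟩ := hx
  obtain ⟨hlc, hdeg, h0⟩ := lead_xsq hf0 hg
  have hFne : (cyclotomic l ℤ).comp f ≠ 0 := by
    intro h
    have h1 : ((cyclotomic l ℤ).comp f).natDegree = 0 := by rw [h, natDegree_zero]
    rw [natDegree_comp, natDegree_cyclotomic, Nat.totient_prime hl] at h1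
    have := hl.two_le
    rcases Nat.mul_eq_zero.1 h1 with h2 | h2 <;> omega
  by_contra hcon
  have hall : ∀ α : ℂ, aeval α ((cyclotomic l ℤ).comp f) = 0 → ‖α‖ = 1 := by
    intro α hα
    by_contra h1
    apply hcon
    refine transfer hFne hα fun n hn h2 => h1 ?_
    exact Complex.norm_eq_one_of_pow_eq_one h2 hn.ne'
  set θ : ℂ := Complex.exp (2 * Real.pi * Complex.I / l) with hθ
  have hprim : IsPrimitiveRoot θ l := Complex.isPrimitiveRoot_exp l hl.ne_zero
  have hnorm : ‖θ‖ = 1 := Complex.norm_eq_one_of_pow_eq_one hprim.pow_eq_one hl.ne_zero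
  have hθc : aeval θ (cyclotomic l ℤ) = 0 := by
    have h1 : IsRoot (cyclotomic l ℂ) θ := by
      have : NeZero (l : ℂ) := ⟨by exact_mod_cast hl.ne_zero⟩
      exact (isRoot_cyclotomic_iff).2 hprim
    rw [aeval_def, ← eval_map, show (algebraMap ℤ ℂ) = Int.castRingHom ℂ from rfl, map_cyclotomic]
    exact h1
  have him : θ.im ≠ 0 := by
    intro him
    have h1 : θ ^ 2 = 1 := by
      have h2 : θ = (θ.re : ℂ) := by
        apply Complex.ext
        · simp
        · simp [him]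
      have h3 : |θ.re| = 1 := by
        rw [← hnorm]
        conv_rhs => rw [h2]
        rw [Complex.norm_real, Real.norm_eq_abs]
      rw [h2, ← Complex.ofReal_pow, ← sq_abs, h3]
      simp
    have h2 := (hprim.pow_eq_one_iff_dvd 2).1 h1
    exact hl2 ((Nat.prime_dvd_prime_iff_eq hl Nat.prime_two).1 h2)
  obtain ⟨h1, h2⟩ := uni_key h0 hlc hdeg him (fun α hα => hall α (comp_root hα hθc))
  rw [hnorm] at h1
  have h3 : f.leadingCoeff = 1 := by exact_mod_cast h1
  apply hne f.natDegree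
  have h4 := eq_monomial h2
  rw [h3] at h4
  simpa using h4

/-- the polynomial of the order of the group -/
noncomputable def HP (lam : ℕ) : ℤ[X] := X ^ 2 + C (2 * (lam : ℤ) - 1) * X + C ((lam : ℤ) ^ 2)

lemma HP_natDegree (lam : ℕ) : (HP lam).natDegree = 2 := by
  unfold HP
  compute_degree!

/-- roots of the polynomial for symmetric designs -/
theorem root_HP {lam : ℕ} (hlam : 1 ≤ lam) {f : ℤ[X]} (hf0 : f ≠ 0)
    (hne : lam = 1 → ∀ k : ℕ, f ≠ X ^ k)
    (hx : ∃ g : ℚ[X], f.map (Int.castRingHom ℚ) = X * g ^ 2) :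
    ∃ α : AlgebraicClosure ℚ, aeval α ((HP lam).comp f) = 0 ∧
      ∀ n : ℕ, 0 < n → α ^ n ≠ 1 := by
  obtain ⟨g, hg⟩ := hx
  obtain ⟨hlc, hdeg, h0⟩ := lead_xsq hf0 hg
  have hFne : (HP lam).comp f ≠ 0 := by
    intro h
    have h1 : ((HP lam).comp f).natDegree = 0 := by rw [h, natDegree_zero]
    rw [natDegree_comp, HP_natDegree] at h1
    omega
  by_contra hcon
  have hall : ∀ α : ℂ, aeval α ((HP lam).comp f) = 0 → ∃ n : ℕ, 0 < n ∧ α ^ n = 1 := by
    intro α hα
    by_contra h1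
    push Not at h1
    exact hcon (transfer hFne hα h1)
  have hlamR : (1 : ℝ) ≤ lam := by exact_mod_cast hlam
  -- the root `θ`
  obtain ⟨r, hr⟩ : ∃ r : ℝ, r = Real.sqrt (4 * lam - 1) := ⟨_, rfl⟩
  have hr2 : r ^ 2 = 4 * lam - 1 := by
    rw [hr]
    exact Real.sq_sqrt (by linarith)
  have hrpos : 0 < r := by
    rw [hr]
    exact Real.sqrt_pos.2 (by linarith)
  set θ : ℂ := ⟨-(2 * lam - 1) / 2, r / 2⟩ with hθ
  have hθre : θ.re = -(2 * lam - 1) / 2 := rfl
  have hθim : θ.im = r / 2 := rfl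
  have him : θ.im ≠ 0 := by
    rw [hθim]
    positivity
  have hnsq : ‖θ‖ ^ 2 = (lam : ℝ) ^ 2 := by
    rw [← Complex.normSq_eq_norm_sq, Complex.normSq_apply, hθre, hθim]
    linear_combination (1 / 4) * hr2
  have hnorm : ‖θ‖ = lam := by
    have h1 : (0 : ℝ) ≤ lam := Nat.cast_nonneg _
    exact (sq_eq_sq₀ (norm_nonneg _) h1).1 hnsq
  have hquad : θ ^ 2 + (2 * (lam : ℂ) - 1) * θ + (lam : ℂ) ^ 2 = 0 := by
    have h1 : θ + (starRingEnd ℂ) θ = -(2 * (lam : ℂ) - 1) := by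
      rw [Complex.add_conj, hθre]
      push_cast
      ring
    have h2 : (starRingEnd ℂ) θ * θ = (lam : ℂ) ^ 2 := by
      rw [Complex.conj_mul', hnorm]
      push_cast
      rfl
    linear_combination θ * h1 - h2
  have hθc : aeval θ (HP lam) = 0 := by
    unfold HP
    rw [map_add, map_add, map_mul, map_pow, aeval_X, aeval_C, aeval_C]
    simp only [eq_intCast, Int.cast_sub, Int.cast_mul,
      Int.cast_ofNat, Int.cast_natCast, Int.cast_one, Int.cast_pow]
    linear_combination hquad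
  obtain ⟨h1, h2⟩ := uni_key h0 hlc hdeg him (fun α hα => by
    obtain ⟨n, hn, hn'⟩ := hall α (comp_root hα hθc)
    exact Complex.norm_eq_one_of_pow_eq_one hn' hn.ne')
  rw [hnorm] at h1
  have h3 : f.leadingCoeff = (lam : ℤ) := by exact_mod_cast h1
  have h4 := eq_monomial h2
  rw [h3] at h4
  rcases Nat.eq_or_lt_of_le hlam with h5 | h5
  · apply hne h5.symm f.natDegree
    rw [← h5] at h4
    simpa using h4
  · -- `θ / lam` is a root of unity
    have hlamC : (lam : ℂ) ≠ 0 := by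
      have : lam ≠ 0 := by omega
      exact_mod_cast this
    obtain ⟨α, hα⟩ : ∃ α : ℂ, α ^ f.natDegree = θ / lam :=
      IsAlgClosed.exists_pow_nat_eq _ hdeg
    have hαf : aeval α f = θ := by
      rw [h4]
      rw [map_mul, aeval_C, map_pow, aeval_X, hα]
      simp only [eq_intCast, Int.cast_natCast]
      field_simp
    obtain ⟨n, hn, hn'⟩ := hall α (comp_root hαf hθc)
    set u : ℂ := θ / lam with hu
    have hun : u ^ n = 1 := by
      rw [← hα, ← pow_mul, mul_comm, pow_mul, hn', one_pow]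
    have hu1 : IsIntegral ℤ u := by
      apply IsIntegral.of_pow hn
      rw [hun]
      exact isIntegral_one
    have hu0 : u ≠ 0 := by
      rintro h
      rw [h, zero_pow hn.ne'] at hun
      exact zero_ne_one hun
    have hu2 : IsIntegral ℤ (u⁻¹) := by
      apply IsIntegral.of_pow hn
      rw [inv_pow, hun, inv_one]
      exact isIntegral_one
    have hsum : u + u⁻¹ = ((-(2 * (lam : ℚ) - 1) / lam : ℚ) : ℂ) := by
      have hθ0 : θ ≠ 0 := by
        intro h
        rw [h, norm_zero] at hnorm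
        apply hlamC
        exact_mod_cast hnorm.symm
      rw [hu, inv_div]
      push_cast
      field_simp
      linear_combination hquad
    have hint : IsIntegral ℤ (-(2 * (lam : ℚ) - 1) / lam : ℚ) := by
      have h6 := hu1.add hu2
      rw [hsum] at h6
      exact (isIntegral_algebraMap_iff (R := ℤ) (A := ℚ) (B := ℂ)
        (algebraMap ℚ ℂ).injective).1 h6
    obtain ⟨y, hy⟩ := IsIntegrallyClosed.isIntegral_iff.1 hint
    have hlamQ : (lam : ℚ) ≠ 0 := by
      have : lam ≠ 0 := by omega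
      exact_mod_cast this
    rw [eq_div_iff hlamQ] at hy
    have h7 : y * lam = -(2 * (lam : ℤ) - 1) := by
      have : ((y * lam : ℤ) : ℚ) = ((-(2 * (lam : ℤ) - 1) : ℤ) : ℚ) := by
        push_cast
        exact hy
      exact_mod_cast this
    have h8 : (lam : ℤ) ∣ 1 := ⟨y + 2, by linear_combination -h7⟩
    have h9 := Int.le_of_dvd one_pos h8
    omega

end Pool.Agent.T2H18.PO
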