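import Mathlib

/-!
# A number field contains the square roots of finitely many primes
-/

set_option autoImplicit false

namespace Pool.Agent.T2H18.PO

open Polynomial IntermediateField

/-- `± q` -/
def qs (q : ℕ) : ℤ := (-1) ^ (q / 2) * q

lemma qs_natAbs (q : ℕ) : (qs q).natAbs = q := by
  unfold qs
  rw [Int.natAbs_mul, Int.natAbs_pow]
  simp

lemma no_sq {p : ℕ} (hp : p.Prime) {M : ℤ} (h1 : (p : ℤ) ∣ M) (h2 : ¬ (p : ℤ) ^ 2 ∣ M) (z : ℚ) :
    z ^ 2 ≠ M := by
  intro h
  have hF : Fact p.Prime := ⟨hp⟩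
  have hM : M ≠ 0 := by
    rintro rfl
    exact h2 (dvd_zero _)
  have hz : z ≠ 0 := by
    rintro rfl
    rw [zero_pow two_ne_zero] at h
    exact hM (by exact_mod_cast h.symm)
  have e1 : padicValRat p (z ^ 2) = 2 * padicValRat p z := by
    rw [padicValRat.pow]
    push_cast
    ring
  have e2 : padicValRat p ((M : ℚ)) = 1 := by
    rw [padicValRat.of_int]
    have e3 : padicValInt p M = 1 := by
      apply le_antisymm
      · by_contra hcon
        push Not at hcon
        apply h2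
        exact (padicValInt_dvd_iff 2 M).2 (Or.inr hcon)
      · have := (padicValInt_dvd_iff 1 M).1 (by simpa using h1)
        rcases this with h | h
        · exact absurd h hM
        · exact h
    rw [e3]
    rfl
  rw [h, e2] at e1
  omega

lemma qs_no_sq {q : ℕ} (hq : q.Prime) (z : ℚ) : z ^ 2 ≠ qs q := by
  have hq0 : (q : ℤ) ≠ 0 := by exact_mod_cast hq.ne_zero
  refine no_sq hq ?_ ?_ z
  · exact Dvd.dvd.mul_left (dvd_refl _) _
  · intro h
    have h1 := Int.natAbs_dvd_natAbs.2 h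
    rw [qs_natAbs, Int.natAbs_pow, Int.natAbs_natCast] at h1
    have h2 := Nat.le_of_dvd hq.pos h1
    have := hq.two_le
    nlinarith

lemma qs_mul_no_sq {q q' : ℕ} (hq : q.Prime) (hq' : q'.Prime) (hne : q ≠ q') (z : ℚ) :
    z ^ 2 ≠ ((qs q * qs q' : ℤ) : ℚ) := by
  refine no_sq hq ?_ ?_ z
  · exact (Dvd.dvd.mul_left (dvd_refl _) _ : (q : ℤ) ∣ qs q).mul_right _
  · intro h
    have h1 := Int.natAbs_dvd_natAbs.2 h
    rw [Int.natAbs_mul, qs_natAbs, qs_natAbs, Int.natAbs_pow, Int.natAbs_natCast, sq] at h1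
    have h2 := Nat.dvd_of_mul_dvd_mul_left hq.pos h1
    exact hne ((Nat.prime_dvd_prime_iff_eq hq hq').1 h2)

variable {K : Type} [Field K] [CharZero K]

lemma lin_of_mem {s x : K} {q : ℕ} (hs : s ^ 2 = (qs q : K)) (hx : x ∈ ℚ⟮s⟯) :
    ∃ a b : ℚ, x = a + b * s := by
  have hint : IsIntegral ℚ s := by
    refine ⟨X ^ 2 - C (qs q : ℚ), monic_X_pow_sub_C _ two_ne_zero, ?_⟩
    rw [eval₂_sub, eval₂_pow, eval₂_X, eval₂_C, map_intCast, hs, sub_self]
  have h1 : x ∈ Algebra.adjoin ℚ {s} := by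
    rw [← adjoin_simple_toSubalgebra_of_isAlgebraic hint.isAlgebraic]
    exact hx
  rw [Algebra.adjoin_singleton_eq_range_aeval] at h1
  obtain ⟨p, hp⟩ := h1
  set m : ℚ[X] := X ^ 2 - C (qs q : ℚ) with hm
  have hmon : m.Monic := monic_X_pow_sub_C _ two_ne_zero
  have hms : aeval s m = 0 := by
    rw [hm]
    simp [hs]
  have h2 : aeval s (p %ₘ m) = x := by
    rw [← hp]
    conv_rhs => rw [← modByMonic_add_div p m]
    simp [hms]
  have hdeg : (p %ₘ m).natDegree ≤ 1 := by
    have h3 : m.natDegree = 2 := natDegree_X_pow_sub_C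
    have h4 := natDegree_modByMonic_lt p hmon (by
      intro h
      rw [h, natDegree_one] at h3
      omega)
    omega
  obtain ⟨b, a, hab⟩ := exists_eq_X_add_C_of_natDegree_le_one hdeg
  refine ⟨a, b, ?_⟩
  rw [← h2, hab]
  simp
  ring

/-- different primes give different quadratic fields -/
lemma adj_inj {s s' : K} {q q' : ℕ} (hq : q.Prime) (hq' : q'.Prime) (hs : s ^ 2 = (qs q : K))
    (hs' : s' ^ 2 = (qs q' : K)) (h : ℚ⟮s⟯ = ℚ⟮s'⟯) : q = q' := by
  by_contra hne
  have hmem : s ∈ ℚ⟮s'⟯ := by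
    rw [← h]
    exact mem_adjoin_simple_self ℚ s
  obtain ⟨a, b, hab⟩ := lin_of_mem hs' hmem
  have e1 : (qs q : K) = (a : K) ^ 2 + (b : K) ^ 2 * (qs q' : K) + 2 * a * b * s' := by
    rw [← hs, ← hs', hab]
    ring
  by_cases hb : b = 0
  · rw [hb] at e1
    have e2 : ((qs q : ℚ) : K) = ((a ^ 2 : ℚ) : K) := by
      push_cast
      rw [e1]
      push_cast
      ring
    have e3 : (qs q : ℚ) = a ^ 2 := by exact_mod_cast e2
    exact qs_no_sq hq a e3.symm
  by_cases ha : a = 0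
  · rw [ha] at e1
    have e2 : ((qs q : ℚ) : K) = ((b ^ 2 * qs q' : ℚ) : K) := by
      push_cast
      rw [e1]
      push_cast
      ring
    have e3 : (qs q : ℚ) = b ^ 2 * qs q' := by exact_mod_cast e2
    apply qs_mul_no_sq hq hq' hne (b * qs q')
    push_cast
    rw [e3]
    ring
  · have hne2 : (2 * a * b : ℚ) ≠ 0 := by positivity
    have hneK : ((2 * a * b : ℚ) : K) ≠ 0 := by exact_mod_cast hne2
    have e2 : s' = (((qs q - a ^ 2 - b ^ 2 * qs q') / (2 * a * b) : ℚ) : K) := by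
      rw [Rat.cast_div, eq_div_iff hneK]
      push_cast
      linear_combination -e1
    have e3 : (((((qs q - a ^ 2 - b ^ 2 * qs q') / (2 * a * b)) ^ 2 : ℚ)) : K) = ((qs q' : ℚ) : K) := by
      rw [Rat.cast_pow, ← e2, hs']
      push_cast
      rfl
    have e4 : ((qs q - a ^ 2 - b ^ 2 * qs q') / (2 * a * b)) ^ 2 = (qs q' : ℚ) := by
      exact_mod_cast e3
    exact qs_no_sq hq' _ e4

/-- **A number field contains `√(± q)` for finitely many primes `q` only.** -/
theorem finite_quad (K : Type) [Field K] [NumberField K] :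
    {q : ℕ | q.Prime ∧ ∃ s : K, s ^ 2 = (qs q : K)}.Finite := by
  classical
  have hfin : Finite (IntermediateField ℚ K) :=
    Field.finite_intermediateField_of_exists_primitive_element ℚ K
      (Field.exists_primitive_element ℚ K)
  have h1 : ∀ q : ℕ, ∃ s : K, (q.Prime ∧ ∃ s : K, s ^ 2 = (qs q : K)) → s ^ 2 = (qs q : K) := by
    intro q
    by_cases h : q.Prime ∧ ∃ s : K, s ^ 2 = (qs q : K)
    · obtain ⟨s, hs⟩ := h.2
      exact ⟨s, fun _ => hs⟩
    · exact ⟨0, fun h' => absurd h' h⟩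
  choose s hs using h1
  refine Set.Finite.of_injOn (f := fun q => (ℚ⟮s q⟯ : IntermediateField ℚ K))
    (t := Set.univ) (fun q _ => Set.mem_univ _) ?_ Set.finite_univ
  intro q hq q' hq' h
  exact adj_inj hq.1 hq'.1 (hs q hq) (hs q' hq') h

end Pool.Agent.T2H18.PO
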